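import Pool.Agent.J4.H75.EC.Parity

/-!
# Contracting an edge which is in no cycle of length `2 k + 1`
-/

set_option autoImplicit false
set_option linter.unusedSectionVars false

open Finset

namespace Pool.Agent.J4.H75.EC

open Pool.Agent.J4.H75.GE Pool.Agent.J4.H75.GF Pool.TH815.GR

/-- Merge `y` into `x` (and isolate `y`). -/
def merge {V : Type} (G : SimpleGraph V) (x y : V) : SimpleGraph V where
  Adj a b := a ≠ y ∧ b ≠ y ∧ (G.Adj a b ∨ (a = x ∧ b ≠ x ∧ G.Adj y b) ∨ (b = x ∧ a ≠ x ∧ G.Adj y a))
  symm := ⟨fun a b h => ⟨h.2.1, h.1, by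
    rcases h.2.2 with h' | h' | h'
    · exact Or.inl h'.symm
    · exact Or.inr (Or.inr h')
    · exact Or.inr (Or.inl h')⟩⟩
  loopless := ⟨fun a h => by
    rcases h.2.2 with h' | h' | h'
    · exact h'.ne rfl
    · exact h'.2.1 h'.1
    · exact h'.2.1 h'.1⟩

variable {V : Type} {G : SimpleGraph V} {x y : V}

theorem merge_adj (a b : V) : (merge G x y).Adj a b ↔ a ≠ y ∧ b ≠ y ∧
    (G.Adj a b ∨ (a = x ∧ b ≠ x ∧ G.Adj y b) ∨ (b = x ∧ a ≠ x ∧ G.Adj y a)) := Iff.rfl

theorem merge_old {a b : V} (h : (merge G x y).Adj a b) (ha : a ≠ x) (hb : b ≠ x) : G.Adj a b := by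
  rcases h.2.2 with h' | h' | h'
  · exact h'
  · exact absurd h'.1 ha
  · exact absurd h'.1 hb

theorem merge_new {a : V} (h : (merge G x y).Adj x a) : G.Adj x a ∨ G.Adj y a := by
  rcases h.2.2 with h' | h' | h'
  · exact Or.inl h'
  · exact Or.inr h'.2.2
  · exact absurd rfl h'.2.1

theorem merge_walk {a b : V} (p : (merge G x y).Walk a b) (ha : a ≠ y) : y ∉ p.support := by
  induction p with
  | nil =>
    rw [SimpleGraph.Walk.support_nil, List.mem_singleton]
    exact ha.symm
  | cons h q ih =>
    rw [SimpleGraph.Walk.support_cons, List.mem_cons]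
    rintro (h' | h')
    · exact ha h'.symm
    · exact ih h.2.1 h'

/-- Paths of the merged graph which avoid `x` are paths of `G`. -/
theorem merge_transfer {a b : V} (p : (merge G x y).Walk a b) (hp : p.IsPath) (hx : x ∉ p.support) :
    ∃ q : G.Walk a b, q.IsPath ∧ q.length = p.length ∧ q.support = p.support := by
  have h : ∀ e ∈ p.edges, e ∈ G.edgeSet := by
    intro e he
    induction e with
    | h u v =>
      rw [SimpleGraph.mem_edgeSet]
      have h1 := p.fst_mem_support_of_mem_edges he
      have h2 := p.snd_mem_support_of_mem_edges he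
      exact merge_old (p.adj_of_mem_edges he) (fun e => hx (e ▸ h1)) (fun e => hx (e ▸ h2))
  exact ⟨p.transfer G h, hp.transfer h, p.length_transfer h, p.support_transfer h⟩

/-- A cycle from a path and a vertex adjacent to both ends. -/
theorem cycle_of_path {z a b : V} (R : G.Walk b a) (hR : R.IsPath) (hz : z ∉ R.support)
    (hza : G.Adj z a) (hzb : G.Adj z b) (hab : a ≠ b) :
    ∃ q : G.Walk z z, q.IsCycle ∧ q.length = R.length + 2 := by
  have hR1 : 1 ≤ R.length := by
    by_contra hcon
    have h0 : R.length = 0 := by omega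
    exact hab (SimpleGraph.Walk.eq_of_length_eq_zero h0).symm
  have hp : (R.concat hza.symm).IsPath := hR.concat hz hza.symm
  exact mono_cycle (G := G) (H := G) le_rfl (l := R.length + 2) (by omega) hzb.symm
    (R.concat hza.symm) hp (by rw [SimpleGraph.Walk.length_concat]; omega)

/-- The path through the two ends of the edge. -/
theorem path_between {a b : V} (R : G.Walk b a) (hR : R.IsPath) (hx : x ∉ R.support)
    (hy : y ∉ R.support) (hxa : G.Adj x a) (hyb : G.Adj y b) (hxy : x ≠ y) :
    ∃ q : G.Walk y x, q.IsPath ∧ q.length = R.length + 2 := by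
  refine ⟨SimpleGraph.Walk.cons hyb (R.concat hxa.symm), ?_, ?_⟩
  · rw [SimpleGraph.Walk.cons_isPath_iff]
    refine ⟨hR.concat hx hxa.symm, ?_⟩
    rw [SimpleGraph.Walk.support_concat, List.mem_append, List.mem_singleton]
    rintro (h | h)
    · exact hy h
    · exact hxy h.symm
  · rw [SimpleGraph.Walk.length_cons, SimpleGraph.Walk.length_concat]

/-- The girth of the merged graph. -/
theorem merge_girth [DecidableEq V] {k : ℕ}
    (hg : ∀ (v : V) (p : G.Walk v v), p.IsCycle → 2 * k < p.length) (hxy : G.Adj x y)
    (hno : ∀ q : G.Walk y x, q.IsPath → q.length ≠ 2 * k) :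
    ∀ (v : V) (p : (merge G x y).Walk v v), p.IsCycle → 2 * k < p.length := by
  intro v p hp
  by_contra hlen
  push Not at hlen
  by_cases hx : x ∈ p.support
  · -- rotate
    set q := p.rotate x hx with hq
    have hqc : q.IsCycle := hp.rotate hx
    have hql : q.length = p.length := SimpleGraph.Walk.length_rotate p x hx
    have h3 := hqc.three_le_length
    cases hqq : q with
    | nil =>
      rw [hqq] at h3
      simp at h3
    | @cons _ a _ hxa q' =>
      rw [hqq] at hqc hql h3
      rw [SimpleGraph.Walk.cons_isCycle_iff] at hqc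
      rw [SimpleGraph.Walk.length_cons] at hql h3
      obtain ⟨hq', hedge⟩ := hqc
      have hrev : q'.reverse.IsPath := hq'.reverse
      have hrevl : q'.reverse.length = q'.length := q'.length_reverse
      have hrede : s(x, a) ∉ q'.reverse.edges := by
        rw [SimpleGraph.Walk.edges_reverse, List.mem_reverse]
        exact hedge
      cases hqr : q'.reverse with
      | nil =>
        rw [hqr] at hrevl
        rw [SimpleGraph.Walk.length_nil] at hrevl
        omega
      | @cons _ b _ hxb r' =>
        rw [hqr] at hrev hrevl hrede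
        rw [SimpleGraph.Walk.cons_isPath_iff] at hrev
        rw [SimpleGraph.Walk.length_cons] at hrevl
        rw [SimpleGraph.Walk.edges_cons, List.mem_cons, not_or] at hrede
        obtain ⟨hr', hxr⟩ := hrev
        have hab : a ≠ b := by
          intro h
          apply hrede.1
          rw [h]
        have hyr : y ∉ r'.support := merge_walk r' hxb.2.1
        obtain ⟨R, hR, hRl, hRs⟩ := merge_transfer r' hr' hxr
        have hxR : x ∉ R.support := by rw [hRs]; exact hxr
        have hyR : y ∉ R.support := by rw [hRs]; exact hyr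
        have key : ∀ u w : V, ∀ T : G.Walk w u, T.IsPath → x ∉ T.support → y ∉ T.support →
            T.length = R.length → G.Adj x u → G.Adj y w → False := by
          intro u w T hT hxT hyT hTl hxu hyw
          obtain ⟨P, hP, hPl⟩ := path_between T hT hxT hyT hxu hyw hxy.ne
          have hne := hno P hP
          obtain ⟨c, hc, hcl⟩ := mono_cycle (G := G) (H := G) le_rfl (l := P.length + 1)
            (by omega) hxy.symm P hP (by omega)
          have := hg _ c hc
          omega
        rcases merge_new hxa with h1 | h1 <;> rcases merge_new hxb with h2 | h2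
        · obtain ⟨c, hc, hcl⟩ := cycle_of_path R hR hxR h1 h2 hab
          have := hg _ c hc
          omega
        · exact key a b R hR hxR hyR rfl h1 h2
        · exact key b a R.reverse hR.reverse
            (by rw [SimpleGraph.Walk.support_reverse, List.mem_reverse]; exact hxR)
            (by rw [SimpleGraph.Walk.support_reverse, List.mem_reverse]; exact hyR)
            (SimpleGraph.Walk.length_reverse R) h2 h1
        · obtain ⟨c, hc, hcl⟩ := cycle_of_path R hR hyR h1 h2 hab
          have := hg _ c hc
          omega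
  · have h : ∀ e ∈ p.edges, e ∈ G.edgeSet := by
      intro e he
      induction e with
      | h u w =>
        rw [SimpleGraph.mem_edgeSet]
        have h1 := p.fst_mem_support_of_mem_edges he
        have h2 := p.snd_mem_support_of_mem_edges he
        exact merge_old (p.adj_of_mem_edges he) (fun e => hx (e ▸ h1)) (fun e => hx (e ▸ h2))
    have h1 := hg v (p.transfer G h) (hp.transfer h)
    rw [SimpleGraph.Walk.length_transfer] at h1
    omega

instance [DecidableEq V] [DecidableRel G.Adj] (x y : V) : DecidableRel (merge G x y).Adj :=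
  fun a b => inferInstanceAs (Decidable (a ≠ y ∧ b ≠ y ∧
    (G.Adj a b ∨ (a = x ∧ b ≠ x ∧ G.Adj y b) ∨ (b = x ∧ a ≠ x ∧ G.Adj y a))))

/-- The number of edges of the merged graph. -/
theorem merge_edges {n : ℕ} (G : SimpleGraph (Fin n)) [DecidableRel G.Adj] {x y : Fin n}
    (hxy : G.Adj x y) (htri : ∀ z, ¬ (G.Adj x z ∧ G.Adj y z)) :
    ar (merge G x y) (univ \ {y}) (univ \ {y}) = ar G univ univ - 2 := by
  set W : Finset (Fin n) := univ \ {x, y} with hW
  have hmem : ∀ z, z ∈ W ↔ z ≠ x ∧ z ≠ y := by
    intro z
    simp [hW]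
  have e1 : univ \ {y} = {x} ∪ W := by
    ext z
    simp only [mem_sdiff, mem_univ, mem_singleton, true_and, mem_union, hmem]
    constructor
    · intro h
      by_cases hz : z = x
      · exact Or.inl hz
      · exact Or.inr ⟨hz, h⟩
    · rintro (h | h)
      · rw [h]; exact hxy.ne
      · exact h.2
  have d1 : Disjoint {x} W := by
    rw [Finset.disjoint_singleton_left, hmem]
    exact fun h => h.1 rfl
  have e2 : (univ : Finset (Fin n)) = {x} ∪ ({y} ∪ W) := by
    ext z
    simp only [mem_univ, mem_union, mem_singleton, hmem, true_iff]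
    tauto
  have d2 : Disjoint ({x} : Finset (Fin n)) ({y} ∪ W) := by
    rw [Finset.disjoint_singleton_left, mem_union, mem_singleton, hmem]
    rintro (h | h)
    · exact hxy.ne h
    · exact h.1 rfl
  have d3 : Disjoint {y} W := by
    rw [Finset.disjoint_singleton_left, hmem]
    exact fun h => h.2 rfl
  have hxx : ∀ (F : SimpleGraph (Fin n)) (_ : DecidableRel F.Adj) (z : Fin n), ar F {z} {z} = 0 := by
    intro F _ z
    simp [ar]
  have hWW : ar (merge G x y) W W = ar G W W := by
    unfold ar
    refine sum_congr rfl fun a ha => sum_congr rfl fun b hb => ?_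
    rw [hmem] at ha hb
    by_cases h : G.Adj a b
    · rw [if_pos h, if_pos]
      exact ⟨ha.2, hb.2, Or.inl h⟩
    · rw [if_neg h, if_neg]
      exact fun h' => h (merge_old h' ha.1 hb.1)
  have hxW : ar (merge G x y) {x} W = ar G {x} W + ar G {y} W := by
    unfold ar
    rw [sum_singleton, sum_singleton, sum_singleton, ← sum_add_distrib]
    refine sum_congr rfl fun b hb => ?_
    rw [hmem] at hb
    by_cases h1 : G.Adj x b
    · have h2 : ¬ G.Adj y b := fun h => htri b ⟨h1, h⟩
      rw [if_pos h1, if_neg h2, if_pos, add_zero]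
      exact ⟨hxy.ne, hb.2, Or.inl h1⟩
    · by_cases h2 : G.Adj y b
      · rw [if_neg h1, if_pos h2, if_pos, zero_add]
        exact ⟨hxy.ne, hb.2, Or.inr (Or.inl ⟨rfl, hb.1, h2⟩)⟩
      · rw [if_neg h1, if_neg h2, if_neg, add_zero]
        intro h
        rcases merge_new h with h' | h'
        · exact h1 h'
        · exact h2 h'
  have hxy1 : ar G {x} {y} = 1 := by
    unfold ar
    rw [sum_singleton, sum_singleton, if_pos hxy]
  have h1 : ar (merge G x y) (univ \ {y}) (univ \ {y}) = ar G W W + 2 * ar G {x} W
      + 2 * ar G {y} W := by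
    rw [e1, ar_union_left _ d1, ar_union_right _ d1, ar_union_right _ d1, hWW, hxW,
      ar_comm (merge G x y) W {x}, hxW, hxx (merge G x y) inferInstance x]
    ring
  have h2 : ∀ z : Finset (Fin n), ar G z univ = ar G z {x} + ar G z {y} + ar G z W := by
    intro z
    rw [e2, ar_union_right G d2, ar_union_right G d3]
    ring
  have h3 : ∀ z : Finset (Fin n), ar G univ z = ar G {x} z + ar G {y} z + ar G W z := by
    intro z
    rw [e2, ar_union_left G d2, ar_union_left G d3]
    ring
  have h4 : ar G univ univ = ar G W W + 2 * ar G {x} W + 2 * ar G {y} W + 2 := by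
    rw [h2, h3, h3, h3, hxx G inferInstance x, hxx G inferInstance y, ar_comm G {y} {x}, hxy1,
      ar_comm G W {x}, ar_comm G W {y}]
    ring
  rw [h1, h4]
  ring

end Pool.Agent.J4.H75.EC
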