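import Pool.Agent.J4.H75.GF.Cyc

/-!
# The bipartite graph of a maximal cut
-/

set_option autoImplicit false
set_option linter.unusedSectionVars false

open Finset

namespace Pool.Agent.J4.H75.EC

open Pool.Agent.J4.H75.GE Pool.Agent.J4.H75.GF Pool.TH815.GR

/-- The bipartite graph of the edges between `X` and its complement. -/
def cut {V : Type} (G : SimpleGraph V) (X : Finset V) : SimpleGraph V where
  Adj a b := G.Adj a b ∧ ¬ (a ∈ X ↔ b ∈ X)
  symm := ⟨fun a b hab => ⟨hab.1.symm, fun h => hab.2 h.symm⟩⟩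
  loopless := ⟨fun a ha => ha.2 Iff.rfl⟩

variable {V : Type} [Fintype V] [DecidableEq V] (G : SimpleGraph V) [DecidableRel G.Adj]
  (X : Finset V)

instance : DecidableRel (cut G X).Adj := fun a b =>
  inferInstanceAs (Decidable (G.Adj a b ∧ ¬ (a ∈ X ↔ b ∈ X)))

theorem cut_adj (a b : V) : (cut G X).Adj a b ↔ G.Adj a b ∧ ¬ (a ∈ X ↔ b ∈ X) := Iff.rfl

theorem cut_le : cut G X ≤ G := fun _ _ h => h.1

theorem ar_le_ar_of_le {G H : SimpleGraph V} [DecidableRel G.Adj] [DecidableRel H.Adj]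
    (h : H ≤ G) (A B : Finset V) : ar H A B ≤ ar G A B := by
  unfold ar
  refine sum_le_sum fun x _ => sum_le_sum fun y _ => ?_
  by_cases h1 : H.Adj x y
  · rw [if_pos h1, if_pos (h h1)]
  · rw [if_neg h1]
    split_ifs <;> norm_num

theorem cut_same {A B : Finset V} (h : ∀ a ∈ A, ∀ b ∈ B, (a ∈ X ↔ b ∈ X)) :
    ar (cut G X) A B = 0 := by
  unfold ar
  refine sum_eq_zero fun x hx => sum_eq_zero fun y hy => ?_
  rw [if_neg]
  rw [cut_adj]
  exact fun h1 => h1.2 (h x hx y hy)

theorem cut_diff {A B : Finset V} (h : ∀ a ∈ A, ∀ b ∈ B, ¬ (a ∈ X ↔ b ∈ X)) :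
    ar (cut G X) A B = ar G A B := by
  unfold ar
  refine sum_congr rfl fun x hx => sum_congr rfl fun y hy => ?_
  by_cases hxy : G.Adj x y
  · rw [if_pos hxy, if_pos]
    exact ⟨hxy, h x hx y hy⟩
  · rw [if_neg hxy, if_neg]
    exact fun h1 => hxy h1.1

/-- In a maximal cut at least half of the edges between any set and its complement are cut. -/
theorem cut_half (hX : fr G univ = ar G X X + ar G (univ \ X) (univ \ X)) (A : Finset V) :
    ar G A Aᶜ ≤ 2 * ar (cut G X) A Aᶜ := by
  set X1 : Finset V := A ∩ X with hX1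
  set X2 : Finset V := Aᶜ ∩ X with hX2
  set Y1 : Finset V := A \ X with hY1
  set Y2 : Finset V := Aᶜ \ X with hY2
  have eA : A = X1 ∪ Y1 := by
    ext z; simp only [hX1, hY1, mem_union, mem_inter, mem_sdiff]; tauto
  have eAc : Aᶜ = X2 ∪ Y2 := by
    ext z; simp only [hX2, hY2, mem_union, mem_inter, mem_sdiff]; tauto
  have eX : X = X1 ∪ X2 := by
    ext z; simp only [hX1, hX2, mem_union, mem_inter, mem_compl]; tauto
  have eY : univ \ X = Y1 ∪ Y2 := by
    ext z; simp only [hY1, hY2, mem_union, mem_sdiff, mem_univ, mem_compl]; tauto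
  have dA : Disjoint X1 Y1 := by
    rw [Finset.disjoint_left]; intro z h1 h2
    simp only [hX1, hY1, mem_inter, mem_sdiff] at h1 h2; tauto
  have dAc : Disjoint X2 Y2 := by
    rw [Finset.disjoint_left]; intro z h1 h2
    simp only [hX2, hY2, mem_inter, mem_sdiff] at h1 h2; tauto
  have dX : Disjoint X1 X2 := by
    rw [Finset.disjoint_left]; intro z h1 h2
    simp only [hX1, hX2, mem_inter, mem_compl] at h1 h2; tauto
  have dY : Disjoint Y1 Y2 := by
    rw [Finset.disjoint_left]; intro z h1 h2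
    simp only [hY1, hY2, mem_sdiff, mem_compl] at h1 h2; tauto
  have d21 : Disjoint X2 Y1 := by
    rw [Finset.disjoint_left]; intro z h1 h2
    simp only [hX2, hY1, mem_inter, mem_sdiff, mem_compl] at h1 h2; tauto
  have d12 : Disjoint Y2 X1 := by
    rw [Finset.disjoint_left]; intro z h1 h2
    simp only [hX1, hY2, mem_inter, mem_sdiff, mem_compl] at h1 h2; tauto
  have dd : Disjoint (X2 ∪ Y1) (Y2 ∪ X1) := by
    rw [Finset.disjoint_left]; intro z h1 h2
    simp only [hX1, hX2, hY1, hY2, mem_inter, mem_sdiff, mem_compl, mem_union] at h1 h2; tauto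
  have hU : (univ : Finset V) = (X2 ∪ Y1) ∪ (Y2 ∪ X1) := by
    ext z
    simp only [hX1, hX2, hY1, hY2, mem_inter, mem_sdiff, mem_compl, mem_union, mem_univ, true_iff]
    tauto
  have h1 := fr_combine G hU dd d21 d12
  rw [hX, eY] at h1
  have h2 : ar G X X = ar G X1 X1 + ar G X2 X2 + 2 * ar G X1 X2 := by
    conv_lhs => rw [eX]
    rw [ar_union_left G dX, ar_union_right G dX, ar_union_right G dX, ar_comm G X2 X1]
    ring
  have h3 : ar G (Y1 ∪ Y2) (Y1 ∪ Y2) = ar G Y1 Y1 + ar G Y2 Y2 + 2 * ar G Y1 Y2 := by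
    rw [ar_union_left G dY, ar_union_right G dY, ar_union_right G dY, ar_comm G Y2 Y1]
    ring
  rw [h2, h3] at h1
  have h4 : ar G A Aᶜ = ar G X1 X2 + ar G X1 Y2 + (ar G Y1 X2 + ar G Y1 Y2) := by
    conv_lhs => rw [eAc]
    conv_lhs => rw [eA]
    rw [ar_union_left G dA, ar_union_right G dAc, ar_union_right G dAc]
  have h5 : ar (cut G X) A Aᶜ = ar G X1 Y2 + ar G Y1 X2 := by
    conv_lhs => rw [eAc]
    conv_lhs => rw [eA]
    rw [ar_union_left _ dA, ar_union_right _ dAc, ar_union_right _ dAc]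
    rw [cut_same G X (A := X1) (B := X2), cut_diff G X (A := X1) (B := Y2),
      cut_diff G X (A := Y1) (B := X2), cut_same G X (A := Y1) (B := Y2)]
    · ring
    · intro a ha b hb
      simp only [hY1, hY2, mem_sdiff] at ha hb; tauto
    · intro a ha b hb
      simp only [hY1, hX2, mem_sdiff, mem_inter] at ha hb; tauto
    · intro a ha b hb
      simp only [hX1, hY2, mem_sdiff, mem_inter] at ha hb; tauto
    · intro a ha b hb
      simp only [hX1, hX2, mem_inter] at ha hb; tauto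
  have h6 : ar G X2 Y1 = ar G Y1 X2 := ar_comm G X2 Y1
  have h7 : ar G Y2 X1 = ar G X1 Y2 := ar_comm G Y2 X1
  rw [h6, h7] at h1
  rw [h4, h5]
  linarith

/-- Linear expansion of the cut graph. -/
theorem cut_expansion {a : ℝ} (ha : 1 < a) (hopt : Opt G a univ)
    (hX : fr G univ = ar G X X + ar G (univ \ X) (univ \ X)) {A : Finset V}
    (hA : 2 * A.card ≤ Fintype.card V) :
    (1 - 2 ^ (1 - a)) / 4 * ((A.card : ℝ) / Fintype.card V) * ar G univ univ ≤
      ar (cut G X) A Aᶜ := by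
  have h1 := expansion ha hopt (subset_univ A) (by rwa [card_univ])
  rw [card_univ, ← compl_eq_univ_sdiff] at h1
  have h2 := cut_half G X hX A
  have h3 : (1 - 2 ^ (1 - a)) / 4 * ((A.card : ℝ) / Fintype.card V) * ar G univ univ =
      ((1 - 2 ^ (1 - a)) / 2 * ((A.card : ℝ) / Fintype.card V) * ar G univ univ) / 2 := by ring
  rw [h3]
  linarith

end Pool.Agent.J4.H75.EC
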