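import Pool.Agent.J4.H75.EC.Cut
import Pool.Agent.J4.H75.GF.BPiece

/-!
# Optimal graphs without short even cycles: the cut graph mixes
-/

set_option autoImplicit false
set_option linter.unusedSectionVars false

open Finset

namespace Pool.Agent.J4.H75.EC

open Pool.Agent.J4.H75.GE Pool.Agent.J4.H75.GF Pool.TH815.GR

/-- In a graph of girth greater than `2 k` a lower bound for all degrees gives an upper bound. -/
theorem max_degree {V : Type} [Fintype V] [DecidableEq V] (H : SimpleGraph V) [DecidableRel H.Adj]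
    {k : ℕ} (hk : 1 ≤ k) (hg : ∀ (v : V) (p : H.Walk v v), p.IsCycle → 2 * k < p.length) {d : ℕ}
    (hd : ∀ x, d + 1 ≤ H.degree x) (v : V) : (H.degree v - 1) * d ^ (k - 1) ≤ Fintype.card V := by
  obtain ⟨E, hE, -⟩ := growthT (G := H) (M := 2 * k) hg
    (fun i => if i = 0 then {v} else univ)
    (fun _ y => univ.filter fun z => H.Adj y z) (fun i => if i = 0 then H.degree v else d + 1)
    (by
      intro i y _ z hz
      rw [mem_filter] at hz
      rw [if_neg (by omega)]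
      exact ⟨mem_univ _, hz.2⟩)
    (by
      intro i y hy
      rw [deg_eq]
      by_cases hi : i = 0
      · rw [if_pos hi] at hy ⊢
        rw [mem_singleton] at hy
        rw [hy]
      · rw [if_neg hi]
        exact hd y) (v := v) (by simp) k le_rfl
  obtain ⟨k', rfl⟩ : ∃ k', k = k' + 1 := ⟨k - 1, by omega⟩
  rw [prod_range_succ'] at hE
  have h1 : ∏ i ∈ range k', ((if i + 1 = 0 then H.degree v else d + 1) - 1) = d ^ k' := by
    rw [prod_congr rfl (g := fun _ => d) (fun i _ => by rw [if_neg (by omega)]; omega),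
      prod_const, card_range]
  rw [h1, if_pos rfl] at hE
  rw [Nat.add_sub_cancel, mul_comm]
  exact hE.trans (card_le_univ E)

/-- The cut graph of an optimal graph. -/
theorem cut_good {k : ℕ} (hk : 1 ≤ k) {c a : ℝ} (hc : 0 < c) (ha : 1 < a) :
    ∃ h K : ℝ, 0 < h ∧ 0 < K ∧ h ≤ K ∧ ∃ N₀ : ℕ, ∀ (n : ℕ) (G : SimpleGraph (Fin n))
      [DecidableRel G.Adj] (X : Finset (Fin n)),
      (∀ (v : Fin n) (p : G.Walk v v), p.IsCycle → Even p.length → 2 * k < p.length) → N₀ ≤ n →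
      Opt G a univ → c * (n : ℝ) ^ (1 + 1 / (k : ℝ)) ≤ ar G univ univ →
      fr G univ = ar G X X + ar G (univ \ X) (univ \ X) →
      GoodB k h K (cut G X) (fun x => decide (x ∈ X)) := by
  have hkpos : (0 : ℝ) < k := by exact_mod_cast hk
  set κ : ℝ := 1 - 2 ^ (1 - a) with hκ
  have hκ0 : 0 < κ := by
    have : (2 : ℝ) ^ (1 - a) < 1 := Real.rpow_lt_one_of_one_lt_of_neg (by norm_num) (by linarith)
    rw [hκ]; linarith
  set η : ℝ := κ / 4 * c with hη
  have hη0 : 0 < η := by positivity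
  set K : ℝ := 1 + (2 / η) ^ (k - 1) + η with hKd
  have hK1 : 0 < (2 / η) ^ (k - 1) := by positivity
  set D₂ : ℝ := 1 + 4 / η with hD₂
  have hD₂0 : 0 < D₂ := by positivity
  refine ⟨η, K, hη0, by positivity, by linarith, ⌈D₂ ^ k⌉₊ + 2, ?_⟩
  intro n' G _ X hg hN hopt hE hX
  set n : ℝ := (n' : ℝ) with hn
  have hn0 : 0 < n := by
    have : 0 < n' := by omega
    rw [hn]
    exact_mod_cast this
  set D : ℝ := n ^ (1 / (k : ℝ)) with hD
  have hD0 : 0 < D := Real.rpow_pos_of_pos hn0 _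
  have hroot : D ^ k = n := by
    rw [hD, ← Real.rpow_natCast, ← Real.rpow_mul hn0.le]
    have : (1 / (k : ℝ)) * (k : ℝ) = 1 := by field_simp
    rw [this, Real.rpow_one]
  have hrp : n ^ (1 + 1 / (k : ℝ)) = n * D := by
    rw [Real.rpow_add hn0, Real.rpow_one]
  rw [hrp] at hE
  have hDD₂ : D₂ ≤ D := by
    have h1 : D₂ ^ k ≤ D ^ k := by
      rw [hroot]
      refine (Nat.le_ceil _).trans ?_
      rw [hn]
      exact_mod_cast (by omega : ⌈D₂ ^ k⌉₊ ≤ n')
    exact le_of_pow_le_pow_left₀ (by omega) hD0.le h1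
  have h4η : 0 < 4 / η := by positivity
  have hD1 : 1 ≤ D := by linarith
  have hηD : 4 ≤ η * D := by
    have h1 : 4 / η ≤ D := by linarith
    rw [div_le_iff₀ hη0] at h1
    linarith
  set H : SimpleGraph (Fin n') := cut G X with hHd
  have hproper : ∀ a b, H.Adj a b → decide (a ∈ X) ≠ decide (b ∈ X) := by
    intro a b hab hc
    rw [decide_eq_decide] at hc
    exact hab.2 hc
  let col : H.Coloring Bool := SimpleGraph.Coloring.mk (fun x => decide (x ∈ X))
    (fun {a b} h => hproper a b h)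
  have hgH : ∀ (v : Fin n') (p : H.Walk v v), p.IsCycle → 2 * k < p.length := by
    intro v p hp
    have h1 : Even p.length := (col.even_length_iff_congr p).2 Iff.rfl
    have h2 := hg v (p.mapLe (cut_le G X)) (hp.mapLe (cut_le G X))
    rw [SimpleGraph.Walk.length_mapLe] at h2
    exact h2 h1
  have hexp : ∀ A : Finset (Fin n'), 2 * A.card ≤ n' →
      η * D * A.card ≤ ar (cut G X) A Aᶜ := by
    intro A hA
    have h4 := cut_expansion G X ha hopt hX (A := A) (by rwa [Fintype.card_fin])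
    rw [← hκ, Fintype.card_fin, ← hn] at h4
    refine le_trans ?_ h4
    calc η * D * A.card = κ / 4 * (A.card / n) * (c * (n * D)) := by
          rw [hη]
          field_simp
      _ ≤ _ := mul_le_mul_of_nonneg_left hE (by positivity)
  have hmin : ∀ x, η * D ≤ (H.degree x : ℝ) := by
    intro x
    have h4 := hexp {x} (by rw [card_singleton]; omega)
    rw [card_singleton, Nat.cast_one, mul_one] at h4
    refine h4.trans ?_
    rw [ar_eq_sum_card, sum_singleton, ← deg_eq]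
    exact_mod_cast card_le_card (filter_subset_filter _ (subset_univ _))
  set d : ℕ := ⌈η * D / 2⌉₊ with hd
  have hd1 : η * D / 2 ≤ d := Nat.le_ceil _
  have hd2 : (d : ℝ) < η * D / 2 + 1 := Nat.ceil_lt_add_one (by positivity)
  have hdeg : ∀ x, d + 1 ≤ H.degree x := by
    intro x
    have h1 := hmin x
    have h2 : ((d + 1 : ℕ) : ℝ) ≤ (H.degree x : ℝ) := by
      push_cast
      linarith
    exact_mod_cast h2
  have hmax : ∀ x, (H.degree x : ℝ) ≤ K * D := by
    intro x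
    have h1 := max_degree H hk hgH hdeg x
    rw [Fintype.card_fin] at h1
    have h2 : 1 ≤ H.degree x := by
      have := hdeg x
      omega
    have h3 : ((H.degree x : ℝ) - 1) * (d : ℝ) ^ (k - 1) ≤ n := by
      have h4 : (((H.degree x - 1) * d ^ (k - 1) : ℕ) : ℝ) ≤ n := by
        rw [hn]
        exact_mod_cast h1
      rw [Nat.cast_mul, Nat.cast_sub h2, Nat.cast_pow, Nat.cast_one] at h4
      exact h4
    have h5 : ((H.degree x : ℝ) - 1) * (η * D / 2) ^ (k - 1) ≤ n := by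
      refine le_trans ?_ h3
      apply mul_le_mul_of_nonneg_left _ (by
        have : (1 : ℝ) ≤ H.degree x := by exact_mod_cast h2
        linarith)
      exact pow_le_pow_left₀ (by positivity) hd1 _
    have h6 : n = D ^ (k - 1) * D := by
      rw [← pow_succ, Nat.sub_add_cancel hk, hroot]
    have h7 : (η * D / 2) ^ (k - 1) = (η / 2) ^ (k - 1) * D ^ (k - 1) := by
      rw [← mul_pow]
      congr 1
      ring
    rw [h6, h7] at h5
    have h8 : 0 < D ^ (k - 1) := by positivity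
    have h9 : ((H.degree x : ℝ) - 1) * (η / 2) ^ (k - 1) ≤ D := by
      have h10 : (((H.degree x : ℝ) - 1) * (η / 2) ^ (k - 1)) * D ^ (k - 1) ≤ D * D ^ (k - 1) := by
        linarith
      exact le_of_mul_le_mul_right h10 h8
    have h11 : (2 / η) ^ (k - 1) * (η / 2) ^ (k - 1) = 1 := by
      rw [← mul_pow]
      have : 2 / η * (η / 2) = 1 := by field_simp
      rw [this, one_pow]
    have h12 : (H.degree x : ℝ) - 1 ≤ (2 / η) ^ (k - 1) * D := by
      calc (H.degree x : ℝ) - 1 = (2 / η) ^ (k - 1) * (((H.degree x : ℝ) - 1) * (η / 2) ^ (k - 1)) := by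
            have : (2 / η) ^ (k - 1) * (((H.degree x : ℝ) - 1) * (η / 2) ^ (k - 1)) =
              ((2 / η) ^ (k - 1) * (η / 2) ^ (k - 1)) * ((H.degree x : ℝ) - 1) := by ring
            rw [this, h11, one_mul]
        _ ≤ _ := mul_le_mul_of_nonneg_left h9 hK1.le
    rw [hKd]
    nlinarith
  exact ⟨hgH, hproper, hmax, hmin, hexp⟩

/-- Paths of all lengths between any two vertices. -/
theorem optimal_paths {k : ℕ} (hk : 1 ≤ k) {c a : ℝ} (hc : 0 < c) (ha : 1 < a) :
    ∃ (l₁ : ℕ) (K : ℝ), 0 < K ∧ ∀ L M : ℕ, ∃ N₁ : ℕ, ∀ (n : ℕ) (G : SimpleGraph (Fin n))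
      [DecidableRel G.Adj],
      (∀ (v : Fin n) (p : G.Walk v v), p.IsCycle → Even p.length → 2 * k < p.length) → N₁ ≤ n →
      Opt G a univ → c * (n : ℝ) ^ (1 + 1 / (k : ℝ)) ≤ ar G univ univ →
      ∃ X : Finset (Fin n), fr G univ = ar G X X + ar G (univ \ X) (univ \ X) ∧
        (∀ x, ((cut G X).degree x : ℝ) ≤ K * (n : ℝ) ^ (1 / (k : ℝ))) ∧
        ∀ S : Finset (Fin n), S.card ≤ M → ∀ u v, u ≠ v → u ∉ S → v ∉ S →
          ∀ j, l₁ ≤ j → j ≤ L → (Even j ↔ decide (u ∈ X) = decide (v ∈ X)) →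
            ∃ p : (cut G X).Walk u v, p.IsPath ∧ p.length = j ∧ ∀ z ∈ S, z ∉ p.support := by
  have hkpos : (0 : ℝ) < k := by exact_mod_cast hk
  obtain ⟨h, K, hh0, hK, hhK, N₀, hgoodT⟩ := cut_good hk hc ha
  set θ : ℝ := 1 - h ^ 2 / (2 * K ^ 2) with hθd
  have hθ1 : θ < 1 := by
    have : 0 < h ^ 2 / (2 * K ^ 2) := by positivity
    rw [hθd]; linarith
  have hθ0 : 0 < θ := by
    have : h ^ 2 / (2 * K ^ 2) ≤ 1 / 2 := by
      rw [div_le_div_iff₀ (by positivity) (by norm_num)]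
      nlinarith
    rw [hθd]; linarith
  set B : ℝ := (4 * K / h ^ 2) ^ k with hB
  have hB0 : 0 < B := by positivity
  obtain ⟨n₁, hn₁⟩ := exists_pow_lt_of_lt_one (y := θ) (x := h / (2 * K) / B) (by positivity) hθ1
  refine ⟨4 * k + n₁, K, hK, fun L M => ?_⟩
  let D₀ : ℕ → ℝ := fun j =>
    (((j : ℝ) + 1) ^ 2 + M * ((j : ℝ) + 1)) * (4 ^ k * K ^ (j - k - 1)) / (h / (4 * K) * h ^ j)
  have hD₀ : ∀ j, 0 ≤ D₀ j := fun j => by
    show 0 ≤ _ / _
    positivity
  set D₁ : ℝ := ∑ j ∈ range (L + 1), D₀ j with hD₁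
  have hD₁0 : 0 ≤ D₁ := sum_nonneg fun j _ => hD₀ j
  refine ⟨N₀ + ⌈D₁ ^ k⌉₊ + 1, ?_⟩
  intro n' G _ hg hN hopt hE
  obtain ⟨X, -, hX⟩ := exists_fr G univ
  have hgood := hgoodT n' G X hg (by omega) hopt hE hX
  refine ⟨X, hX, hgood.deg_le, ?_⟩
  have hm0 : 0 < n' := by omega
  have hm0' : (0 : ℝ) < n' := by exact_mod_cast hm0
  set D : ℝ := (n' : ℝ) ^ (1 / (k : ℝ)) with hD
  have hD0 : 0 < D := Real.rpow_pos_of_pos hm0' _
  have hroot : D ^ k = n' := by
    rw [hD, ← Real.rpow_natCast, ← Real.rpow_mul hm0'.le]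
    have : (1 / (k : ℝ)) * (k : ℝ) = 1 := by field_simp
    rw [this, Real.rpow_one]
  have hDD₁ : D₁ ≤ D := by
    have h2 : D₁ ^ k ≤ D ^ k := by
      rw [hroot]
      refine (Nat.le_ceil _).trans ?_
      exact_mod_cast (by omega : ⌈D₁ ^ k⌉₊ ≤ n')
    exact le_of_pow_le_pow_left₀ (by omega) hD0.le h2
  intro S hS u v huv hu hv j hj hjL hpar
  have h1 := hgood.paths (M := M) hk hh0 hK hm0 (l := j) (by omega)
    (by
      rw [← le_div_iff₀ hB0]
      refine le_trans ?_ hn₁.le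
      exact pow_le_pow_of_le_one hθ0.le hθ1.le (by omega))
    (by
      have h3 : D₀ j ≤ D := by
        refine le_trans ?_ hDD₁
        exact single_le_sum (f := D₀) (fun i _ => hD₀ i) (mem_range.2 (by omega))
      have h4 : D₀ j * (h / (4 * K) * h ^ j) =
          (((j : ℝ) + 1) ^ 2 + M * ((j : ℝ) + 1)) * (4 ^ k * K ^ (j - k - 1)) := by
        show _ / (h / (4 * K) * h ^ j) * (h / (4 * K) * h ^ j) = _
        field_simp
      rw [← h4]
      have h5 := mul_le_mul_of_nonneg_right h3 (by positivity : 0 ≤ h / (4 * K) * h ^ j)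
      refine h5.trans (le_of_eq ?_)
      ring)
    hpar huv S hS hu hv
  have h2 : 0 < h / (4 * K) * h ^ j * D ^ (j - k) := by positivity
  have h3 := lt_of_lt_of_le h2 h1
  rw [Nat.cast_pos, card_pos] at h3
  obtain ⟨p, hp⟩ := h3
  rw [mem_filter, SimpleGraph.mem_finsetWalkLength_iff] at hp
  exact ⟨p, hp.2.1, hp.1, hp.2.2⟩

/-- A cycle of length `l` through an edge inside a colour class. -/
theorem mono_cycle {V : Type} {G H : SimpleGraph V} (hHG : H ≤ G) {l : ℕ} (hl : 3 ≤ l) {x y : V}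
    (hxy : G.Adj x y) (p : H.Walk x y) (hp : p.IsPath) (hpl : p.length = l - 1) :
    ∃ q : G.Walk y y, q.IsCycle ∧ q.length = l := by
  refine ⟨SimpleGraph.Walk.cons hxy.symm (p.mapLe hHG), ?_, ?_⟩
  · rw [SimpleGraph.Walk.cons_isCycle_iff]
    refine ⟨hp.mapLe hHG, ?_⟩
    apply end_edge _ (hp.mapLe hHG)
    rw [SimpleGraph.Walk.length_mapLe, hpl]
    omega
  · rw [SimpleGraph.Walk.length_cons, SimpleGraph.Walk.length_mapLe, hpl]
    omega

/-- Optimal graphs without short even cycles and without one long odd cycle are bipartite. -/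
theorem optimal_bip {k : ℕ} (hk : 1 ≤ k) {c a : ℝ} (hc : 0 < c) (ha : 1 < a) :
    ∃ l₀ : ℕ, ∀ l, l₀ ≤ l → Odd l → ∃ N₁ : ℕ, ∀ (n : ℕ) (G : SimpleGraph (Fin n))
      [DecidableRel G.Adj],
      (∀ (v : Fin n) (p : G.Walk v v), p.IsCycle → Even p.length → 2 * k < p.length) →
      (∀ (v : Fin n) (p : G.Walk v v), p.IsCycle → p.length ≠ l) → N₁ ≤ n →
      Opt G a univ → c * (n : ℝ) ^ (1 + 1 / (k : ℝ)) ≤ ar G univ univ → G.Colorable 2 := by
  obtain ⟨l₁, K, hK, hmain⟩ := optimal_paths hk hc ha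
  refine ⟨l₁ + 3, fun l hl hodd => ?_⟩
  obtain ⟨N₁, hN₁⟩ := hmain l 0
  refine ⟨N₁, ?_⟩
  intro n G _ hg hno hN hopt hE
  obtain ⟨X, -, -, hpath⟩ := hN₁ n G hg hN hopt hE
  have hnone : ∀ x y, G.Adj x y → decide (x ∈ X) ≠ decide (y ∈ X) := by
    intro x y hxy hc
    have heven : Even (l - 1) := by
      obtain ⟨t, ht⟩ := hodd
      exact ⟨t, by omega⟩
    obtain ⟨p, hp, hpl, -⟩ := hpath ∅ (by simp) x y hxy.ne (by simp) (by simp) (l - 1) (by omega)
      (by omega) ⟨fun _ => hc, fun _ => heven⟩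
    obtain ⟨q, hq, hql⟩ := mono_cycle (cut_le G X) (by omega) hxy p hp hpl
    exact hno y q hq hql
  let col : G.Coloring Bool := SimpleGraph.Coloring.mk (fun x => decide (x ∈ X))
    (fun {a b} h => hnone a b h)
  have := col.colorable
  rwa [Fintype.card_bool] at this

end Pool.Agent.J4.H75.EC
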