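import Pool.Agent.J4.H75.EC.Direct

/-!
# Extremal numbers of classes of graphs
-/

set_option autoImplicit false
set_option linter.unusedSectionVars false

open Finset

namespace Pool.Agent.J4.H75.EC

open Pool.Agent.J4.H75.GE Pool.Agent.J4.H75.GF Pool.TH815.GR

/-- An embedding of `Fin m` with a given image. -/
theorem exists_emb {V : Type} [DecidableEq V] (U : Finset V) :
    ∃ (m : ℕ) (φ : Fin m ↪ V), m = U.card ∧ (univ : Finset (Fin m)).map φ = U := by
  set e := U.equivFin with heq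
  let φ : Fin U.card ↪ V := ⟨fun i => (e.symm i : V), fun i j h => by
    have h1 : e.symm i = e.symm j := Subtype.ext h
    exact e.symm.injective h1⟩
  have hφU : ∀ i, φ i ∈ U := fun i => (e.symm i).2
  refine ⟨U.card, φ, rfl, ?_⟩
  ext x
  rw [mem_map]
  constructor
  · rintro ⟨i, -, rfl⟩
    exact hφU i
  · intro hx
    refine ⟨e ⟨x, hx⟩, mem_univ _, ?_⟩
    show ((e.symm (e ⟨x, hx⟩) : U) : V) = x
    rw [Equiv.symm_apply_apply]

/-- Extremal numbers of a property of graphs. -/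
noncomputable def exP (P : ∀ {n : ℕ}, SimpleGraph (Fin n) → Prop) (n : ℕ) : ℕ :=
  sSup {e | ∃ G : SimpleGraph (Fin n), P G ∧ G.edgeSet.ncard = e}

variable {P : ∀ {n : ℕ}, SimpleGraph (Fin n) → Prop}

theorem exP_fin (n : ℕ) : {e | ∃ G : SimpleGraph (Fin n), P G ∧ G.edgeSet.ncard = e}.Finite := by
  apply Set.Finite.subset (Set.finite_range fun G : SimpleGraph (Fin n) => G.edgeSet.ncard)
  rintro e ⟨G, -, rfl⟩
  exact ⟨G, rfl⟩

theorem le_exP {n : ℕ} {G : SimpleGraph (Fin n)} (hG : P G) : G.edgeSet.ncard ≤ exP P n :=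
  le_csSup (exP_fin n).bddAbove ⟨G, hG, rfl⟩

theorem exP_mem {n : ℕ} (h : ∃ G : SimpleGraph (Fin n), P G) :
    ∃ G : SimpleGraph (Fin n), P G ∧ G.edgeSet.ncard = exP P n := by
  obtain ⟨G, hG⟩ := h
  exact Nat.sSup_mem (s := {e | ∃ G : SimpleGraph (Fin n), P G ∧ G.edgeSet.ncard = e})
    ⟨_, G, hG, rfl⟩ (exP_fin n).bddAbove

theorem edges_eq {V : Type} [Fintype V] (G : SimpleGraph V) [DecidableRel G.Adj] [DecidableEq V] :
    ar G univ univ = 2 * (G.edgeSet.ncard : ℝ) := by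
  rw [ar_univ, ← SimpleGraph.coe_edgeFinset, Set.ncard_coe_finset]

end Pool.Agent.J4.H75.EC
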