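import Pool.Agent.J4.H75.EC.Contract

/-!
# Contracting many edges

A graph of girth greater than `2 k` with few closed walks of length `2 k + 1` contains an edge which is in
few of them. After the deletion of few edges this edge can be contracted.
-/

set_option autoImplicit false
set_option linter.unusedSectionVars false

open Finset

namespace Pool.Agent.J4.H75.EC

open Pool.Agent.J4.H75.GE Pool.Agent.J4.H75.GF Pool.TH815.GR

section walks

variable {V : Type} [Fintype V] [DecidableEq V]

/-- The number of closed walks of length `l`. -/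
noncomputable def cw (G : SimpleGraph V) [DecidableRel G.Adj] (l : ℕ) : ℝ := ∑ x, N G l x x

open Classical in
theorem cw_le {M G : SimpleGraph V} [DecidableRel M.Adj] [DecidableRel G.Adj] (x : V)
    (h : ∀ a b, M.Adj a b → a ≠ x → b ≠ x → G.Adj a b) (l : ℕ) :
    cw M l ≤ cw G l + (l + 1) * N M l x x := by
  have h1 : ∀ v, N M l v v ≤ N G l v v + ∑ i ∈ range (l + 1), N M i v x * N M (l - i) x v := by
    intro v
    have h2 := hits_le (G := M) l v v x
    have h3 : (((M.finsetWalkLength l v v).filter fun p => ¬ x ∈ p.support).card : ℝ) ≤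
        N G l v v := by
      unfold N
      have h4 : ((M.finsetWalkLength l v v).filter fun p => ¬ x ∈ p.support).card =
          (((M.finsetWalkLength l v v).filter fun p => ¬ x ∈ p.support).image
            fun p => p.support).card := by
        rw [card_image_of_injective]
        intro p q hpq
        exact SimpleGraph.Walk.ext_support hpq
      have h5 : (((M.finsetWalkLength l v v).filter fun p => ¬ x ∈ p.support).image
            fun p => p.support) ⊆ (G.finsetWalkLength l v v).image fun p => p.support := by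
        intro s hs
        rw [mem_image] at hs ⊢
        obtain ⟨p, hp, rfl⟩ := hs
        rw [mem_filter, SimpleGraph.mem_finsetWalkLength_iff] at hp
        have h6 : ∀ e ∈ p.edges, e ∈ G.edgeSet := by
          intro e he
          induction e with
          | h u w =>
            rw [SimpleGraph.mem_edgeSet]
            have a1 := p.fst_mem_support_of_mem_edges he
            have a2 := p.snd_mem_support_of_mem_edges he
            exact h u w (p.adj_of_mem_edges he) (fun e => hp.2 (e ▸ a1)) (fun e => hp.2 (e ▸ a2))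
        refine ⟨p.transfer G h6, ?_, p.support_transfer h6⟩
        rw [SimpleGraph.mem_finsetWalkLength_iff, SimpleGraph.Walk.length_transfer]
        exact hp.1
      have h6 := (card_le_card h5).trans card_image_le
      rw [h4]
      exact_mod_cast h6
    have h4 : N M l v v = (((M.finsetWalkLength l v v).filter fun p => x ∈ p.support).card : ℝ) +
        (((M.finsetWalkLength l v v).filter fun p => ¬ x ∈ p.support).card : ℝ) := by
      unfold N
      rw [← card_filter_add_card_filter_not (fun p : M.Walk v v => x ∈ p.support)]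
      push_cast
      rfl
    linarith
  unfold cw
  calc ∑ v, N M l v v ≤ ∑ v, (N G l v v + ∑ i ∈ range (l + 1), N M i v x * N M (l - i) x v) :=
        sum_le_sum fun v _ => h1 v
    _ = ∑ v, N G l v v + ∑ i ∈ range (l + 1), ∑ v, N M (l - i) x v * N M i v x := by
        rw [sum_add_distrib, sum_comm]
        congr 1
        refine sum_congr rfl fun i _ => sum_congr rfl fun v _ => mul_comm _ _
    _ = ∑ v, N G l v v + ∑ i ∈ range (l + 1), N M l x x := by
        congr 1
        refine sum_congr rfl fun i hi => ?_
        rw [N_add]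
        congr 1
        rw [mem_range] at hi
        omega
    _ = ∑ v, N G l v v + (l + 1) * N M l x x := by
        rw [sum_const, card_range, nsmul_eq_mul]
        push_cast
        ring

/-- Closed walks and edges. -/
theorem cw_succ (G : SimpleGraph V) [DecidableRel G.Adj] (l : ℕ) :
    cw G (l + 1) = ∑ x, ∑ y, ad G x y * N G l y x := by
  unfold cw
  refine sum_congr rfl fun x _ => ?_
  rw [add_comm, ← N_add]
  refine sum_congr rfl fun y _ => ?_
  rw [← pow_eq_N G 1, pow_one, adj_eq_ad]

/-- An edge between vertices outside of `T` which is in few closed walks. -/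
theorem exists_edge (G : SimpleGraph V) [DecidableRel G.Adj] (l : ℕ) {T : Finset V} {C s : ℝ}
    (hC : cw G (l + 1) ≤ C) (hs : C < s * ar G Tᶜ Tᶜ) :
    ∃ x y, x ∉ T ∧ y ∉ T ∧ G.Adj x y ∧ N G l y x ≤ s := by
  by_contra hcon
  push Not at hcon
  have h1 : s * ar G Tᶜ Tᶜ ≤ cw G (l + 1) := by
    rw [cw_succ]
    unfold ar
    rw [mul_sum]
    calc ∑ x ∈ Tᶜ, s * ∑ y ∈ Tᶜ, (if G.Adj x y then (1 : ℝ) else 0)
        ≤ ∑ x ∈ Tᶜ, ∑ y, ad G x y * N G l y x := by
          refine sum_le_sum fun x hx => ?_
          rw [mul_sum]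
          calc ∑ y ∈ Tᶜ, s * (if G.Adj x y then (1 : ℝ) else 0)
              ≤ ∑ y ∈ Tᶜ, ad G x y * N G l y x := by
                refine sum_le_sum fun y hy => ?_
                unfold ad
                by_cases h : G.Adj x y
                · rw [if_pos h, mul_one, one_mul]
                  exact (hcon x y (by simpa using hx) (by simpa using hy) h).le
                · rw [if_neg h, mul_zero, zero_mul]
            _ ≤ _ := sum_le_sum_of_subset_of_nonneg (subset_univ _) fun y _ _ =>
                mul_nonneg (ad_nonneg G x y) (N_nonneg G l y x)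
      _ ≤ _ := sum_le_sum_of_subset_of_nonneg (subset_univ _) fun x _ _ =>
          sum_nonneg fun y _ => mul_nonneg (ad_nonneg G x y) (N_nonneg G l y x)
  linarith

/-- The number of edges outside of `T`. -/
theorem ar_compl (G : SimpleGraph V) [DecidableRel G.Adj] {T : Finset V} {D : ℝ}
    (hD : ∀ v, (G.degree v : ℝ) ≤ D) : ar G univ univ - 2 * (T.card * D) ≤ ar G Tᶜ Tᶜ := by
  have h1 := ar_split G (subset_univ T)
  have h2 : ar G T T + ar G T (univ \ T) ≤ T.card * D := by
    have h3 : ar G T T + ar G T (univ \ T) = ar G T univ := by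
      rw [← ar_union_right G disjoint_sdiff, union_sdiff_of_subset (subset_univ T)]
    rw [h3, ar_eq_sum_card, ← nsmul_eq_mul, ← sum_const]
    refine sum_le_sum fun v _ => ?_
    rw [deg_eq]
    exact hD v
  have h3 : 0 ≤ ar G T T := ar_nonneg G T T
  rw [compl_eq_univ_sdiff]
  linarith

/-- Deleting few edges such that the edge `x y` is in no cycle of length `2 k + 1`. -/
theorem delete {k : ℕ} (hk : 2 ≤ k) (G : SimpleGraph V) [DecidableRel G.Adj] {x y : V}
    (hxy : G.Adj x y) :
    ∃ (G' : SimpleGraph V) (_ : DecidableRel G'.Adj), G' ≤ G ∧ G'.Adj x y ∧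
      (∀ q : G'.Walk y x, q.IsPath → q.length ≠ 2 * k) ∧
      ar G univ univ - 2 * N G (2 * k) y x ≤ ar G' univ univ := by
  classical
  set F : Finset (Sym2 V) := ((G.finsetWalkLength (2 * k) y x).image
    fun q => s(y, q.getVert 1)) \ {s(x, y)} with hF
  have hmem : ∀ e, e ∈ F ↔ (∃ q ∈ G.finsetWalkLength (2 * k) y x, s(y, q.getVert 1) = e) ∧
      e ≠ s(x, y) := by
    intro e
    rw [hF, mem_sdiff, mem_singleton, mem_image]
  refine ⟨G.deleteEdges (F : Set (Sym2 V)), inferInstance, G.deleteEdges_le _, ?_, ?_, ?_⟩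
  · rw [SimpleGraph.deleteEdges_adj]
    refine ⟨hxy, ?_⟩
    rw [mem_coe, hmem]
    exact fun h => h.2 rfl
  · intro q hq hql
    have h1 := q.adj_getVert_succ (i := 0) (by omega)
    rw [SimpleGraph.Walk.getVert_zero, zero_add, SimpleGraph.deleteEdges_adj] at h1
    apply h1.2
    rw [mem_coe, hmem]
    refine ⟨⟨q.mapLe (G.deleteEdges_le _), ?_, ?_⟩, ?_⟩
    · rw [SimpleGraph.mem_finsetWalkLength_iff, SimpleGraph.Walk.length_mapLe, hql]
    · congr 1
      simp
    · intro h
      have h2 : q.getVert 1 = x := by
        rw [Sym2.eq_iff] at h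
        rcases h with ⟨h, -⟩ | ⟨-, h⟩
        · exact absurd h hxy.ne.symm
        · exact h
      have h3 : q.getVert q.length = x := q.getVert_length
      have h4 := hq.getVert_injOn (show (1 : ℕ) ∈ {i | i ≤ q.length} by
        simp only [Set.mem_setOf_eq]; omega) (show q.length ∈ {i | i ≤ q.length} by simp)
        (h2.trans h3.symm)
      omega
  · rw [edges_eq, edges_eq, SimpleGraph.edgeSet_deleteEdges]
    have h1 : (F : Set (Sym2 V)).ncard ≤ (G.finsetWalkLength (2 * k) y x).card := by
      rw [Set.ncard_coe_finset]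
      exact (card_le_card sdiff_subset).trans card_image_le
    have h2 := Set.le_ncard_sdiff (F : Set (Sym2 V)) G.edgeSet (Finset.finite_toSet F)
    have h3 : G.edgeSet.ncard ≤ (G.edgeSet \ (F : Set (Sym2 V))).ncard +
        (G.finsetWalkLength (2 * k) y x).card := by omega
    have h4 : (G.edgeSet.ncard : ℝ) ≤ ((G.edgeSet \ (F : Set (Sym2 V))).ncard : ℝ) +
        N G (2 * k) y x := by
      unfold N
      exact_mod_cast h3
    linarith

/-- The degrees of the merged graph. -/
theorem merge_degree (G : SimpleGraph V) [DecidableRel G.Adj] {x y : V} (hxy : x ≠ y) (a : V) :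
    ((merge G x y).degree a : ℝ) ≤ if a = x then (G.degree x : ℝ) + G.degree y
      else G.degree a := by
  split_ifs with hax
  · subst hax
    have h1 : (merge G a y).neighborFinset a ⊆ G.neighborFinset a ∪ G.neighborFinset y := by
      intro b hb
      rw [SimpleGraph.mem_neighborFinset] at hb
      rw [mem_union, SimpleGraph.mem_neighborFinset, SimpleGraph.mem_neighborFinset]
      exact merge_new hb
    have h2 := (card_le_card h1).trans (card_union_le _ _)
    rw [SimpleGraph.card_neighborFinset_eq_degree, SimpleGraph.card_neighborFinset_eq_degree,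
      SimpleGraph.card_neighborFinset_eq_degree] at h2
    exact_mod_cast h2
  · have h1 : (merge G x y).neighborFinset a ⊆
        (G.neighborFinset a).image fun z => if z = y then x else z := by
      intro b hb
      rw [SimpleGraph.mem_neighborFinset] at hb
      rw [mem_image]
      rcases hb.2.2 with h' | h' | h'
      · exact ⟨b, by rwa [SimpleGraph.mem_neighborFinset], if_neg hb.2.1⟩
      · exact absurd h'.1 hax
      · refine ⟨y, ?_, ?_⟩
        · rw [SimpleGraph.mem_neighborFinset]
          exact h'.2.2.symm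
        · rw [if_pos rfl, h'.1]
    have h2 := (card_le_card h1).trans card_image_le
    rw [SimpleGraph.card_neighborFinset_eq_degree, SimpleGraph.card_neighborFinset_eq_degree] at h2
    exact_mod_cast h2

end walks

/-- A state of the process: `i` vertices have been removed. -/
structure St {n : ℕ} (k : ℕ) (D C e : ℝ) (i : ℕ) (G : SimpleGraph (Fin n))
    [DecidableRel G.Adj] : Prop where
  girth : ∀ (v : Fin n) (p : G.Walk v v), p.IsCycle → 2 * k < p.length
  iso : ∃ Z : Finset (Fin n), Z.card = i ∧ ∀ z ∈ Z, ∀ a, ¬ G.Adj z a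
  high : ∃ T : Finset (Fin n), T.card ≤ i ∧ ∀ v, v ∉ T → (G.degree v : ℝ) ≤ D
  deg : ∀ v, (G.degree v : ℝ) ≤ 2 * D
  closed : cw G (2 * k + 1) ≤ C
  edges : e ≤ ar G univ univ

/-- One contraction. -/
theorem step_St {n k : ℕ} (hk : 2 ≤ k) {D C e s : ℝ} (hD : 0 < D) {i : ℕ}
    (G : SimpleGraph (Fin n)) [DecidableRel G.Adj] (hG : St k D C e i G)
    (hs : 0 ≤ s) (hCs : C < s * (e - 4 * i * D)) :
    ∃ (G' : SimpleGraph (Fin n)) (_ : DecidableRel G'.Adj),
      St k D (C + (2 * k + 2) * (4 ^ k * (2 * D) ^ (k + 1))) (e - 2 - 2 * s) (i + 1) G' := by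
  obtain ⟨Z, hZc, hZ⟩ := hG.iso
  obtain ⟨T, hTc, hT⟩ := hG.high
  have hTc' : (T.card : ℝ) ≤ i := by exact_mod_cast hTc
  have h1 := ar_compl G (T := T) hG.deg
  have h2 : e - 4 * i * D ≤ ar G Tᶜ Tᶜ := by
    have h3 := hG.edges
    have h4 : (T.card : ℝ) * D ≤ i * D := mul_le_mul_of_nonneg_right hTc' hD.le
    linarith
  obtain ⟨x, y, hx, hy, hxy, hN⟩ := exists_edge G (2 * k) (T := T) hG.closed
    (lt_of_lt_of_le hCs (mul_le_mul_of_nonneg_left h2 hs))
  obtain ⟨H, _, hHG, hHxy, hno, hHe⟩ := delete hk G hxy
  have hgH : ∀ (v : Fin n) (p : H.Walk v v), p.IsCycle → 2 * k < p.length := by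
    intro v p hp
    have h3 := hG.girth v (p.mapLe hHG) (hp.mapLe hHG)
    rwa [SimpleGraph.Walk.length_mapLe] at h3
  have htri : ∀ z, ¬ (H.Adj x z ∧ H.Adj y z) := by
    rintro z ⟨h3, h4⟩
    obtain ⟨q, hq, hql⟩ := mono_cycle (G := H) (H := H) le_rfl (l := 3) le_rfl hHxy
      (SimpleGraph.Walk.cons h3 (SimpleGraph.Walk.cons h4.symm SimpleGraph.Walk.nil)) (by
        rw [SimpleGraph.Walk.cons_isPath_iff, SimpleGraph.Walk.cons_isPath_iff]
        refine ⟨⟨SimpleGraph.Walk.IsPath.nil, ?_⟩, ?_⟩
        · rw [SimpleGraph.Walk.support_nil, List.mem_singleton]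
          exact h4.ne.symm
        · rw [SimpleGraph.Walk.support_cons, SimpleGraph.Walk.support_nil, List.mem_cons,
            List.mem_singleton]
          rintro (h | h)
          · exact h3.ne h
          · exact hHxy.ne h) (by simp)
    have := hgH _ q hq
    omega
  have hgM := merge_girth hgH hHxy hno
  have hdegH : ∀ v, (H.degree v : ℝ) ≤ G.degree v := by
    intro v
    rw [← H.card_neighborFinset_eq_degree, ← G.card_neighborFinset_eq_degree]
    have h3 : H.neighborFinset v ⊆ G.neighborFinset v := by
      intro b hb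
      rw [SimpleGraph.mem_neighborFinset] at hb ⊢
      exact hHG hb
    exact_mod_cast card_le_card h3
  have hdegM : ∀ v, v ≠ x → ((merge H x y).degree v : ℝ) ≤ G.degree v := by
    intro v hv
    have h3 := merge_degree H hHxy.ne v
    rw [if_neg hv] at h3
    exact h3.trans (hdegH v)
  have hdegMx : ((merge H x y).degree x : ℝ) ≤ 2 * D := by
    have h3 := merge_degree H hHxy.ne x
    rw [if_pos rfl] at h3
    have h4 := hT x hx
    have h5 := hT y hy
    have h6 := hdegH x
    have h7 := hdegH y
    linarith
  have hdeg2 : ∀ v, ((merge H x y).degree v : ℝ) ≤ 2 * D := by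
    intro v
    by_cases hv : v = x
    · rw [hv]; exact hdegMx
    · exact (hdegM v hv).trans (hG.deg v)
  refine ⟨merge H x y, inferInstance, hgM, ⟨insert y Z, ?_, ?_⟩, ⟨insert x T, ?_, ?_⟩, hdeg2, ?_, ?_⟩
  · rw [card_insert_of_notMem, hZc]
    intro h
    exact hZ y h x hxy.symm
  · intro z hz a h
    rw [mem_insert] at hz
    rcases hz with hz | hz
    · exact h.1 hz
    · rcases h.2.2 with h' | h' | h'
      · exact hZ z hz a (hHG h')
      · rw [h'.1] at hz
        exact hZ x hz y hxy
      · exact hZ z hz y (hHG h'.2.2.symm)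
  · exact (card_insert_le x T).trans (by omega)
  · intro v hv
    rw [mem_insert, not_or] at hv
    exact (hdegM v hv.1).trans (hT v hv.2)
  · have h3 := cw_le (M := merge H x y) (G := G) x (fun a b h ha hb => hHG (merge_old h ha hb))
      (2 * k + 1)
    have h4 := N_le_two hgM hdeg2 (by positivity) (a := 2 * k + 1) (by omega) x x
    have e1 : 2 * k + 1 - k = k + 1 := by omega
    rw [e1] at h4
    have h5 := hG.closed
    have h6 : (((2 * k + 1 : ℕ) : ℝ) + 1) * N (merge H x y) (2 * k + 1) x x ≤
        (2 * k + 2) * (4 ^ k * (2 * D) ^ (k + 1)) := by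
      push_cast
      have : (2 * (k : ℝ) + 1 + 1) = 2 * k + 2 := by ring
      rw [this]
      exact mul_le_mul_of_nonneg_left h4 (by positivity)
    linarith
  · have h3 := merge_edges H hHxy htri
    have h4 : ar (merge H x y) (univ \ {y}) (univ \ {y}) ≤ ar (merge H x y) univ univ :=
      ar_mono _ (subset_univ _) (subset_univ _)
    have h5 := hG.edges
    linarith

end Pool.Agent.J4.H75.EC
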