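import Pool.Agent.J4.H75.EC.Far

/-!
# Extremal graphs of large girth are far from bipartite
-/

set_option autoImplicit false
set_option linter.unusedSectionVars false

open Finset

namespace Pool.Agent.J4.H75.EC

open Pool.Agent.J4.H75.GE Pool.Agent.J4.H75.GF Pool.TH815.GR

/-- Many contractions. -/
theorem iterate_St {n k : ℕ} (hk : 2 ≤ k) {D e s : ℝ} (hD : 0 < D) (G : SimpleGraph (Fin n))
    [DecidableRel G.Adj] (hG : St k D 0 e 0 G) (hs : 0 ≤ s) {t : ℕ}
    (hC : t * ((2 * k + 2) * (4 ^ k * (2 * D) ^ (k + 1))) < s * (e / 2))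
    (hE : 2 * t * (1 + s) + 4 * t * D ≤ e / 2) : ∀ i ≤ t,
    ∃ (G' : SimpleGraph (Fin n)) (_ : DecidableRel G'.Adj),
      St k D (i * ((2 * k + 2) * (4 ^ k * (2 * D) ^ (k + 1)))) (e - 2 * i * (1 + s)) i G' := by
  intro i
  induction i with
  | zero =>
    intro _
    refine ⟨G, inferInstance, ?_⟩
    simpa using hG
  | succ i ih =>
    intro hi
    obtain ⟨G₁, _, h1⟩ := ih (by omega)
    have hi' : (i : ℝ) ≤ t := by exact_mod_cast (by omega : i ≤ t)
    have hi0 : (0 : ℝ) ≤ i := Nat.cast_nonneg _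
    set C₁ : ℝ := (2 * k + 2) * (4 ^ k * (2 * D) ^ (k + 1)) with hC₁
    have hC₁0 : 0 ≤ C₁ := by positivity
    have h2 : (i : ℝ) * C₁ ≤ t * C₁ := mul_le_mul_of_nonneg_right hi' hC₁0
    have h3 : e / 2 ≤ e - 2 * i * (1 + s) - 4 * i * D := by
      have h4 : 2 * (i : ℝ) * (1 + s) ≤ 2 * t * (1 + s) := by
        apply mul_le_mul_of_nonneg_right _ (by linarith)
        linarith
      have h5 : 4 * (i : ℝ) * D ≤ 4 * t * D := by
        apply mul_le_mul_of_nonneg_right _ hD.le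
        linarith
      linarith
    obtain ⟨G₂, i₂, h4⟩ := step_St hk hD G₁ h1 hs (by
      have := mul_le_mul_of_nonneg_left h3 hs
      linarith)
    refine ⟨G₂, i₂, ?_⟩
    have e1 : (i : ℝ) * C₁ + (2 * k + 2) * (4 ^ k * (2 * D) ^ (k + 1)) = ((i + 1 : ℕ) : ℝ) * C₁ := by
      rw [← hC₁]
      push_cast
      ring
    have e2 : e - 2 * i * (1 + s) - 2 - 2 * s = e - 2 * ((i + 1 : ℕ) : ℝ) * (1 + s) := by
      push_cast
      ring
    rw [e1, e2] at h4
    exact h4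

/-- Graphs of girth greater than `2 k`. -/
def Gir (k : ℕ) {n : ℕ} (G : SimpleGraph (Fin n)) : Prop :=
  ∀ (v : Fin n) (p : G.Walk v v), p.IsCycle → 2 * k < p.length

/-- The graph on the remaining vertices. -/
theorem ex_after {n k t : ℕ} {D C e : ℝ} (G : SimpleGraph (Fin n)) [DecidableRel G.Adj]
    (hG : St k D C e t G) : e ≤ 2 * (exP (fun {m} (H : SimpleGraph (Fin m)) => Gir k H) (n - t) : ℝ) := by
  obtain ⟨Z, hZc, hZ⟩ := hG.iso
  obtain ⟨m, φ, hm, hφ⟩ := exists_emb (univ \ Z : Finset (Fin n))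
  have hmn : m = n - t := by
    rw [hm, card_sdiff_of_subset (subset_univ _), card_univ, Fintype.card_fin, hZc]
  subst hmn
  have h1 : Gir k (G.comap φ) := cycle_comap (G := G) φ hG.girth
  have h2 := le_exP (P := fun {m} (H : SimpleGraph (Fin m)) => Gir k H) h1
  have h3 : 2 * ((G.comap φ).edgeSet.ncard : ℝ) = ar G (univ \ Z) (univ \ Z) := by
    rw [← edges_eq, ar_comap, hφ]
  have h4 : ar G univ univ = ar G (univ \ Z) (univ \ Z) := by
    unfold ar
    have h5 : ∀ x ∈ univ, x ∉ univ \ Z → ∑ y, (if G.Adj x y then (1 : ℝ) else 0) = 0 := by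
      intro x _ hx
      rw [mem_sdiff, not_and, not_not] at hx
      refine sum_eq_zero fun y _ => ?_
      rw [if_neg (hZ x (hx (mem_univ x)) y)]
    rw [← sum_subset (subset_univ (univ \ Z)) h5]
    refine sum_congr rfl fun x _ => ?_
    refine (sum_subset (subset_univ (univ \ Z)) ?_).symm
    intro y _ hy
    rw [mem_sdiff, not_and, not_not] at hy
    rw [if_neg (fun h => hZ y (hy (mem_univ y)) x h.symm)]
  have h5 : ((G.comap φ).edgeSet.ncard : ℝ) ≤
      (exP (fun {m} (H : SimpleGraph (Fin m)) => Gir k H) (n - t) : ℝ) := by exact_mod_cast h2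
  have h6 := hG.edges
  linarith

/-- Bipartite graphs. -/
theorem base_St {n k : ℕ} {D : ℝ} (B : SimpleGraph (Fin n)) [DecidableRel B.Adj]
    (hB : B.Colorable 2) (hg : Gir k B) (hD : 0 ≤ D) (hdeg : ∀ v, (B.degree v : ℝ) ≤ D) :
    St k D 0 (ar B univ univ) 0 B := by
  refine ⟨hg, ⟨∅, rfl, by simp⟩, ⟨∅, by simp, fun v _ => hdeg v⟩, fun v => ?_, ?_, le_rfl⟩
  · have := hdeg v
    linarith
  · obtain ⟨col⟩ := hB
    let col' : B.Coloring Bool := SimpleGraph.Coloring.mk (fun x => decide (col x = 0))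
      (fun {a b} h hc => by
        have h5 := col.valid h
        apply h5
        rw [decide_eq_decide] at hc
        have key : ∀ i j : Fin 2, (i = 0 ↔ j = 0) → i = j := by decide
        exact key _ _ hc)
    unfold cw
    apply le_of_eq
    refine sum_eq_zero fun x _ => ?_
    unfold N
    rw [Nat.cast_eq_zero, card_eq_zero, eq_empty_iff_forall_notMem]
    intro p hp
    rw [SimpleGraph.mem_finsetWalkLength_iff] at hp
    have h1 : Even p.length := (col'.even_length_iff_congr p).2 Iff.rfl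
    rw [hp] at h1
    exact absurd h1 (by rw [Nat.not_even_iff_odd]; exact ⟨k, rfl⟩)

/-- The inequality at a record. -/
theorem rec_le {x : ℕ → ℝ} {a : ℝ} (ha : 1 ≤ a) {n : ℕ} (hr : Rec x a n) (hx : 0 ≤ x n) {t : ℕ}
    (ht : t < n) : x (n - t) ≤ x n - t * (x n / n) := by
  have hn0 : (0 : ℝ) < n := by exact_mod_cast hr.1
  have hm0 : (0 : ℝ) < ((n - t : ℕ) : ℝ) := by exact_mod_cast (by omega : 0 < n - t)
  have h1 := hr.2 (n - t) (by omega) (by omega)
  have hna : (0 : ℝ) < (n : ℝ) ^ a := Real.rpow_pos_of_pos hn0 _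
  have hma : (0 : ℝ) < ((n - t : ℕ) : ℝ) ^ a := Real.rpow_pos_of_pos hm0 _
  rw [div_le_iff₀ hma] at h1
  have h2 : ((n - t : ℕ) : ℝ) ^ a / (n : ℝ) ^ a ≤ ((n - t : ℕ) : ℝ) / n := by
    rw [← Real.div_rpow hm0.le hn0.le]
    have h3 : ((n - t : ℕ) : ℝ) / n ≤ 1 := by
      rw [div_le_one hn0]
      exact_mod_cast Nat.sub_le _ _
    calc (((n - t : ℕ) : ℝ) / n) ^ a ≤ (((n - t : ℕ) : ℝ) / n) ^ (1 : ℝ) :=
          Real.rpow_le_rpow_of_exponent_ge (by positivity) h3 ha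
      _ = _ := Real.rpow_one _
  calc x (n - t) ≤ x n / (n : ℝ) ^ a * ((n - t : ℕ) : ℝ) ^ a := h1
    _ = x n * (((n - t : ℕ) : ℝ) ^ a / (n : ℝ) ^ a) := by ring
    _ ≤ x n * (((n - t : ℕ) : ℝ) / n) := mul_le_mul_of_nonneg_left h2 hx
    _ = x n - t * (x n / n) := by
        rw [Nat.cast_sub ht.le]
        field_simp

theorem rpow_large {k : ℕ} (hk : 1 ≤ k) (W : ℝ) :
    ∃ N₁ : ℕ, ∀ n : ℕ, N₁ ≤ n → 1 ≤ n ∧ W ≤ (n : ℝ) ^ (1 / (k : ℝ)) := by
  have hk0 : (0 : ℝ) < k := by exact_mod_cast hk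
  refine ⟨⌈(max W 1) ^ k⌉₊ + 1, fun n hn => ⟨by omega, ?_⟩⟩
  have h1 : (max W 1) ^ k ≤ (n : ℝ) := (Nat.le_ceil _).trans (by exact_mod_cast (by omega))
  have h0 : (0 : ℝ) ≤ max W 1 := le_trans zero_le_one (le_max_right _ _)
  calc W ≤ max W 1 := le_max_left _ _
    _ = ((max W 1) ^ k) ^ (1 / (k : ℝ)) := by
        rw [← Real.rpow_natCast, ← Real.rpow_mul h0]
        rw [mul_one_div_cancel hk0.ne', Real.rpow_one]
    _ ≤ _ := Real.rpow_le_rpow (by positivity) h1 (by positivity)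

/-- **Extremal graphs of girth greater than `2 k` at records are far from bipartite.** -/
theorem far {k : ℕ} (hk : 2 ≤ k) {c K a : ℝ} (hc : 0 < c) (hK : 0 < K) (ha : 1 ≤ a) :
    ∃ κ : ℝ, 0 < κ ∧ ∃ N₁ : ℕ, ∀ (n : ℕ) (G : SimpleGraph (Fin n)) [DecidableRel G.Adj], N₁ ≤ n →
      Gir k G → G.edgeSet.ncard = exP (fun {m} (H : SimpleGraph (Fin m)) => Gir k H) n →
      Rec (fun n => (exP (fun {m} (H : SimpleGraph (Fin m)) => Gir k H) n : ℝ)) a n →
      c * (n : ℝ) ^ (1 + 1 / (k : ℝ)) ≤ (exP (fun {m} (H : SimpleGraph (Fin m)) => Gir k H) n : ℝ) →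
      (∀ v, (G.degree v : ℝ) ≤ K * (n : ℝ) ^ (1 / (k : ℝ))) →
      ∀ B : SimpleGraph (Fin n), B ≤ G → B.Colorable 2 →
        B.edgeSet.ncard + κ * (n : ℝ) ^ (2 / (k : ℝ)) < G.edgeSet.ncard := by
  have hkpos : (0 : ℝ) < k := by exact_mod_cast (by omega : 0 < k)
  set c₄ : ℝ := (2 * k + 2) * (4 ^ k * (2 * K) ^ (k + 1)) with hc₄
  have hc₄0 : 0 < c₄ := by positivity
  set c₅ : ℝ := 2 * c₄ / c + 1 with hc₅
  have hc₅0 : 0 < c₅ := by positivity
  set κ₁ : ℝ := min (1 / 2) (c / (4 + 4 * c₅ + 8 * K)) with hκ₁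
  have hκ₁0 : 0 < κ₁ := lt_min (by norm_num) (by positivity)
  have hκ₁1 : κ₁ ≤ 1 / 2 := min_le_left _ _
  have hκ₁2 : κ₁ * (4 + 4 * c₅ + 8 * K) ≤ c := by
    have := min_le_right (1 / 2) (c / (4 + 4 * c₅ + 8 * K))
    rw [← hκ₁, le_div_iff₀ (by positivity)] at this
    exact this
  obtain ⟨N₁, hN₁⟩ := rpow_large (k := k) (by omega) (max (4 / c) (max (2 / κ₁) 1) + 1)
  refine ⟨c * κ₁ / 8, by positivity, N₁, ?_⟩
  intro n G _ hn hgir hGe hrec hX hdeg B hBG hB
  by_contra hcon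
  push Not at hcon
  obtain ⟨hn1, hw⟩ := hN₁ n hn
  set w : ℝ := (n : ℝ) ^ (1 / (k : ℝ)) with hwd
  have hn0 : (0 : ℝ) < n := by exact_mod_cast hn1
  have hn1' : (1 : ℝ) ≤ n := by exact_mod_cast hn1
  have hw1 : 4 / c < w := lt_of_lt_of_le (lt_of_le_of_lt (le_max_left _ _) (lt_add_one _)) hw
  have hw2 : 2 / κ₁ < w := lt_of_lt_of_le (lt_of_le_of_lt
    ((le_max_left _ _).trans (le_max_right _ _)) (lt_add_one _)) hw
  have hw3 : 1 < w := lt_of_lt_of_le (lt_of_le_of_lt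
    ((le_max_right _ _).trans (le_max_right _ _)) (lt_add_one _)) hw
  have hw0 : 0 < w := by linarith
  have hwn : w ≤ n := by
    calc w ≤ (n : ℝ) ^ (1 : ℝ) := by
          apply Real.rpow_le_rpow_of_exponent_le hn1'
          rw [div_le_one hkpos]
          exact_mod_cast (by omega : 1 ≤ k)
      _ = n := Real.rpow_one _
  have hpow1 : (n : ℝ) ^ (1 + 1 / (k : ℝ)) = n * w := by
    rw [Real.rpow_add hn0, Real.rpow_one]
  have hpow2 : (n : ℝ) ^ (2 / (k : ℝ)) = w * w := by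
    rw [hwd, ← Real.rpow_add hn0]
    congr 1
    ring
  have hwk : w ^ k = n := by
    rw [hwd, ← Real.rpow_natCast, ← Real.rpow_mul hn0.le, one_div_mul_cancel hkpos.ne',
      Real.rpow_one]
  rw [hpow1] at hX
  rw [hpow2] at hcon
  set X : ℝ := (exP (fun {m} (H : SimpleGraph (Fin m)) => Gir k H) n : ℝ) with hXd
  have hGe' : (G.edgeSet.ncard : ℝ) = X := by rw [hGe]
  have hX0 : 0 ≤ X := Nat.cast_nonneg _
  have hww : w * w ≤ n * w := mul_le_mul_of_nonneg_right hwn hw0.le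
  classical
  -- the number of contractions
  set t : ℕ := ⌊κ₁ * w⌋₊ with ht
  have ht1 : (t : ℝ) ≤ κ₁ * w := Nat.floor_le (by positivity)
  have ht2 : κ₁ * w < t + 1 := Nat.lt_floor_add_one _
  rw [div_lt_iff₀ hκ₁0] at hw2
  have hκw : 0 < κ₁ * w := mul_pos hκ₁0 hw0
  have hκw' : κ₁ * w ≤ 1 / 2 * w := mul_le_mul_of_nonneg_right hκ₁1 hw0.le
  have ht3 : κ₁ * w / 2 ≤ t := by linarith
  have ht4 : (1 : ℝ) ≤ t := by
    have : (0 : ℝ) < t := by linarith
    have h2 : 0 < t := by exact_mod_cast this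
    exact_mod_cast h2
  have htn : t < n := by
    have : (t : ℝ) < n := by linarith
    exact_mod_cast this
  set D : ℝ := K * w with hD
  have hD0 : 0 < D := by positivity
  have hdegB : ∀ v, (B.degree v : ℝ) ≤ D := by
    intro v
    refine le_trans ?_ (hdeg v)
    rw [← B.card_neighborFinset_eq_degree, ← G.card_neighborFinset_eq_degree]
    have h3 : B.neighborFinset v ⊆ G.neighborFinset v := by
      intro b hb
      rw [SimpleGraph.mem_neighborFinset] at hb ⊢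
      exact hBG hb
    exact_mod_cast card_le_card h3
  have hgB : Gir k B := by
    intro v p hp
    have h3 := hgir v (p.mapLe hBG) (hp.mapLe hBG)
    rwa [SimpleGraph.Walk.length_mapLe] at h3
  have hbase := base_St B hB hgB hD0.le hdegB
  have hBe := edges_eq B
  set e : ℝ := ar B univ univ with he
  have hκ : c * κ₁ / 8 ≤ c / 2 := by
    have := mul_le_mul_of_nonneg_left hκ₁1 hc.le
    linarith
  have hkw : c * κ₁ / 8 * (w * w) ≤ c / 2 * (n * w) :=
    mul_le_mul hκ hww (by positivity) (by positivity)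
  have he1 : c * (n * w) ≤ e := by linarith
  set s : ℝ := c₅ * t with hs
  have hs0 : 0 ≤ s := by positivity
  have hnw : 0 < (n : ℝ) * w := by positivity
  have hcC : (2 * k + 2) * (4 ^ k * (2 * D) ^ (k + 1)) = c₄ * (n * w) := by
    rw [hD, hc₄]
    have : (2 * (K * w)) ^ (k + 1) = (2 * K) ^ (k + 1) * (n * w) := by
      rw [← mul_assoc, mul_pow, pow_succ w k, hwk]
    rw [this]
    ring
  have hC : (t : ℝ) * ((2 * k + 2) * (4 ^ k * (2 * D) ^ (k + 1))) < s * (e / 2) := by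
    rw [hcC, hs]
    have h1 : c₅ * t * (c * (n * w) / 2) ≤ c₅ * t * (e / 2) := by
      apply mul_le_mul_of_nonneg_left _ (by positivity)
      linarith
    have h2 : c₅ * t * (c * (n * w) / 2) = t * (c₄ * (n * w)) + t * (c / 2 * (n * w)) := by
      rw [hc₅]
      field_simp
    have h3 : 0 < (t : ℝ) * (c / 2 * (n * w)) := by positivity
    linarith
  have hE : 2 * (t : ℝ) * (1 + s) + 4 * t * D ≤ e / 2 := by
    have h1 : s ≤ c₅ * w := by
      rw [hs]
      apply mul_le_mul_of_nonneg_left _ hc₅0.le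
      linarith
    have h2 : 1 + s ≤ (1 + c₅) * w := by linarith
    have h3 : 2 * (t : ℝ) * (1 + s) ≤ 2 * (κ₁ * w) * ((1 + c₅) * w) := by
      apply mul_le_mul _ h2 (by linarith) (by positivity)
      linarith
    have h4 : 4 * (t : ℝ) * D ≤ 4 * (κ₁ * w) * (K * w) := by
      apply mul_le_mul _ le_rfl hD0.le (by positivity)
      linarith
    have h5 : 2 * (κ₁ * w) * ((1 + c₅) * w) + 4 * (κ₁ * w) * (K * w) =
        κ₁ * (4 + 4 * c₅ + 8 * K) * (w * w) / 2 := by ring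
    have h6 : κ₁ * (4 + 4 * c₅ + 8 * K) * (w * w) ≤ c * (n * w) :=
      mul_le_mul hκ₁2 hww (by positivity) hc.le
    linarith
  obtain ⟨G', _, hG'⟩ := iterate_St hk hD0 B hbase hs0 hC hE t le_rfl
  have h1 := ex_after G' hG'
  have h2 := rec_le ha hrec hX0 htn
  have h3 : c * w ≤ X / n := by
    rw [le_div_iff₀ hn0]
    linarith
  have h4 : (t : ℝ) * (c * w) ≤ t * (X / n) := mul_le_mul_of_nonneg_left h3 (by linarith)
  have h5 : (exP (fun {m} (H : SimpleGraph (Fin m)) => Gir k H) (n - t) : ℝ) ≤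
    X - t * (X / n) := h2
  have h6 : (t : ℝ) * (c * w) ≤ c * κ₁ / 8 * (w * w) + t * (1 + s) := by linarith
  have h7 : s ≤ c * w / 4 := by
    have h8 : c₅ * κ₁ ≤ c / 4 := by
      have := mul_pos hκ₁0 hK
      linarith
    calc s ≤ c₅ * (κ₁ * w) := mul_le_mul_of_nonneg_left ht1 hc₅0.le
      _ = c₅ * κ₁ * w := by ring
      _ ≤ c / 4 * w := mul_le_mul_of_nonneg_right h8 hw0.le
      _ = _ := by ring
  have h8 : 1 ≤ c * w / 4 := by
    rw [div_lt_iff₀ hc] at hw1
    linarith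
  have h9 : (t : ℝ) * (1 + s) ≤ t * (c * w / 2) := by
    apply mul_le_mul_of_nonneg_left _ (by linarith)
    linarith
  have h10 : (t : ℝ) * (c * w / 2) ≤ c * κ₁ / 8 * (w * w) := by linarith
  have h11 : κ₁ * w / 2 * (c * w / 2) ≤ t * (c * w / 2) :=
    mul_le_mul_of_nonneg_right ht3 (by positivity)
  have h12 : 0 < c * κ₁ * (w * w) := by positivity
  linarith

/-- Every edge of an extremal graph of girth greater than `2 k` at a record is in a cycle of length
`2 k + 1`. -/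
theorem edge_cycle {k : ℕ} (hk : 2 ≤ k) {c a : ℝ} (hc : 0 < c) (ha : 1 ≤ a) :
    ∃ N₁ : ℕ, ∀ (n : ℕ) (G : SimpleGraph (Fin n)), N₁ ≤ n →
      Gir k G → G.edgeSet.ncard = exP (fun {m} (H : SimpleGraph (Fin m)) => Gir k H) n →
      Rec (fun n => (exP (fun {m} (H : SimpleGraph (Fin m)) => Gir k H) n : ℝ)) a n →
      c * (n : ℝ) ^ (1 + 1 / (k : ℝ)) ≤ (exP (fun {m} (H : SimpleGraph (Fin m)) => Gir k H) n : ℝ) →
      ∀ x y, G.Adj x y → ∃ q : G.Walk y x, q.IsPath ∧ q.length = 2 * k := by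
  obtain ⟨N₁, hN₁⟩ := rpow_large (k := k) (by omega) (1 / c + 1)
  refine ⟨N₁ + 2, ?_⟩
  intro n G hn hgir hGe hrec hX x y hxy
  by_contra hcon
  push Not at hcon
  classical
  obtain ⟨hn1, hw⟩ := hN₁ n (by omega)
  have hn0 : (0 : ℝ) < n := by exact_mod_cast hn1
  have hgM := merge_girth hgir hxy hcon
  have htri : ∀ z, ¬ (G.Adj x z ∧ G.Adj y z) := by
    rintro z ⟨h3, h4⟩
    obtain ⟨q, hq, hql⟩ := mono_cycle (G := G) (H := G) le_rfl (l := 3) le_rfl hxy
      (SimpleGraph.Walk.cons h3 (SimpleGraph.Walk.cons h4.symm SimpleGraph.Walk.nil)) (by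
        rw [SimpleGraph.Walk.cons_isPath_iff, SimpleGraph.Walk.cons_isPath_iff]
        refine ⟨⟨SimpleGraph.Walk.IsPath.nil, ?_⟩, ?_⟩
        · rw [SimpleGraph.Walk.support_nil, List.mem_singleton]
          exact h4.ne.symm
        · rw [SimpleGraph.Walk.support_cons, SimpleGraph.Walk.support_nil, List.mem_cons,
            List.mem_singleton]
          rintro (h | h)
          · exact h3.ne h
          · exact hxy.ne h) (by simp)
    have := hgir _ q hq
    omega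
  have hme := merge_edges G hxy htri
  obtain ⟨m, φ, hm, hφ⟩ := exists_emb (univ \ {y} : Finset (Fin n))
  have hmn : m = n - 1 := by
    rw [hm, card_sdiff_of_subset (subset_univ _), card_univ, Fintype.card_fin, card_singleton]
  subst hmn
  have h1 : Gir k ((merge G x y).comap φ) := cycle_comap (G := merge G x y) φ hgM
  have h2 := le_exP (P := fun {m} (H : SimpleGraph (Fin m)) => Gir k H) h1
  have h3 : 2 * (((merge G x y).comap φ).edgeSet.ncard : ℝ) =
      ar (merge G x y) (univ \ {y}) (univ \ {y}) := by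
    rw [← edges_eq, ar_comap, hφ]
  rw [hme, edges_eq, hGe] at h3
  have h5 : (((merge G x y).comap φ).edgeSet.ncard : ℝ) ≤
      (exP (fun {m} (H : SimpleGraph (Fin m)) => Gir k H) (n - 1) : ℝ) := by exact_mod_cast h2
  have h6 := rec_le ha hrec (Nat.cast_nonneg _) (t := 1) (by omega)
  set X : ℝ := (exP (fun {m} (H : SimpleGraph (Fin m)) => Gir k H) n : ℝ) with hXd
  have h7 : (exP (fun {m} (H : SimpleGraph (Fin m)) => Gir k H) (n - 1) : ℝ) ≤
    X - ((1 : ℕ) : ℝ) * (X / n) := h6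
  rw [Nat.cast_one, one_mul] at h7
  have h8 : X / n ≤ 1 := by linarith
  rw [div_le_one hn0] at h8
  rw [Real.rpow_add hn0, Real.rpow_one] at hX
  set w : ℝ := (n : ℝ) ^ (1 / (k : ℝ)) with hwd
  have h9 : 1 < c * w := by
    have : 1 / c < w := by linarith
    rw [div_lt_iff₀ hc] at this
    linarith
  have h10 : (n : ℝ) * 1 < n * (c * w) := mul_lt_mul_of_pos_left h9 hn0
  linarith

end Pool.Agent.J4.H75.EC
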