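import Pool.Agent.J4.H75.EC.Far2

/-!
# The gap between the extremal numbers for girth `2 k + 1` and `2 k + 2`
-/

set_option autoImplicit false
set_option linter.unusedSectionVars false

open Finset

namespace Pool.Agent.J4.H75.EC

open Pool.Agent.J4.H75.GE Pool.Agent.J4.H75.GF Pool.TH815.GR

/-- A graph of girth greater than `M` has no closed walks of odd length at most `M`. -/
theorem odd_closed {V : Type} {G : SimpleGraph V} {M : ℕ}
    (hg : ∀ (v : V) (p : G.Walk v v), p.IsCycle → M < p.length) :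
    ∀ l, l ≤ M → Odd l → ∀ (x : V) (p : G.Walk x x), p.length ≠ l := by
  intro l
  induction l using Nat.strong_induction_on with
  | _ l ih =>
    intro hl hodd x p hpl
    cases p with
    | nil =>
      rw [SimpleGraph.Walk.length_nil] at hpl
      rw [← hpl] at hodd
      exact absurd hodd (by decide)
    | @cons _ y _ h p' =>
      rw [SimpleGraph.Walk.length_cons] at hpl
      by_cases hp' : p'.IsPath
      · by_cases h2 : 2 ≤ p'.length
        · have hc : (SimpleGraph.Walk.cons h p').IsCycle := by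
            rw [SimpleGraph.Walk.cons_isCycle_iff]
            exact ⟨hp', end_edge _ hp' h2⟩
          have := hg _ _ hc
          rw [SimpleGraph.Walk.length_cons] at this
          omega
        · obtain ⟨j, hj⟩ := hodd
          have h0 : p'.length = 0 := by omega
          exact h.ne (SimpleGraph.Walk.eq_of_length_eq_zero h0).symm
      · obtain ⟨z, q, r, s, h1, rfl⟩ := not_path_decomp p' hp'
        rw [SimpleGraph.Walk.length_append, SimpleGraph.Walk.length_append] at hpl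
        rcases Nat.even_or_odd r.length with he | ho
        · have h3 : (SimpleGraph.Walk.cons h (q.append s)).length = 1 + q.length + s.length := by
            rw [SimpleGraph.Walk.length_cons, SimpleGraph.Walk.length_append]
            ring
          refine ih (1 + q.length + s.length) (by omega) (by omega) ?_ x
            (SimpleGraph.Walk.cons h (q.append s)) h3
          obtain ⟨j, hj⟩ := hodd
          obtain ⟨i, hi⟩ := he
          exact ⟨j - i, by omega⟩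
        · exact ih r.length (by omega) (by omega) ho z r rfl

theorem base_St' {n k : ℕ} {D : ℝ} (B : SimpleGraph (Fin n)) [DecidableRel B.Adj]
    (hg : ∀ (v : Fin n) (p : B.Walk v v), p.IsCycle → 2 * k + 1 < p.length) (hD : 0 ≤ D)
    (hdeg : ∀ v, (B.degree v : ℝ) ≤ D) : St k D 0 (ar B univ univ) 0 B := by
  refine ⟨fun v p hp => by have := hg v p hp; omega, ⟨∅, rfl, by simp⟩,
    ⟨∅, by simp, fun v _ => hdeg v⟩, fun v => ?_, ?_, le_rfl⟩
  · have := hdeg v
    linarith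
  · unfold cw
    apply le_of_eq
    refine sum_eq_zero fun x _ => ?_
    unfold N
    rw [Nat.cast_eq_zero, card_eq_zero, eq_empty_iff_forall_notMem]
    intro p hp
    rw [SimpleGraph.mem_finsetWalkLength_iff] at hp
    exact odd_closed hg (2 * k + 1) le_rfl ⟨k, rfl⟩ x p hp

/-- The number of edges outside of `T`. -/
theorem ar_compl' {V : Type} [Fintype V] [DecidableEq V] (G : SimpleGraph V) [DecidableRel G.Adj]
    {T : Finset V} {D : ℝ} (hD : ∀ v ∈ T, (G.degree v : ℝ) ≤ D) :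
    ar G univ univ - 2 * (T.card * D) ≤ ar G (univ \ T) (univ \ T) := by
  have h1 := ar_split G (subset_univ T)
  have h2 : ar G T T + ar G T (univ \ T) ≤ T.card * D := by
    have h3 : ar G T T + ar G T (univ \ T) = ar G T univ := by
      rw [← ar_union_right G disjoint_sdiff, union_sdiff_of_subset (subset_univ T)]
    rw [h3, ar_eq_sum_card, ← nsmul_eq_mul, ← sum_const]
    refine sum_le_sum fun v hv => ?_
    rw [deg_eq]
    exact hD v hv
  have h3 : 0 ≤ ar G T T := ar_nonneg G T T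
  linarith

/-- The degrees of an induced subgraph. -/
theorem degree_comap_ge {V W : Type} [Fintype V] [DecidableEq V] [Fintype W] [DecidableEq W]
    (G : SimpleGraph V) [DecidableRel G.Adj] (φ : W ↪ V) {R : Finset V}
    (hφ : (univ : Finset W).map φ = univ \ R) (a : W) :
    (G.degree (φ a) : ℝ) ≤ (G.comap φ).degree a + R.card := by
  have h1 : G.neighborFinset (φ a) ⊆ ((G.comap φ).neighborFinset a).map φ ∪ R := by
    intro b hb
    rw [SimpleGraph.mem_neighborFinset] at hb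
    rw [mem_union]
    by_cases hbR : b ∈ R
    · exact Or.inr hbR
    · left
      have h2 : b ∈ (univ : Finset W).map φ := by
        rw [hφ, mem_sdiff]
        exact ⟨mem_univ b, hbR⟩
      rw [mem_map] at h2 ⊢
      obtain ⟨c, -, rfl⟩ := h2
      exact ⟨c, by rw [SimpleGraph.mem_neighborFinset]; exact hb, rfl⟩
  have h2 := (card_le_card h1).trans (card_union_le _ _)
  rw [card_map, SimpleGraph.card_neighborFinset_eq_degree,
    SimpleGraph.card_neighborFinset_eq_degree] at h2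
  exact_mod_cast h2

/-- Upper bound for the degrees. -/
theorem max_deg_bound {m k : ℕ} (hk : 1 ≤ k) {w c n : ℝ} (hc : 0 < c) (hw : 0 < w)
    (hcw : 16 ≤ c * w) (H : SimpleGraph (Fin m)) [DecidableRel H.Adj] (hg : Gir k H)
    (hdeg : ∀ v, c * w / 4 ≤ (H.degree v : ℝ)) (hn : w ^ k = n) (hm : (m : ℝ) ≤ n)
    (v : Fin m) : (H.degree v : ℝ) ≤ (16 / c) ^ (k - 1) * w + 1 := by
  set d : ℕ := ⌊c * w / 8⌋₊ with hd
  have hd1 : (d : ℝ) ≤ c * w / 8 := Nat.floor_le (by positivity)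
  have hd2 : c * w / 8 < d + 1 := Nat.lt_floor_add_one _
  have hd3 : c * w / 16 ≤ d := by linarith
  have h1 : ∀ x, d + 1 ≤ H.degree x := by
    intro x
    have : ((d + 1 : ℕ) : ℝ) ≤ (H.degree x : ℝ) := by
      push_cast
      have := hdeg x
      linarith
    exact_mod_cast this
  have h2 := max_degree H hk hg h1 v
  rw [Fintype.card_fin] at h2
  have h3 : ((H.degree v : ℝ) - 1) * (c * w / 16) ^ (k - 1) ≤ n := by
    have h4 : 1 ≤ H.degree v := by
      have := h1 v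
      omega
    have h5 : (((H.degree v - 1 : ℕ) : ℝ)) * (d : ℝ) ^ (k - 1) ≤ m := by exact_mod_cast h2
    rw [Nat.cast_sub h4, Nat.cast_one] at h5
    have h6 : (0 : ℝ) ≤ (H.degree v : ℝ) - 1 := by
      have : (1 : ℝ) ≤ H.degree v := by exact_mod_cast h4
      linarith
    calc ((H.degree v : ℝ) - 1) * (c * w / 16) ^ (k - 1)
        ≤ ((H.degree v : ℝ) - 1) * (d : ℝ) ^ (k - 1) :=
          mul_le_mul_of_nonneg_left (pow_le_pow_left₀ (by positivity) hd3 _) h6
      _ ≤ _ := h5.trans hm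
  have h4 : n = (16 / c) ^ (k - 1) * w * (c * w / 16) ^ (k - 1) := by
    have h5 : (16 / c) ^ (k - 1) * w * (c * w / 16) ^ (k - 1) =
        w * ((16 / c) * (c * w / 16)) ^ (k - 1) := by
      rw [mul_pow (16 / c)]
      ring
    have h6 : 16 / c * (c * w / 16) = w := by field_simp
    rw [h5, h6, ← hn]
    obtain ⟨j, rfl⟩ : ∃ j, k = j + 1 := ⟨k - 1, by omega⟩
    rw [Nat.add_sub_cancel, pow_succ]
    ring
  rw [h4] at h3
  have h5 : (H.degree v : ℝ) - 1 ≤ (16 / c) ^ (k - 1) * w :=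
    le_of_mul_le_mul_right h3 (by positivity)
  linarith

/-- The contractions. -/
theorem core {k : ℕ} (hk : 2 ≤ k) {c K a : ℝ} (hc : 0 < c) (hK : 0 < K) (ha : 1 ≤ a) :
    ∃ κ₁ : ℝ, 0 < κ₁ ∧ κ₁ ≤ 1 / 2 ∧ κ₁ ≤ c / 4 ∧ ∃ N₁ : ℕ, ∀ n : ℕ, N₁ ≤ n →
      Rec (fun n => (exP (fun {m} (H : SimpleGraph (Fin m)) => Gir k H) n : ℝ)) a n →
      c * (n * (n : ℝ) ^ (1 / (k : ℝ))) ≤
        (exP (fun {m} (H : SimpleGraph (Fin m)) => Gir k H) n : ℝ) →
      ∀ r m : ℕ, m + r = n → (r : ℝ) ≤ κ₁ * (n : ℝ) ^ (1 / (k : ℝ)) / 4 →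
      ∀ (H : SimpleGraph (Fin m)) [DecidableRel H.Adj],
        (∀ (v : Fin m) (p : H.Walk v v), p.IsCycle → 2 * k + 1 < p.length) →
        (∀ v, (H.degree v : ℝ) ≤ K * (n : ℝ) ^ (1 / (k : ℝ))) →
        H.edgeSet.ncard + r * (c * (n : ℝ) ^ (1 / (k : ℝ)) / 2) +
          c * κ₁ / 8 * ((n : ℝ) ^ (1 / (k : ℝ)) * (n : ℝ) ^ (1 / (k : ℝ))) <
          (exP (fun {m} (H : SimpleGraph (Fin m)) => Gir k H) n : ℝ) := by
  have hkpos : (0 : ℝ) < k := by exact_mod_cast (by omega : 0 < k)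
  set c₄ : ℝ := (2 * k + 2) * (4 ^ k * (2 * K) ^ (k + 1)) with hc₄
  have hc₄0 : 0 < c₄ := by positivity
  set c₅ : ℝ := 2 * c₄ / c + 1 with hc₅
  have hc₅0 : 0 < c₅ := by positivity
  set κ₁ : ℝ := min (1 / 2) (c / (4 + 4 * c₅ + 8 * K)) with hκ₁
  have hκ₁0 : 0 < κ₁ := lt_min (by norm_num) (by positivity)
  have hκ₁1 : κ₁ ≤ 1 / 2 := min_le_left _ _
  have hκ₁2 : κ₁ * (4 + 4 * c₅ + 8 * K) ≤ c := by
    have := min_le_right (1 / 2) (c / (4 + 4 * c₅ + 8 * K))
    rw [← hκ₁, le_div_iff₀ (by positivity)] at this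
    exact this
  have hκ₁c₅ : 0 < κ₁ * c₅ := mul_pos hκ₁0 hc₅0
  have hκ₁K : 0 < κ₁ * K := mul_pos hκ₁0 hK
  have hκ₁4 : κ₁ ≤ c / 4 := by linarith
  have hκ₁5 : c₅ * κ₁ ≤ c / 4 := by linarith
  clear_value c₄ κ₁
  obtain ⟨N₁, hN₁⟩ := rpow_large (k := k) (by omega) (max (4 / c) (max (2 / κ₁) 1) + 1)
  refine ⟨κ₁, hκ₁0, hκ₁1, hκ₁4, N₁, ?_⟩
  intro n hn hrec hX r m hmr hr H _ hgH hdegu
  by_contra hcon
  push Not at hcon
  obtain ⟨hn1, hw⟩ := hN₁ n hn
  have hwn : (n : ℝ) ^ (1 / (k : ℝ)) ≤ n := by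
    calc (n : ℝ) ^ (1 / (k : ℝ)) ≤ (n : ℝ) ^ (1 : ℝ) := by
          apply Real.rpow_le_rpow_of_exponent_le (by exact_mod_cast hn1)
          rw [div_le_one hkpos]
          exact_mod_cast (by omega : 1 ≤ k)
      _ = n := Real.rpow_one _
  have hn0 : (0 : ℝ) < n := by exact_mod_cast hn1
  have hwk : ((n : ℝ) ^ (1 / (k : ℝ))) ^ k = n := by
    rw [← Real.rpow_natCast, ← Real.rpow_mul hn0.le, one_div_mul_cancel hkpos.ne', Real.rpow_one]
  set w : ℝ := (n : ℝ) ^ (1 / (k : ℝ)) with hwd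
  clear_value w
  have hw1 : 4 / c < w := lt_of_lt_of_le (lt_of_le_of_lt (le_max_left _ _) (lt_add_one _)) hw
  have hw2 : 2 / κ₁ < w := lt_of_lt_of_le (lt_of_le_of_lt
    ((le_max_left _ _).trans (le_max_right _ _)) (lt_add_one _)) hw
  have hw3 : 1 < w := lt_of_lt_of_le (lt_of_le_of_lt
    ((le_max_right _ _).trans (le_max_right _ _)) (lt_add_one _)) hw
  have hw0 : 0 < w := by linarith
  have hX0 : 0 ≤ (exP (fun {m} (H : SimpleGraph (Fin m)) => Gir k H) n : ℝ) := Nat.cast_nonneg _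
  have hww : w * w ≤ n * w := mul_le_mul_of_nonneg_right hwn hw0.le
  have hww0 : 0 < w * w := mul_pos hw0 hw0
  have hnw : 0 < (n : ℝ) * w := mul_pos hn0 hw0
  rw [div_lt_iff₀ hc] at hw1
  rw [div_lt_iff₀ hκ₁0] at hw2
  have hcw0 : 0 < c * w := mul_pos hc hw0
  have hκw' : κ₁ * w ≤ 1 / 2 * w := mul_le_mul_of_nonneg_right hκ₁1 hw0.le
  have hκw0 : 0 < κ₁ * w := mul_pos hκ₁0 hw0
  have hr0 : (0 : ℝ) ≤ r := Nat.cast_nonneg _
  -- the number of contractions
  obtain ⟨t, ht1, ht2⟩ : ∃ t : ℕ, (t : ℝ) ≤ κ₁ * w ∧ κ₁ * w < t + 1 :=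
    ⟨⌊κ₁ * w⌋₊, Nat.floor_le hκw0.le, Nat.lt_floor_add_one _⟩
  have ht3 : κ₁ * w / 2 ≤ t := by linarith
  have ht0 : (0 : ℝ) < t := by linarith
  have ht4 : (1 : ℝ) ≤ t := by
    have h2 : 0 < t := by exact_mod_cast ht0
    exact_mod_cast h2
  have htn : r + t < n := by
    have : ((r + t : ℕ) : ℝ) < n := by
      push_cast
      linarith
    exact_mod_cast this
  have hD0 : 0 < K * w := mul_pos hK hw0
  have hbase := base_St' (k := k) H hgH hD0.le hdegu
  have hee := edges_eq H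
  have hcn : c * κ₁ / 8 * (w * w) ≤ c / 16 * (n * w) := by
    have h2 : c * κ₁ / 8 ≤ c / 16 := by
      have := mul_le_mul_of_nonneg_left hκ₁1 hc.le
      linarith
    exact mul_le_mul h2 hww hww0.le (by positivity)
  have hrc : (r : ℝ) * (c * w / 2) ≤ c / 16 * (n * w) := by
    have h2 : (r : ℝ) * (c * w / 2) ≤ κ₁ * w / 4 * (c * w / 2) :=
      mul_le_mul_of_nonneg_right hr (by positivity)
    have h3 : κ₁ * w / 4 * (c * w / 2) = c * κ₁ / 8 * (w * w) := by ring
    linarith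
  have he1 : c * (n * w) ≤ ar H univ univ := by linarith
  have hcC : (2 * k + 2) * (4 ^ k * (2 * (K * w)) ^ (k + 1)) = c₄ * (n * w) := by
    rw [hc₄]
    have : (2 * (K * w)) ^ (k + 1) = (2 * K) ^ (k + 1) * (n * w) := by
      rw [← mul_assoc, mul_pow, pow_succ w k, hwk]
    rw [this]
    ring
  have hC : (t : ℝ) * ((2 * k + 2) * (4 ^ k * (2 * (K * w)) ^ (k + 1))) <
      c₅ * t * (ar H univ univ / 2) := by
    rw [hcC]
    have h1 : c₅ * t * (c * (n * w) / 2) ≤ c₅ * t * (ar H univ univ / 2) := by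
      apply mul_le_mul_of_nonneg_left _ (by positivity)
      linarith
    have h2 : c₅ * t * (c * (n * w) / 2) = t * (c₄ * (n * w)) + t * (c / 2 * (n * w)) := by
      rw [hc₅]
      field_simp
    have h3 : 0 < (t : ℝ) * (c / 2 * (n * w)) := by positivity
    linarith
  clear_value c₅
  have hs0 : 0 ≤ c₅ * t := by positivity
  have hs1 : c₅ * t ≤ c₅ * w := by
    apply mul_le_mul_of_nonneg_left _ hc₅0.le
    linarith
  have hE : 2 * (t : ℝ) * (1 + c₅ * t) + 4 * t * (K * w) ≤ ar H univ univ / 2 := by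
    have h2 : 1 + c₅ * t ≤ (1 + c₅) * w := by linarith
    have h3 : 2 * (t : ℝ) * (1 + c₅ * t) ≤ 2 * (κ₁ * w) * ((1 + c₅) * w) := by
      apply mul_le_mul _ h2 (by linarith) (by positivity)
      linarith
    have h4 : 4 * (t : ℝ) * (K * w) ≤ 4 * (κ₁ * w) * (K * w) := by
      apply mul_le_mul _ le_rfl hD0.le (by positivity)
      linarith
    have h5 : 2 * (κ₁ * w) * ((1 + c₅) * w) + 4 * (κ₁ * w) * (K * w) =
        κ₁ * (4 + 4 * c₅ + 8 * K) * (w * w) / 2 := by ring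
    have h6 : κ₁ * (4 + 4 * c₅ + 8 * K) * (w * w) ≤ c * (n * w) :=
      mul_le_mul hκ₁2 hww hww0.le hc.le
    linarith
  obtain ⟨G', _, hG'⟩ := iterate_St hk hD0 H hbase hs0 hC hE t le_rfl
  have h2 := ex_after G' hG'
  have h3 : (exP (fun {m} (H : SimpleGraph (Fin m)) => Gir k H) (n - (r + t)) : ℝ) ≤
    (exP (fun {m} (H : SimpleGraph (Fin m)) => Gir k H) n : ℝ) - ((r + t : ℕ) : ℝ) *
      ((exP (fun {m} (H : SimpleGraph (Fin m)) => Gir k H) n : ℝ) / n) := rec_le ha hrec hX0 htn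
  have hidx : m - t = n - (r + t) := by omega
  rw [hidx] at h2
  generalize (exP (fun {m} (H : SimpleGraph (Fin m)) => Gir k H) n : ℝ) = X at *
  generalize (exP (fun {m} (H : SimpleGraph (Fin m)) => Gir k H) (n - (r + t)) : ℝ) = Y at *
  have hXn : c * w ≤ X / n := by
    rw [le_div_iff₀ hn0]
    linarith
  push_cast at h3
  have h4 : ((r : ℝ) + t) * (c * w) ≤ (r + t) * (X / n) :=
    mul_le_mul_of_nonneg_left hXn (by linarith)
  have hRcw : 0 ≤ (r : ℝ) * (c * w) := mul_nonneg hr0 hcw0.le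
  have h6 : (t : ℝ) * (c * w) ≤ c * κ₁ / 8 * (w * w) + t * (1 + c₅ * t) := by linarith
  have h7 : c₅ * t ≤ c * w / 4 := by
    calc c₅ * t ≤ c₅ * (κ₁ * w) := mul_le_mul_of_nonneg_left ht1 hc₅0.le
      _ = c₅ * κ₁ * w := by ring
      _ ≤ c / 4 * w := mul_le_mul_of_nonneg_right hκ₁5 hw0.le
      _ = _ := by ring
  have h8 : 1 ≤ c * w / 4 := by linarith
  have h9 : (t : ℝ) * (1 + c₅ * t) ≤ t * (c * w / 2) := by
    apply mul_le_mul_of_nonneg_left _ (by linarith)
    linarith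
  have h10 : (t : ℝ) * (c * w / 2) ≤ c * κ₁ / 8 * (w * w) := by linarith
  have h11 : κ₁ * w / 2 * (c * w / 2) ≤ t * (c * w / 2) :=
    mul_le_mul_of_nonneg_right ht3 (by positivity)
  have h12 : 0 < c * κ₁ * (w * w) := by positivity
  linarith

/-- **The gap at records.** -/
theorem gap {k : ℕ} (hk : 2 ≤ k) {c a : ℝ} (hc : 0 < c) (ha : 1 ≤ a) :
    ∃ κ : ℝ, 0 < κ ∧ ∃ N₁ : ℕ, ∀ n : ℕ, N₁ ≤ n →
      Rec (fun n => (exP (fun {m} (H : SimpleGraph (Fin m)) => Gir k H) n : ℝ)) a n →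
      c * (n : ℝ) ^ (1 + 1 / (k : ℝ)) ≤ (exP (fun {m} (H : SimpleGraph (Fin m)) => Gir k H) n : ℝ) →
      ∀ B : SimpleGraph (Fin n), (∀ (v : Fin n) (p : B.Walk v v), p.IsCycle → 2 * k + 1 < p.length) →
        B.edgeSet.ncard + κ * (n : ℝ) ^ (2 / (k : ℝ)) <
          (exP (fun {m} (H : SimpleGraph (Fin m)) => Gir k H) n : ℝ) := by
  have hkpos : (0 : ℝ) < k := by exact_mod_cast (by omega : 0 < k)
  obtain ⟨κ₁, hκ₁0, hκ₁1, hκ₁4, N₂, hN₂⟩ := core hk (c := c) (K := (16 / c) ^ (k - 1) + 1) (a := a)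
    hc (by positivity) ha
  obtain ⟨N₁, hN₁⟩ := rpow_large (k := k) (by omega) (max (16 / c) 1 + 1)
  refine ⟨c * κ₁ / 8, by positivity, N₁ + N₂, ?_⟩
  intro n hn hrec hX B hgB
  by_contra hcon
  push Not at hcon
  obtain ⟨hn1, hw⟩ := hN₁ n (by omega)
  have hcore := hN₂ n (by omega) hrec
  have hn0 : (0 : ℝ) < n := by exact_mod_cast hn1
  have hwn : (n : ℝ) ^ (1 / (k : ℝ)) ≤ n := by
    calc (n : ℝ) ^ (1 / (k : ℝ)) ≤ (n : ℝ) ^ (1 : ℝ) := by
          apply Real.rpow_le_rpow_of_exponent_le (by exact_mod_cast hn1)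
          rw [div_le_one hkpos]
          exact_mod_cast (by omega : 1 ≤ k)
      _ = n := Real.rpow_one _
  have hpow1 : (n : ℝ) ^ (1 + 1 / (k : ℝ)) = n * (n : ℝ) ^ (1 / (k : ℝ)) := by
    rw [Real.rpow_add hn0, Real.rpow_one]
  have hpow2 : (n : ℝ) ^ (2 / (k : ℝ)) = (n : ℝ) ^ (1 / (k : ℝ)) * (n : ℝ) ^ (1 / (k : ℝ)) := by
    rw [← Real.rpow_add hn0]
    congr 1
    ring
  have hwk : ((n : ℝ) ^ (1 / (k : ℝ))) ^ k = n := by
    rw [← Real.rpow_natCast, ← Real.rpow_mul hn0.le, one_div_mul_cancel hkpos.ne', Real.rpow_one]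
  rw [hpow1] at hX
  rw [hpow2] at hcon
  set w : ℝ := (n : ℝ) ^ (1 / (k : ℝ)) with hwd
  clear_value w
  have hw1 : 16 / c < w := lt_of_lt_of_le (lt_of_le_of_lt (le_max_left _ _) (lt_add_one _)) hw
  have hw3 : 1 < w := lt_of_lt_of_le (lt_of_le_of_lt (le_max_right _ _) (lt_add_one _)) hw
  have hw0 : 0 < w := by linarith
  have hX0 : 0 ≤ (exP (fun {m} (H : SimpleGraph (Fin m)) => Gir k H) n : ℝ) := Nat.cast_nonneg _
  have hww : w * w ≤ n * w := mul_le_mul_of_nonneg_right hwn hw0.le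
  have hww0 : 0 < w * w := mul_pos hw0 hw0
  have hnw : 0 < (n : ℝ) * w := mul_pos hn0 hw0
  have hcnw : 0 < c * (n * w) := mul_pos hc hnw
  rw [div_lt_iff₀ hc] at hw1
  have hXn : c * w ≤ (exP (fun {m} (H : SimpleGraph (Fin m)) => Gir k H) n : ℝ) / n := by
    rw [le_div_iff₀ hn0]
    linarith
  classical
  -- the vertices of small degree
  set R : Finset (Fin n) := univ.filter fun v => (B.degree v : ℝ) < c * w / 2 with hR
  have hRmem : ∀ v, v ∈ R ↔ (B.degree v : ℝ) < c * w / 2 := by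
    intro v
    rw [hR, mem_filter]
    exact ⟨fun h => h.2, fun h => ⟨mem_univ v, h⟩⟩
  clear_value R
  have h1 := ar_compl' B (T := R) (D := c * w / 2) (fun v hv => ((hRmem v).1 hv).le)
  have hBe := edges_eq B
  have hκw : c * κ₁ / 8 * (w * w) ≤ c / 16 * (n * w) := by
    have h2 : c * κ₁ / 8 ≤ c / 16 := by
      have := mul_le_mul_of_nonneg_left hκ₁1 hc.le
      linarith
    exact mul_le_mul h2 hww hww0.le (by positivity)
  have hRn : R.card < n := by
    by_contra hcon2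
    push Not at hcon2
    have h2 : R.card ≤ n := (card_le_univ R).trans (by rw [Fintype.card_fin])
    have h5 : R.card = n := le_antisymm h2 hcon2
    have h3 : (R.card : ℝ) = n := by rw [h5]
    have h4 : R = univ := by
      rw [← card_eq_iff_eq_univ, Fintype.card_fin]
      exact h5
    rw [h3, h4, Finset.sdiff_self, ar_empty, hBe] at h1
    linarith
  have hR0 : (0 : ℝ) ≤ R.card := Nat.cast_nonneg _
  obtain ⟨m, φ, hm, hφ⟩ := exists_emb (univ \ R : Finset (Fin n))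
  have hmn : m = n - R.card := by
    rw [hm, card_sdiff_of_subset (subset_univ _), card_univ, Fintype.card_fin]
  have hgH : ∀ (v : Fin m) (p : (B.comap φ).Walk v v), p.IsCycle → 2 * k + 1 < p.length :=
    cycle_comap (G := B) φ hgB
  have hgH' : Gir k (B.comap φ) := fun v p hp => by
    have := hgH v p hp
    omega
  have hHe : 2 * ((B.comap φ).edgeSet.ncard : ℝ) = ar B (univ \ R) (univ \ R) := by
    rw [← edges_eq, ar_comap, hφ]
  rw [← hHe, hBe] at h1
  have hHx : ((B.comap φ).edgeSet.ncard : ℝ) ≤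
      (exP (fun {m} (H : SimpleGraph (Fin m)) => Gir k H) m : ℝ) := by
    exact_mod_cast le_exP (P := fun {m} (H : SimpleGraph (Fin m)) => Gir k H) hgH'
  have h2 : (exP (fun {m} (H : SimpleGraph (Fin m)) => Gir k H) (n - R.card) : ℝ) ≤
      (exP (fun {m} (H : SimpleGraph (Fin m)) => Gir k H) n : ℝ) - R.card *
      ((exP (fun {m} (H : SimpleGraph (Fin m)) => Gir k H) n : ℝ) / n) := rec_le ha hrec hX0 hRn
  rw [← hmn] at h2
  have hR1 : (R.card : ℝ) * (c * w) ≤ 2 * (c * κ₁ / 8 * (w * w)) := by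
    have h3 := mul_le_mul_of_nonneg_left hXn hR0
    linarith
  have hR2 : (R.card : ℝ) ≤ κ₁ * w / 4 := by
    have h2 : (R.card : ℝ) * (c * w) ≤ κ₁ * w / 4 * (c * w) := by
      refine hR1.trans (le_of_eq ?_)
      ring
    exact le_of_mul_le_mul_right h2 (by positivity)
  have hκ₁w : κ₁ * w ≤ c / 4 * w := mul_le_mul_of_nonneg_right hκ₁4 hw0.le
  have hcw0 : 0 < c * w := mul_pos hc hw0
  have hdegl : ∀ v, c * w / 4 ≤ ((B.comap φ).degree v : ℝ) := by
    intro v
    have h2 := degree_comap_ge B φ hφ v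
    have h3 : φ v ∉ R := by
      have : φ v ∈ (univ : Finset (Fin m)).map φ := mem_map_of_mem φ (mem_univ v)
      rw [hφ, mem_sdiff] at this
      exact this.2
    rw [hRmem, not_lt] at h3
    linarith
  have hmn' : (m : ℝ) ≤ n := by
    rw [hmn]
    exact_mod_cast Nat.sub_le _ _
  have hdegu : ∀ v, ((B.comap φ).degree v : ℝ) ≤ ((16 / c) ^ (k - 1) + 1) * w := by
    intro v
    have h2 := max_deg_bound (k := k) (by omega) hc hw0 (by linarith) (B.comap φ) hgH' hdegl hwk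
      hmn' v
    have h3 : ((16 / c) ^ (k - 1) + 1) * w = (16 / c) ^ (k - 1) * w + w := by ring
    linarith
  have h3 := hcore hX R.card m (by omega) hR2 (B.comap φ) hgH hdegu
  linarith

end Pool.Agent.J4.H75.EC
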