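import Pool.Agent.J4.H75.EC.Far3

/-!
# Many cycles of length `2 k + 1` through every edge
-/

set_option autoImplicit false
set_option linter.unusedSectionVars false

open Finset

namespace Pool.Agent.J4.H75.EC

open Pool.Agent.J4.H75.GE Pool.Agent.J4.H75.GF Pool.TH815.GR

/-- At a record many edges must be deleted to destroy the cycles of length `2 k + 1` through a given
edge. -/
theorem edge_robust {k : ℕ} (hk : 2 ≤ k) {c a : ℝ} (hc : 0 < c) (ha : 1 ≤ a) :
    ∃ N₁ : ℕ, ∀ n : ℕ, N₁ ≤ n →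
      Rec (fun n => (exP (fun {m} (H : SimpleGraph (Fin m)) => Gir k H) n : ℝ)) a n →
      c * (n : ℝ) ^ (1 + 1 / (k : ℝ)) ≤ (exP (fun {m} (H : SimpleGraph (Fin m)) => Gir k H) n : ℝ) →
      ∀ (H : SimpleGraph (Fin n)) (x y : Fin n), Gir k H → H.Adj x y →
        (∀ q : H.Walk y x, q.IsPath → q.length ≠ 2 * k) →
        H.edgeSet.ncard + c / 2 * (n : ℝ) ^ (1 / (k : ℝ)) <
          (exP (fun {m} (H : SimpleGraph (Fin m)) => Gir k H) n : ℝ) := by
  obtain ⟨N₁, hN₁⟩ := rpow_large (k := k) (by omega) (2 / c + 1)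
  refine ⟨N₁ + 2, ?_⟩
  intro n hn hrec hX H x y hgir hxy hcon
  classical
  obtain ⟨hn1, hw⟩ := hN₁ n (by omega)
  have hn0 : (0 : ℝ) < n := by exact_mod_cast hn1
  have hgM := merge_girth hgir hxy hcon
  have htri : ∀ z, ¬ (H.Adj x z ∧ H.Adj y z) := by
    rintro z ⟨h3, h4⟩
    obtain ⟨q, hq, hql⟩ := mono_cycle (G := H) (H := H) le_rfl (l := 3) le_rfl hxy
      (SimpleGraph.Walk.cons h3 (SimpleGraph.Walk.cons h4.symm SimpleGraph.Walk.nil)) (by
        rw [SimpleGraph.Walk.cons_isPath_iff, SimpleGraph.Walk.cons_isPath_iff]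
        refine ⟨⟨SimpleGraph.Walk.IsPath.nil, ?_⟩, ?_⟩
        · rw [SimpleGraph.Walk.support_nil, List.mem_singleton]
          exact h4.ne.symm
        · rw [SimpleGraph.Walk.support_cons, SimpleGraph.Walk.support_nil, List.mem_cons,
            List.mem_singleton]
          rintro (h | h)
          · exact h3.ne h
          · exact hxy.ne h) (by simp)
    have := hgir _ q hq
    omega
  have hme := merge_edges H hxy htri
  obtain ⟨m, φ, hm, hφ⟩ := exists_emb (univ \ {y} : Finset (Fin n))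
  have hmn : m = n - 1 := by
    rw [hm, card_sdiff_of_subset (subset_univ _), card_univ, Fintype.card_fin, card_singleton]
  subst hmn
  have h1 : Gir k ((merge H x y).comap φ) := cycle_comap (G := merge H x y) φ hgM
  have h2 := le_exP (P := fun {m} (H : SimpleGraph (Fin m)) => Gir k H) h1
  have h3 : 2 * (((merge H x y).comap φ).edgeSet.ncard : ℝ) =
      ar (merge H x y) (univ \ {y}) (univ \ {y}) := by
    rw [← edges_eq, ar_comap, hφ]
  rw [hme, edges_eq] at h3
  have h5 : (((merge H x y).comap φ).edgeSet.ncard : ℝ) ≤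
      (exP (fun {m} (H : SimpleGraph (Fin m)) => Gir k H) (n - 1) : ℝ) := by exact_mod_cast h2
  have h6 := rec_le ha hrec (Nat.cast_nonneg _) (t := 1) (by omega)
  set X : ℝ := (exP (fun {m} (H : SimpleGraph (Fin m)) => Gir k H) n : ℝ) with hXd
  have h7 : (exP (fun {m} (H : SimpleGraph (Fin m)) => Gir k H) (n - 1) : ℝ) ≤
    X - ((1 : ℕ) : ℝ) * (X / n) := h6
  rw [Nat.cast_one, one_mul] at h7
  rw [Real.rpow_add hn0, Real.rpow_one] at hX
  set w : ℝ := (n : ℝ) ^ (1 / (k : ℝ)) with hwd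
  have h8 : c * w ≤ X / n := by
    rw [le_div_iff₀ hn0]
    linarith
  have h9 : 2 < c * w := by
    have : 2 / c < w := by linarith
    rw [div_lt_iff₀ hc] at this
    linarith
  linarith

end Pool.Agent.J4.H75.EC
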