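import Pool.Agent.J4.H75.EC.Far4

/-!
# Many short paths between any two vertices
-/

set_option autoImplicit false
set_option linter.unusedSectionVars false

open Finset

namespace Pool.Agent.J4.H75.EC

open Pool.Agent.J4.H75.GE Pool.Agent.J4.H75.GF Pool.TH815.GR

/-- The girth of the graph in which two vertices are identified. -/
theorem merge_girth' {V : Type} {G : SimpleGraph V} {x y : V} {k : ℕ}
    (hg : ∀ (v : V) (p : G.Walk v v), p.IsCycle → 2 * k < p.length) (hxy : x ≠ y)
    (hno : ∀ q : G.Walk y x, q.IsPath → 2 ≤ q.length → 2 * k < q.length) :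
    ∀ (v : V) (p : (merge G x y).Walk v v), p.IsCycle → 2 * k < p.length := by
  classical
  intro v p hp
  by_contra hlen
  push Not at hlen
  by_cases hx : x ∈ p.support
  · -- rotate
    set q := p.rotate x hx with hq
    have hqc : q.IsCycle := hp.rotate hx
    have hql : q.length = p.length := SimpleGraph.Walk.length_rotate p x hx
    have h3 := hqc.three_le_length
    cases hqq : q with
    | nil =>
      rw [hqq] at h3
      simp at h3
    | @cons _ a _ hxa q' =>
      rw [hqq] at hqc hql h3
      rw [SimpleGraph.Walk.cons_isCycle_iff] at hqc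
      rw [SimpleGraph.Walk.length_cons] at hql h3
      obtain ⟨hq', hedge⟩ := hqc
      have hrev : q'.reverse.IsPath := hq'.reverse
      have hrevl : q'.reverse.length = q'.length := q'.length_reverse
      have hrede : s(x, a) ∉ q'.reverse.edges := by
        rw [SimpleGraph.Walk.edges_reverse, List.mem_reverse]
        exact hedge
      cases hqr : q'.reverse with
      | nil =>
        rw [hqr] at hrevl
        rw [SimpleGraph.Walk.length_nil] at hrevl
        omega
      | @cons _ b _ hxb r' =>
        rw [hqr] at hrev hrevl hrede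
        rw [SimpleGraph.Walk.cons_isPath_iff] at hrev
        rw [SimpleGraph.Walk.length_cons] at hrevl
        rw [SimpleGraph.Walk.edges_cons, List.mem_cons, not_or] at hrede
        obtain ⟨hr', hxr⟩ := hrev
        have hab : a ≠ b := by
          intro h
          apply hrede.1
          rw [h]
        have hyr : y ∉ r'.support := merge_walk r' hxb.2.1
        obtain ⟨R, hR, hRl, hRs⟩ := merge_transfer r' hr' hxr
        have hxR : x ∉ R.support := by rw [hRs]; exact hxr
        have hyR : y ∉ R.support := by rw [hRs]; exact hyr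
        have key : ∀ u w : V, ∀ T : G.Walk w u, T.IsPath → x ∉ T.support → y ∉ T.support →
            T.length = R.length → G.Adj x u → G.Adj y w → False := by
          intro u w T hT hxT hyT hTl hxu hyw
          obtain ⟨P, hP, hPl⟩ := path_between T hT hxT hyT hxu hyw hxy
          have := hno P hP (by omega)
          omega
        rcases merge_new hxa with h1 | h1 <;> rcases merge_new hxb with h2 | h2
        · obtain ⟨c, hc, hcl⟩ := cycle_of_path R hR hxR h1 h2 hab
          have := hg _ c hc
          omega
        · exact key a b R hR hxR hyR rfl h1 h2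
        · exact key b a R.reverse hR.reverse
            (by rw [SimpleGraph.Walk.support_reverse, List.mem_reverse]; exact hxR)
            (by rw [SimpleGraph.Walk.support_reverse, List.mem_reverse]; exact hyR)
            (SimpleGraph.Walk.length_reverse R) h2 h1
        · obtain ⟨c, hc, hcl⟩ := cycle_of_path R hR hyR h1 h2 hab
          have := hg _ c hc
          omega
  · have h : ∀ e ∈ p.edges, e ∈ G.edgeSet := by
      intro e he
      induction e with
      | h u w =>
        rw [SimpleGraph.mem_edgeSet]
        have h1 := p.fst_mem_support_of_mem_edges he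
        have h2 := p.snd_mem_support_of_mem_edges he
        exact merge_old (p.adj_of_mem_edges he) (fun e => hx (e ▸ h1)) (fun e => hx (e ▸ h2))
    have h1 := hg v (p.transfer G h) (hp.transfer h)
    rw [SimpleGraph.Walk.length_transfer] at h1
    omega

/-- The number of edges of the merged graph. -/
theorem merge_edges' {n : ℕ} (G : SimpleGraph (Fin n)) [DecidableRel G.Adj] {x y : Fin n}
    (hxy : x ≠ y) (htri : ∀ z, ¬ (G.Adj x z ∧ G.Adj y z)) :
    ar G univ univ - 2 ≤ ar (merge G x y) (univ \ {y}) (univ \ {y}) := by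
  set W : Finset (Fin n) := univ \ {x, y} with hW
  have hmem : ∀ z, z ∈ W ↔ z ≠ x ∧ z ≠ y := by
    intro z
    simp [hW]
  have e1 : univ \ {y} = {x} ∪ W := by
    ext z
    simp only [mem_sdiff, mem_univ, mem_singleton, true_and, mem_union, hmem]
    constructor
    · intro h
      by_cases hz : z = x
      · exact Or.inl hz
      · exact Or.inr ⟨hz, h⟩
    · rintro (h | h)
      · rw [h]; exact hxy
      · exact h.2
  have d1 : Disjoint {x} W := by
    rw [Finset.disjoint_singleton_left, hmem]
    exact fun h => h.1 rfl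
  have e2 : (univ : Finset (Fin n)) = {x} ∪ ({y} ∪ W) := by
    ext z
    simp only [mem_univ, mem_union, mem_singleton, hmem, true_iff]
    tauto
  have d2 : Disjoint ({x} : Finset (Fin n)) ({y} ∪ W) := by
    rw [Finset.disjoint_singleton_left, mem_union, mem_singleton, hmem]
    rintro (h | h)
    · exact hxy h
    · exact h.1 rfl
  have d3 : Disjoint {y} W := by
    rw [Finset.disjoint_singleton_left, hmem]
    exact fun h => h.2 rfl
  have hxx : ∀ (F : SimpleGraph (Fin n)) (_ : DecidableRel F.Adj) (z : Fin n), ar F {z} {z} = 0 := by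
    intro F _ z
    simp [ar]
  have hWW : ar (merge G x y) W W = ar G W W := by
    unfold ar
    refine sum_congr rfl fun a ha => sum_congr rfl fun b hb => ?_
    rw [hmem] at ha hb
    by_cases h : G.Adj a b
    · rw [if_pos h, if_pos]
      exact ⟨ha.2, hb.2, Or.inl h⟩
    · rw [if_neg h, if_neg]
      exact fun h' => h (merge_old h' ha.1 hb.1)
  have hxW : ar (merge G x y) {x} W = ar G {x} W + ar G {y} W := by
    unfold ar
    rw [sum_singleton, sum_singleton, sum_singleton, ← sum_add_distrib]
    refine sum_congr rfl fun b hb => ?_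
    rw [hmem] at hb
    by_cases h1 : G.Adj x b
    · have h2 : ¬ G.Adj y b := fun h => htri b ⟨h1, h⟩
      rw [if_pos h1, if_neg h2, if_pos, add_zero]
      exact ⟨hxy, hb.2, Or.inl h1⟩
    · by_cases h2 : G.Adj y b
      · rw [if_neg h1, if_pos h2, if_pos, zero_add]
        exact ⟨hxy, hb.2, Or.inr (Or.inl ⟨rfl, hb.1, h2⟩)⟩
      · rw [if_neg h1, if_neg h2, if_neg, add_zero]
        intro h
        rcases merge_new h with h' | h'
        · exact h1 h'
        · exact h2 h'
  have hxy1 : ar G {x} {y} ≤ 1 := by
    unfold ar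
    rw [sum_singleton, sum_singleton]
    split_ifs <;> norm_num
  have h1 : ar (merge G x y) (univ \ {y}) (univ \ {y}) = ar G W W + 2 * ar G {x} W
      + 2 * ar G {y} W := by
    rw [e1, ar_union_left _ d1, ar_union_right _ d1, ar_union_right _ d1, hWW, hxW,
      ar_comm (merge G x y) W {x}, hxW, hxx (merge G x y) inferInstance x]
    ring
  have h2 : ∀ z : Finset (Fin n), ar G z univ = ar G z {x} + ar G z {y} + ar G z W := by
    intro z
    rw [e2, ar_union_right G d2, ar_union_right G d3]
    ring
  have h3 : ∀ z : Finset (Fin n), ar G univ z = ar G {x} z + ar G {y} z + ar G W z := by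
    intro z
    rw [e2, ar_union_left G d2, ar_union_left G d3]
    ring
  have h4 : ar G univ univ = ar G W W + 2 * ar G {x} W + 2 * ar G {y} W + 2 * ar G {x} {y} := by
    rw [h2, h3, h3, h3, hxx G inferInstance x, hxx G inferInstance y, ar_comm G {y} {x},
      ar_comm G W {x}, ar_comm G W {y}]
    ring
  rw [h1, h4]
  linarith

/-- At a record many edges must be deleted to destroy the paths of lengths `2, ..., 2 k` between two
given vertices. -/
theorem pair_robust {k : ℕ} (hk : 1 ≤ k) {c a : ℝ} (hc : 0 < c) (ha : 1 ≤ a) :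
    ∃ N₁ : ℕ, ∀ n : ℕ, N₁ ≤ n →
      Rec (fun n => (exP (fun {m} (H : SimpleGraph (Fin m)) => Gir k H) n : ℝ)) a n →
      c * (n : ℝ) ^ (1 + 1 / (k : ℝ)) ≤ (exP (fun {m} (H : SimpleGraph (Fin m)) => Gir k H) n : ℝ) →
      ∀ (H : SimpleGraph (Fin n)) (x y : Fin n), Gir k H → x ≠ y →
        (∀ q : H.Walk x y, q.IsPath → 2 ≤ q.length → 2 * k < q.length) →
        H.edgeSet.ncard + c / 2 * (n : ℝ) ^ (1 / (k : ℝ)) <
          (exP (fun {m} (H : SimpleGraph (Fin m)) => Gir k H) n : ℝ) := by
  obtain ⟨N₁, hN₁⟩ := rpow_large (k := k) (by omega) (2 / c + 1)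
  refine ⟨N₁ + 2, ?_⟩
  intro n hn hrec hX H x y hgir hxy hcon
  classical
  obtain ⟨hn1, hw⟩ := hN₁ n (by omega)
  have hn0 : (0 : ℝ) < n := by exact_mod_cast hn1
  have hcon' : ∀ q : H.Walk y x, q.IsPath → 2 ≤ q.length → 2 * k < q.length := by
    intro q hq hql
    have h1 := hcon q.reverse hq.reverse (by rw [SimpleGraph.Walk.length_reverse]; exact hql)
    rwa [SimpleGraph.Walk.length_reverse] at h1
  have hgM := merge_girth' hgir hxy hcon'
  have htri : ∀ z, ¬ (H.Adj x z ∧ H.Adj y z) := by
    rintro z ⟨h3, h4⟩
    have h5 := hcon (SimpleGraph.Walk.cons h3 (SimpleGraph.Walk.cons h4.symm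
      SimpleGraph.Walk.nil)) (by
        rw [SimpleGraph.Walk.cons_isPath_iff, SimpleGraph.Walk.cons_isPath_iff]
        refine ⟨⟨SimpleGraph.Walk.IsPath.nil, ?_⟩, ?_⟩
        · rw [SimpleGraph.Walk.support_nil, List.mem_singleton]
          exact h4.ne.symm
        · rw [SimpleGraph.Walk.support_cons, SimpleGraph.Walk.support_nil, List.mem_cons,
            List.mem_singleton]
          rintro (h | h)
          · exact h3.ne h
          · exact hxy h) (by simp)
    simp only [SimpleGraph.Walk.length_cons, SimpleGraph.Walk.length_nil] at h5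
    omega
  have hme := merge_edges' H hxy htri
  obtain ⟨m, φ, hm, hφ⟩ := exists_emb (univ \ {y} : Finset (Fin n))
  have hmn : m = n - 1 := by
    rw [hm, card_sdiff_of_subset (subset_univ _), card_univ, Fintype.card_fin, card_singleton]
  subst hmn
  have h1 : Gir k ((merge H x y).comap φ) := cycle_comap (G := merge H x y) φ hgM
  have h2 := le_exP (P := fun {m} (H : SimpleGraph (Fin m)) => Gir k H) h1
  have h3 : 2 * (((merge H x y).comap φ).edgeSet.ncard : ℝ) =
      ar (merge H x y) (univ \ {y}) (univ \ {y}) := by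
    rw [← edges_eq, ar_comap, hφ]
  rw [edges_eq, ← h3] at hme
  have h5 : (((merge H x y).comap φ).edgeSet.ncard : ℝ) ≤
      (exP (fun {m} (H : SimpleGraph (Fin m)) => Gir k H) (n - 1) : ℝ) := by exact_mod_cast h2
  have h6 := rec_le ha hrec (Nat.cast_nonneg _) (t := 1) (by omega)
  set X : ℝ := (exP (fun {m} (H : SimpleGraph (Fin m)) => Gir k H) n : ℝ) with hXd
  have h7 : (exP (fun {m} (H : SimpleGraph (Fin m)) => Gir k H) (n - 1) : ℝ) ≤
    X - ((1 : ℕ) : ℝ) * (X / n) := h6
  rw [Nat.cast_one, one_mul] at h7
  rw [Real.rpow_add hn0, Real.rpow_one] at hX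
  set w : ℝ := (n : ℝ) ^ (1 / (k : ℝ)) with hwd
  have h8 : c * w ≤ X / n := by
    rw [le_div_iff₀ hn0]
    linarith
  have h9 : 2 < c * w := by
    have : 2 / c < w := by linarith
    rw [div_lt_iff₀ hc] at this
    linarith
  linarith

end Pool.Agent.J4.H75.EC
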