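import Pool.Agent.J4.H75.EC.Far5

/-!
# Short paths between the vertices of a set
-/

set_option autoImplicit false
set_option linter.unusedSectionVars false

open Finset

namespace Pool.Agent.J4.H75.EC

open Pool.Agent.J4.H75.GE Pool.Agent.J4.H75.GF Pool.TH815.GR

/-- Identify the vertices of `S` with `x`, an element of `S` (and isolate the others). -/
def mergeS {V : Type} (G : SimpleGraph V) (S : Finset V) (x : V) : SimpleGraph V where
  Adj a b := a ≠ b ∧ ((a ∉ S ∧ b ∉ S ∧ G.Adj a b) ∨ (a = x ∧ b ∉ S ∧ ∃ s ∈ S, G.Adj s b) ∨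
    (b = x ∧ a ∉ S ∧ ∃ s ∈ S, G.Adj s a))
  symm := ⟨fun a b h => ⟨h.1.symm, by
    rcases h.2 with h' | h' | h'
    · exact Or.inl ⟨h'.2.1, h'.1, h'.2.2.symm⟩
    · exact Or.inr (Or.inr h')
    · exact Or.inr (Or.inl h')⟩⟩
  loopless := ⟨fun _ h => h.1 rfl⟩

variable {V : Type} {G : SimpleGraph V} {S : Finset V} {x : V}

theorem mergeS_old {a b : V} (h : (mergeS G S x).Adj a b) (ha : a ≠ x) (hb : b ≠ x) :
    a ∉ S ∧ b ∉ S ∧ G.Adj a b := by
  rcases h.2 with h' | h' | h'
  · exact h'
  · exact absurd h'.1 ha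
  · exact absurd h'.1 hb

theorem mergeS_new (hx : x ∈ S) {a : V} (h : (mergeS G S x).Adj x a) :
    a ∉ S ∧ ∃ s ∈ S, G.Adj s a := by
  rcases h.2 with h' | h' | h'
  · exact absurd hx h'.1
  · exact h'.2
  · exact absurd hx h'.2.1

theorem mergeS_walk {a b : V} (p : (mergeS G S x).Walk a b) (ha : a ∉ S) :
    ∀ z ∈ p.support, z ∉ S ∨ z = x := by
  have key : ∀ {c d : V} (q : (mergeS G S x).Walk c d), (c ∉ S ∨ c = x) →
      ∀ z ∈ q.support, z ∉ S ∨ z = x := by
    intro c d q
    induction q with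
    | nil =>
      intro hc z hz
      rw [SimpleGraph.Walk.support_nil, List.mem_singleton] at hz
      rw [hz]
      exact hc
    | cons h q ih =>
      intro hc z hz
      rw [SimpleGraph.Walk.support_cons, List.mem_cons] at hz
      rcases hz with hz | hz
      · rw [hz]
        exact hc
      · refine ih ?_ z hz
        rcases h.2 with h' | h' | h'
        · exact Or.inl h'.2.1
        · exact Or.inl h'.2.1
        · exact Or.inr h'.1
  exact key p (Or.inl ha)

/-- Paths of the merged graph which avoid `x` are paths of `G`. -/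
theorem mergeS_transfer {a b : V} (p : (mergeS G S x).Walk a b) (hp : p.IsPath)
    (hx : x ∉ p.support) :
    ∃ q : G.Walk a b, q.IsPath ∧ q.length = p.length ∧ q.support = p.support := by
  have h : ∀ e ∈ p.edges, e ∈ G.edgeSet := by
    intro e he
    induction e with
    | h u v =>
      rw [SimpleGraph.mem_edgeSet]
      have h1 := p.fst_mem_support_of_mem_edges he
      have h2 := p.snd_mem_support_of_mem_edges he
      exact (mergeS_old (p.adj_of_mem_edges he) (fun e => hx (e ▸ h1)) (fun e => hx (e ▸ h2))).2.2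
  exact ⟨p.transfer G h, hp.transfer h, p.length_transfer h, p.support_transfer h⟩

/-- The girth of the merged graph. -/
theorem mergeS_girth {k : ℕ} (hg : ∀ (v : V) (p : G.Walk v v), p.IsCycle → 2 * k < p.length)
    (hxS : x ∈ S) (hno : ∀ u ∈ S, ∀ v ∈ S, u ≠ v → ∀ q : G.Walk u v, q.IsPath → 2 ≤ q.length →
      2 * k < q.length) :
    ∀ (v : V) (p : (mergeS G S x).Walk v v), p.IsCycle → 2 * k < p.length := by
  classical
  intro v p hp
  by_contra hlen
  push Not at hlen
  by_cases hx : x ∈ p.support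
  · -- rotate
    set q := p.rotate x hx with hq
    have hqc : q.IsCycle := hp.rotate hx
    have hql : q.length = p.length := SimpleGraph.Walk.length_rotate p x hx
    have h3 := hqc.three_le_length
    cases hqq : q with
    | nil =>
      rw [hqq] at h3
      simp at h3
    | @cons _ a _ hxa q' =>
      rw [hqq] at hqc hql h3
      rw [SimpleGraph.Walk.cons_isCycle_iff] at hqc
      rw [SimpleGraph.Walk.length_cons] at hql h3
      obtain ⟨hq', hedge⟩ := hqc
      have hrev : q'.reverse.IsPath := hq'.reverse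
      have hrevl : q'.reverse.length = q'.length := q'.length_reverse
      have hrede : s(x, a) ∉ q'.reverse.edges := by
        rw [SimpleGraph.Walk.edges_reverse, List.mem_reverse]
        exact hedge
      cases hqr : q'.reverse with
      | nil =>
        rw [hqr] at hrevl
        rw [SimpleGraph.Walk.length_nil] at hrevl
        omega
      | @cons _ b _ hxb r' =>
        rw [hqr] at hrev hrevl hrede
        rw [SimpleGraph.Walk.cons_isPath_iff] at hrev
        rw [SimpleGraph.Walk.length_cons] at hrevl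
        rw [SimpleGraph.Walk.edges_cons, List.mem_cons, not_or] at hrede
        obtain ⟨hr', hxr⟩ := hrev
        have hab : a ≠ b := by
          intro h
          apply hrede.1
          rw [h]
        obtain ⟨haS, s₁, hs₁, h1⟩ := mergeS_new hxS hxa
        obtain ⟨hbS, s₂, hs₂, h2⟩ := mergeS_new hxS hxb
        obtain ⟨R, hR, hRl, hRs⟩ := mergeS_transfer r' hr' hxr
        have hSR : ∀ s ∈ S, s ∉ R.support := by
          intro s hs hsR
          rw [hRs] at hsR
          rcases mergeS_walk r' hbS s hsR with h | h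
          · exact h hs
          · rw [h] at hsR
            exact hxr hsR
        by_cases hss : s₁ = s₂
        · subst hss
          obtain ⟨c, hc, hcl⟩ := cycle_of_path R hR (hSR s₁ hs₁) h1 h2 hab
          have := hg _ c hc
          omega
        · obtain ⟨P, hP, hPl⟩ := path_between R hR (hSR s₁ hs₁) (hSR s₂ hs₂) h1 h2 hss
          have := hno s₂ hs₂ s₁ hs₁ (Ne.symm hss) P hP (by omega)
          omega
  · have h : ∀ e ∈ p.edges, e ∈ G.edgeSet := by
      intro e he
      induction e with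
      | h u w =>
        rw [SimpleGraph.mem_edgeSet]
        have h1 := p.fst_mem_support_of_mem_edges he
        have h2 := p.snd_mem_support_of_mem_edges he
        exact (mergeS_old (p.adj_of_mem_edges he) (fun e => hx (e ▸ h1))
          (fun e => hx (e ▸ h2))).2.2
    have h1 := hg v (p.transfer G h) (hp.transfer h)
    rw [SimpleGraph.Walk.length_transfer] at h1
    omega

/-- Two vertices with a common neighbour are joined by a path of length two. -/
theorem two_path {u v z : V} (huv : u ≠ v) (h1 : G.Adj u z) (h2 : G.Adj v z) :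
    ∃ q : G.Walk u v, q.IsPath ∧ q.length = 2 := by
  refine ⟨SimpleGraph.Walk.cons h1 (SimpleGraph.Walk.cons h2.symm SimpleGraph.Walk.nil), ?_, rfl⟩
  rw [SimpleGraph.Walk.cons_isPath_iff, SimpleGraph.Walk.cons_isPath_iff]
  refine ⟨⟨SimpleGraph.Walk.IsPath.nil, ?_⟩, ?_⟩
  · rw [SimpleGraph.Walk.support_nil, List.mem_singleton]
    exact h2.ne.symm
  · rw [SimpleGraph.Walk.support_cons, SimpleGraph.Walk.support_nil, List.mem_cons,
      List.mem_singleton]
    rintro (h | h)
    · exact h1.ne h
    · exact huv h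

open Classical in
/-- The number of edges of the merged graph. -/
theorem mergeS_edges {n : ℕ} (G : SimpleGraph (Fin n)) {S : Finset (Fin n)} {x : Fin n}
    (hxS : x ∈ S) (h2 : ∀ u ∈ S, ∀ v ∈ S, u ≠ v → ∀ z, ¬ (G.Adj u z ∧ G.Adj v z)) :
    ar G univ univ - S.card ≤ ar (mergeS G S x) (univ \ S.erase x) (univ \ S.erase x) := by
  have hone : ∀ z, ∑ s ∈ S, (if G.Adj s z then (1 : ℝ) else 0) ≤ 1 := by
    intro z
    rw [sum_boole]
    have : (S.filter fun s => G.Adj s z).card ≤ 1 := by
      rw [card_le_one]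
      intro u hu v hv
      rw [mem_filter] at hu hv
      by_contra huv
      exact h2 u hu.1 v hv.1 huv z ⟨hu.2, hv.2⟩
    exact_mod_cast this
  have e1 : univ \ S.erase x = {x} ∪ (univ \ S) := by
    ext z
    simp only [mem_sdiff, mem_univ, mem_erase, true_and, mem_union, mem_singleton]
    constructor
    · intro h
      by_cases hz : z = x
      · exact Or.inl hz
      · exact Or.inr fun hzS => h ⟨hz, hzS⟩
    · rintro (h | h)
      · exact fun h' => h'.1 h
      · exact fun h' => h h'.2
  have d1 : Disjoint {x} (univ \ S) := by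
    rw [Finset.disjoint_singleton_left, mem_sdiff]
    exact fun h => h.2 hxS
  have hSS : ar G S S ≤ S.card := by
    rw [ar_comm]
    unfold ar
    rw [sum_comm]
    calc ∑ y ∈ S, ∑ s ∈ S, (if G.Adj s y then (1 : ℝ) else 0) ≤ ∑ _y ∈ S, (1 : ℝ) :=
          sum_le_sum fun y _ => hone y
      _ = S.card := by rw [sum_const, nsmul_eq_mul, mul_one]
  have hWW : ar (mergeS G S x) (univ \ S) (univ \ S) = ar G (univ \ S) (univ \ S) := by
    unfold ar
    refine sum_congr rfl fun a ha => sum_congr rfl fun b hb => ?_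
    rw [mem_sdiff] at ha hb
    by_cases h : G.Adj a b
    · rw [if_pos h, if_pos]
      exact ⟨h.ne, Or.inl ⟨ha.2, hb.2, h⟩⟩
    · rw [if_neg h, if_neg]
      intro h'
      apply h
      exact (mergeS_old h' (fun e => ha.2 (e ▸ hxS)) (fun e => hb.2 (e ▸ hxS))).2.2
  have hxW : ar G S (univ \ S) ≤ ar (mergeS G S x) {x} (univ \ S) := by
    unfold ar
    rw [sum_comm, sum_singleton]
    refine sum_le_sum fun b hb => ?_
    rw [mem_sdiff] at hb
    by_cases h : ∃ s ∈ S, G.Adj s b
    · rw [if_pos]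
      · exact hone b
      · exact ⟨fun e => hb.2 (e ▸ hxS), Or.inr (Or.inl ⟨rfl, hb.2, h⟩)⟩
    · have h0 : ∑ s ∈ S, (if G.Adj s b then (1 : ℝ) else 0) = 0 := by
        refine sum_eq_zero fun s hs => ?_
        rw [if_neg (fun h' => h ⟨s, hs, h'⟩)]
      rw [h0]
      split_ifs <;> norm_num
  have h3 := ar_split G (subset_univ S)
  have h4 := ar_nonneg (mergeS G S x) {x} {x}
  rw [e1, ar_union_left _ d1, ar_union_right _ d1, ar_union_right _ d1, hWW,
    ar_comm (mergeS G S x) (univ \ S) {x}]
  linarith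

/-- At a record many edges must be deleted to destroy the paths of lengths `2, ..., 2 k` between
different vertices of a given set. -/
theorem set_robust {k : ℕ} (hk : 1 ≤ k) {c a : ℝ} (hc : 0 < c) (ha : 1 ≤ a) :
    ∃ N₁ : ℕ, ∀ n : ℕ, N₁ ≤ n →
      Rec (fun n => (exP (fun {m} (H : SimpleGraph (Fin m)) => Gir k H) n : ℝ)) a n →
      c * (n : ℝ) ^ (1 + 1 / (k : ℝ)) ≤ (exP (fun {m} (H : SimpleGraph (Fin m)) => Gir k H) n : ℝ) →
      ∀ (H : SimpleGraph (Fin n)) (S : Finset (Fin n)), Gir k H → 2 ≤ S.card →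
        (∀ u ∈ S, ∀ v ∈ S, u ≠ v → ∀ q : H.Walk u v, q.IsPath → 2 ≤ q.length →
          2 * k < q.length) →
        H.edgeSet.ncard + c / 2 * ((S.card : ℝ) - 1) * (n : ℝ) ^ (1 / (k : ℝ)) <
          (exP (fun {m} (H : SimpleGraph (Fin m)) => Gir k H) n : ℝ) := by
  obtain ⟨N₁, hN₁⟩ := rpow_large (k := k) (by omega) (2 / c + 1)
  refine ⟨N₁ + 2, ?_⟩
  intro n hn hrec hX H S hgir hS hcon
  classical
  obtain ⟨hn1, hw⟩ := hN₁ n (by omega)
  have hn0 : (0 : ℝ) < n := by exact_mod_cast hn1
  obtain ⟨x, hxS⟩ : S.Nonempty := by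
    rw [← card_pos]
    omega
  have hgM := mergeS_girth hgir hxS hcon
  have htri : ∀ u ∈ S, ∀ v ∈ S, u ≠ v → ∀ z, ¬ (H.Adj u z ∧ H.Adj v z) := by
    rintro u hu v hv huv z ⟨h3, h4⟩
    obtain ⟨q, hq, hql⟩ := two_path huv h3 h4
    have h5 := hcon u hu v hv huv q hq (by omega)
    omega
  have hme := mergeS_edges H hxS htri
  obtain ⟨m, φ, hm, hφ⟩ := exists_emb (univ \ S.erase x : Finset (Fin n))
  have hSn : S.card ≤ n := (card_le_univ S).trans (by rw [Fintype.card_fin])
  have hmn : m = n - (S.card - 1) := by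
    rw [hm, card_sdiff_of_subset (subset_univ _), card_univ, Fintype.card_fin,
      card_erase_of_mem hxS]
  subst hmn
  have h1 : Gir k ((mergeS H S x).comap φ) := cycle_comap (G := mergeS H S x) φ hgM
  have h2 := le_exP (P := fun {m} (H : SimpleGraph (Fin m)) => Gir k H) h1
  have h3 : 2 * (((mergeS H S x).comap φ).edgeSet.ncard : ℝ) =
      ar (mergeS H S x) (univ \ S.erase x) (univ \ S.erase x) := by
    rw [← edges_eq, ar_comap, hφ]
  rw [edges_eq, ← h3] at hme
  have h5 : (((mergeS H S x).comap φ).edgeSet.ncard : ℝ) ≤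
      (exP (fun {m} (H : SimpleGraph (Fin m)) => Gir k H) (n - (S.card - 1)) : ℝ) := by
    exact_mod_cast h2
  have h6 := rec_le ha hrec (Nat.cast_nonneg _) (t := S.card - 1) (by omega)
  set X : ℝ := (exP (fun {m} (H : SimpleGraph (Fin m)) => Gir k H) n : ℝ) with hXd
  have h7 : (exP (fun {m} (H : SimpleGraph (Fin m)) => Gir k H) (n - (S.card - 1)) : ℝ) ≤
    X - ((S.card - 1 : ℕ) : ℝ) * (X / n) := h6
  rw [Nat.cast_sub (by omega : 1 ≤ S.card), Nat.cast_one] at h7
  rw [Real.rpow_add hn0, Real.rpow_one] at hX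
  set w : ℝ := (n : ℝ) ^ (1 / (k : ℝ)) with hwd
  have h8 : c * w ≤ X / n := by
    rw [le_div_iff₀ hn0]
    linarith
  have h9 : 2 < c * w := by
    have : 2 / c < w := by linarith
    rw [div_lt_iff₀ hc] at this
    linarith
  have hs2 : (2 : ℝ) ≤ S.card := by exact_mod_cast hS
  have h10 : ((S.card : ℝ) - 1) * (c * w) ≤ (S.card - 1) * (X / n) :=
    mul_le_mul_of_nonneg_left h8 (by linarith)
  have h11 : ((S.card : ℝ) - 1) * 2 < (S.card - 1) * (c * w) :=
    mul_lt_mul_of_pos_left h9 (by linarith)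
  linarith

end Pool.Agent.J4.H75.EC
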