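import Pool.Agent.J4.H75.EC.Records
import Pool.Agent.J4.H75.GF.Sub

/-!
# Paths of the wrong parity
-/

set_option autoImplicit false
set_option linter.unusedSectionVars false

open Finset

namespace Pool.Agent.J4.H75.EC

open Pool.Agent.J4.H75.GE Pool.Agent.J4.H75.GF Pool.TH815.GR

theorem path_append {V : Type} {G : SimpleGraph V} {a b c : V} {p : G.Walk a b} {q : G.Walk b c}
    (hp : p.IsPath) (hq : q.IsPath) (h : ∀ z ∈ p.support, z ∈ q.support → z = b) :
    (p.append q).IsPath := by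
  rw [SimpleGraph.Walk.isPath_def, SimpleGraph.Walk.support_append]
  rw [SimpleGraph.Walk.isPath_def] at hp hq
  have hq' := hq
  rw [← SimpleGraph.Walk.cons_tail_support, List.nodup_cons] at hq'
  rw [List.nodup_append']
  refine ⟨hp, hq'.2, ?_⟩
  rw [List.disjoint_left]
  intro z hz hz'
  have h1 := h z hz (List.mem_of_mem_tail hz')
  rw [h1] at hz'
  exact hq'.1 hz'

/-- All the paths of the right parity. -/
def HasPaths {n : ℕ} (H : SimpleGraph (Fin n)) (σ : Fin n → Bool) (l₁ L M : ℕ) : Prop :=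
  ∀ S : Finset (Fin n), S.card ≤ M → ∀ u v, u ≠ v → u ∉ S → v ∉ S →
    ∀ j, l₁ ≤ j → j ≤ L → (Even j ↔ σ u = σ v) →
      ∃ p : H.Walk u v, p.IsPath ∧ p.length = j ∧ ∀ z ∈ S, z ∉ p.support

variable {n : ℕ} {G H : SimpleGraph (Fin n)} {σ : Fin n → Bool} {l₁ L M : ℕ}

/-- From an end of a monochromatic edge. -/
theorem wrong_one (hHG : H ≤ G) (hH : HasPaths H σ l₁ L M) (hM : 1 ≤ M) {x y v : Fin n}
    (hxy : G.Adj x y) (hc : σ x = σ y) (hvx : v ≠ x) (hvy : v ≠ y) {j : ℕ} (hj : l₁ + 1 ≤ j)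
    (hjL : j ≤ L) (hpar : ¬ (Even j ↔ σ x = σ v)) :
    ∃ p : G.Walk x v, p.IsPath ∧ p.length = j := by
  obtain ⟨i, rfl⟩ : ∃ i, j = i + 1 := ⟨j - 1, by omega⟩
  obtain ⟨p, hp, hpl, hpS⟩ := hH {x} (by simpa using hM) y v (Ne.symm hvy)
    (by rw [mem_singleton]; exact hxy.ne.symm) (by rw [mem_singleton]; exact hvx) i (by omega)
    (by omega) (by
      rw [Nat.even_add_one, hc] at hpar
      tauto)
  refine ⟨SimpleGraph.Walk.cons hxy (p.mapLe hHG), ?_, ?_⟩
  · rw [SimpleGraph.Walk.cons_isPath_iff]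
    refine ⟨hp.mapLe hHG, ?_⟩
    rw [SimpleGraph.Walk.support_mapLe_eq_support]
    exact hpS x (by simp)
  · rw [SimpleGraph.Walk.length_cons, SimpleGraph.Walk.length_mapLe, hpl]

/-- Through a monochromatic edge, avoiding a set. -/
theorem wrong_two (hHG : H ≤ G) {s : ℕ} (hM : s + l₁ + 4 ≤ M) (hH : HasPaths H σ l₁ L M)
    {x y u v : Fin n} (hxy : G.Adj x y) (hc : σ x = σ y) (hux : u ≠ x) (huy : u ≠ y)
    (hvx : v ≠ x) (hvy : v ≠ y) (huv : u ≠ v) {j : ℕ} (hj : 2 * l₁ + 2 ≤ j)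
    (hjL : j ≤ L) (hpar : ¬ (Even j ↔ σ u = σ v)) (S : Finset (Fin n)) (hS : S.card ≤ s)
    (huS : u ∉ S) (hvS : v ∉ S) (hxS : x ∉ S) (hyS : y ∉ S) :
    ∃ p : G.Walk u v, p.IsPath ∧ p.length = j ∧ ∀ z ∈ S, z ∉ p.support := by
  -- the length of the first part
  obtain ⟨a, ha1, ha2, hapar⟩ : ∃ a, l₁ ≤ a ∧ a ≤ l₁ + 1 ∧ (Even a ↔ σ u = σ x) := by
    by_cases h : Even l₁ ↔ σ u = σ x
    · exact ⟨l₁, le_rfl, by omega, h⟩
    · refine ⟨l₁ + 1, by omega, le_rfl, ?_⟩
      rw [Nat.even_add_one]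
      tauto
  obtain ⟨i, hi⟩ : ∃ i, j = a + 1 + i := ⟨j - a - 1, by omega⟩
  have hcard1 : (insert v (insert y S)).card ≤ M := by
    calc (insert v (insert y S)).card ≤ (insert y S).card + 1 := card_insert_le _ _
      _ ≤ S.card + 1 + 1 := by
          have := card_insert_le y S
          omega
      _ ≤ M := by omega
  obtain ⟨A, hA, hAl, hAS⟩ := hH (insert v (insert y S)) hcard1 u x hux
    (by simp only [mem_insert]; tauto)
    (by
      simp only [mem_insert]
      rintro (h | h | h)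
      · exact hvx h.symm
      · exact hxy.ne h
      · exact hxS h) a ha1 (by omega) hapar
  have hvA : v ∉ A.support := hAS v (by simp)
  have hyA : y ∉ A.support := hAS y (by simp)
  have hSA : ∀ z ∈ S, z ∉ A.support := fun z hz => hAS z (by simp [hz])
  have hcard2 : (S ∪ A.support.toFinset).card ≤ M := by
    have h1 := List.toFinset_card_le A.support
    rw [SimpleGraph.Walk.length_support] at h1
    have h2 := card_union_le S A.support.toFinset
    omega
  have hipar : Even i ↔ σ y = σ v := by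
    rw [hi, Nat.even_add, Nat.even_add_one, hapar] at hpar
    rw [← hc]
    clear hAS hSA hcard1 hcard2 hvA hyA hapar
    by_cases h1 : Even i <;> cases h2 : σ u <;> cases h3 : σ x <;> cases h4 : σ v <;>
      simp_all
  obtain ⟨B, hB, hBl, hBS⟩ := hH (S ∪ A.support.toFinset) hcard2 y v (Ne.symm hvy)
    (by simp only [mem_union, List.mem_toFinset]; tauto)
    (by simp only [mem_union, List.mem_toFinset]; tauto) i (by omega) (by omega) hipar
  have hBA : ∀ z ∈ A.support, z ∉ B.support := fun z hz => hBS z (by simp [hz])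
  have hcons : (SimpleGraph.Walk.cons hxy (B.mapLe hHG)).IsPath := by
    rw [SimpleGraph.Walk.cons_isPath_iff]
    refine ⟨hB.mapLe hHG, ?_⟩
    rw [SimpleGraph.Walk.support_mapLe_eq_support]
    exact hBA x A.end_mem_support
  refine ⟨(A.mapLe hHG).append (SimpleGraph.Walk.cons hxy (B.mapLe hHG)), ?_, ?_, ?_⟩
  · apply path_append (hA.mapLe hHG) hcons
    intro z hz hz'
    rw [SimpleGraph.Walk.support_mapLe_eq_support] at hz
    rw [SimpleGraph.Walk.support_cons, List.mem_cons,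
      SimpleGraph.Walk.support_mapLe_eq_support] at hz'
    rcases hz' with h | h
    · exact h
    · exact absurd h (hBA z hz)
  · rw [SimpleGraph.Walk.length_append, SimpleGraph.Walk.length_cons,
      SimpleGraph.Walk.length_mapLe, SimpleGraph.Walk.length_mapLe, hAl, hBl]
    omega
  · intro z hz hz'
    rw [SimpleGraph.Walk.mem_support_append_iff, SimpleGraph.Walk.support_cons, List.mem_cons,
      SimpleGraph.Walk.support_mapLe_eq_support, SimpleGraph.Walk.support_mapLe_eq_support] at hz'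
    rcases hz' with h | h | h
    · exact hSA z hz h
    · exact hxS (h ▸ hz)
    · exact hBS z (by simp [hz]) h

/-- All the lengths in the presence of a monochromatic edge. -/
theorem all_paths (hHG : H ≤ G) (hM : l₁ + 4 ≤ M) (hH : HasPaths H σ l₁ L M)
    {x y : Fin n} (hxy : G.Adj x y) (hc : σ x = σ y) {u v : Fin n} (huv : u ≠ v)
    (h1 : ¬ (u = x ∧ v = y)) (h2 : ¬ (u = y ∧ v = x)) {j : ℕ} (hj : 2 * l₁ + 2 ≤ j)
    (hjL : j ≤ L) : ∃ p : G.Walk u v, p.IsPath ∧ p.length = j := by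
  by_cases hpar : Even j ↔ σ u = σ v
  · obtain ⟨p, hp, hpl, -⟩ := hH ∅ (by simp) u v huv (by simp) (by simp) j (by omega) hjL hpar
    exact ⟨p.mapLe hHG, hp.mapLe hHG, by rw [SimpleGraph.Walk.length_mapLe, hpl]⟩
  · have hpar' : ¬ (Even j ↔ σ v = σ u) := by
      rw [eq_comm (a := σ v)]
      exact hpar
    by_cases hux : u = x
    · subst hux
      exact wrong_one hHG hH (by omega) hxy hc (Ne.symm huv) (by tauto) (by omega) hjL hpar
    by_cases huy : u = y
    · subst huy
      exact wrong_one hHG hH (by omega) hxy.symm hc.symm (Ne.symm huv) (by tauto) (by omega) hjL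
        hpar
    by_cases hvx : v = x
    · subst hvx
      obtain ⟨p, hp, hpl⟩ := wrong_one hHG hH (by omega) hxy hc (v := u) huv huy (by omega) hjL
        hpar'
      exact ⟨p.reverse, hp.reverse, by rw [SimpleGraph.Walk.length_reverse, hpl]⟩
    by_cases hvy : v = y
    · subst hvy
      obtain ⟨p, hp, hpl⟩ := wrong_one hHG hH (by omega) hxy.symm hc.symm (v := u) huv hux
        (by omega) hjL hpar'
      exact ⟨p.reverse, hp.reverse, by rw [SimpleGraph.Walk.length_reverse, hpl]⟩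
    obtain ⟨p, hp, hpl, -⟩ := wrong_two (s := 0) hHG (by omega) hH hxy hc hux huy hvx hvy huv hj
      hjL hpar ∅ (by simp) (by simp) (by simp) (by simp) (by simp)
    exact ⟨p, hp, hpl⟩

/-- All the cycles in the presence of a monochromatic edge. -/
theorem all_cycles (hHG : H ≤ G) (hM : l₁ + 4 ≤ M) (hH : HasPaths H σ l₁ L M)
    (hσ : ∀ a b, H.Adj a b → σ a ≠ σ b) {x y : Fin n} (hxy : G.Adj x y) (hc : σ x = σ y)
    {u w : Fin n} (huw : H.Adj u w) {j : ℕ} (hj : 2 * l₁ + 4 ≤ j) (hjL : j ≤ L) :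
    ∃ p : G.Walk u u, p.IsCycle ∧ p.length = j := by
  have hne := hσ u w huw
  obtain ⟨p, hp, hpl⟩ := all_paths hHG hM hH hxy hc (u := w) (v := u) huw.ne.symm
    (by rintro ⟨rfl, rfl⟩; exact hne hc.symm) (by rintro ⟨rfl, rfl⟩; exact hne hc) (j := j - 1)
    (by omega) (by omega)
  exact mono_cycle (G := G) (H := G) le_rfl (by omega) (hHG huw).symm p hp hpl

/-- Few monochromatic edges if they all meet a small set. -/
theorem fr_small {n : ℕ} (G : SimpleGraph (Fin n)) [DecidableRel G.Adj] {X : Finset (Fin n)}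
    (hX : fr G univ = ar G X X + ar G (univ \ X) (univ \ X)) {Δ : ℝ}
    (hΔ : ∀ x, ((cut G X).degree x : ℝ) ≤ Δ) (S : Finset (Fin n))
    (hS : ∀ x y, G.Adj x y → (x ∈ X ↔ y ∈ X) → x ∈ S ∨ y ∈ S) :
    fr G univ ≤ 2 * S.card * Δ := by
  have side : ∀ Y : Finset (Fin n), (∀ a ∈ Y, ∀ b ∈ Y, (a ∈ X ↔ b ∈ X)) →
      (∀ v ∈ Y, ar G {v} Y ≤ Δ) → ar G Y Y ≤ 2 * (Y ∩ S).card * Δ := by
    intro Y hY hdeg
    have hd : Disjoint (Y ∩ S) (Y \ S) := by
      rw [Finset.disjoint_left]
      intro z h1 h2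
      exact (mem_sdiff.1 h2).2 (mem_inter.1 h1).2
    have hu : Y = (Y ∩ S) ∪ (Y \ S) := by
      ext z
      simp only [mem_union, mem_inter, mem_sdiff]
      tauto
    have h0 : ar G (Y \ S) (Y \ S) = 0 := by
      unfold ar
      refine sum_eq_zero fun x hx => sum_eq_zero fun y hy => ?_
      rw [mem_sdiff] at hx hy
      rw [if_neg]
      intro h
      rcases hS x y h (hY x hx.1 y hy.1) with h' | h'
      · exact hx.2 h'
      · exact hy.2 h'
    have h1 : ar G Y Y = ar G (Y ∩ S) Y + ar G (Y \ S) Y := by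
      conv_lhs => rw [hu]
      rw [ar_union_left G hd, ← hu]
    have h2 : ar G (Y \ S) Y = ar G (Y \ S) (Y ∩ S) := by
      have h5 := ar_union_right G hd (Y \ S)
      rw [← hu, h0, add_zero] at h5
      exact h5
    have h3 : ar G (Y \ S) (Y ∩ S) ≤ ar G (Y ∩ S) Y := by
      rw [ar_comm]
      exact ar_mono G subset_rfl sdiff_subset
    have h4 : ar G (Y ∩ S) Y ≤ (Y ∩ S).card * Δ := by
      have h5 : ar G (Y ∩ S) Y = ∑ v ∈ Y ∩ S, ar G {v} Y := by
        unfold ar
        refine sum_congr rfl fun v _ => ?_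
        rw [sum_singleton]
      rw [h5, ← nsmul_eq_mul, ← sum_const]
      exact sum_le_sum fun v hv => hdeg v (mem_inter.1 hv).1
    linarith
  have hdegH : ∀ v, ∀ Y : Finset (Fin n), (∀ b ∈ Y, ¬ (v ∈ X ↔ b ∈ X)) → ar G {v} Y ≤ Δ := by
    intro v Y hY
    refine le_trans ?_ (hΔ v)
    rw [← cut_diff G X (A := {v}) (B := Y) (by
      intro a ha b hb
      rw [mem_singleton] at ha
      rw [ha]
      exact hY b hb), ar_eq_sum_card, sum_singleton, ← deg_eq]
    exact_mod_cast card_le_card (filter_subset_filter _ (subset_univ _))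
  have h1 := side X (by intro a ha b hb; tauto) (by
    intro v hv
    refine (opt_vertex G hX hv).trans (hdegH v _ ?_)
    intro b hb
    rw [mem_sdiff] at hb
    tauto)
  have hXc : univ \ (univ \ X) = X := by
    ext z
    simp
  have h2 := side (univ \ X) (by intro a ha b hb; rw [mem_sdiff] at ha hb; tauto) (by
    intro v hv
    have hX' : fr G univ = ar G (univ \ X) (univ \ X) +
        ar G (univ \ (univ \ X)) (univ \ (univ \ X)) := by
      rw [hXc, hX, add_comm]
    refine (opt_vertex G hX' hv).trans ?_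
    rw [hXc]
    refine hdegH v _ ?_
    intro b hb
    rw [mem_sdiff] at hv
    tauto)
  have h3 : ((X ∩ S).card : ℝ) + ((univ \ X) ∩ S).card = S.card := by
    have h4 : (X ∩ S) ∪ ((univ \ X) ∩ S) = S := by
      ext z
      simp only [mem_union, mem_inter, mem_sdiff, mem_univ, true_and]
      tauto
    have h5 : Disjoint (X ∩ S) ((univ \ X) ∩ S) := by
      rw [Finset.disjoint_left]
      intro z h1 h2
      simp only [mem_inter, mem_sdiff, mem_univ, true_and] at h1 h2
      tauto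
    have h6 := card_union_of_disjoint h5
    rw [h4] at h6
    rw [h6]
    push_cast
    rfl
  rw [hX]
  calc ar G X X + ar G (univ \ X) (univ \ X) ≤
      2 * (X ∩ S).card * Δ + 2 * ((univ \ X) ∩ S).card * Δ := add_le_add h1 h2
    _ = 2 * (((X ∩ S).card : ℝ) + ((univ \ X) ∩ S).card) * Δ := by ring
    _ = _ := by rw [h3]

end Pool.Agent.J4.H75.EC
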