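import Pool.Agent.J4.H75.EC.Extremal

/-!
# Record times have positive density
-/

set_option autoImplicit false
set_option linter.unusedSectionVars false

open Finset

namespace Pool.Agent.J4.H75.EC

open Pool.Agent.J4.H75.GE Pool.Agent.J4.H75.GF Pool.TH815.GR

variable {P : ∀ {n : ℕ}, SimpleGraph (Fin n) → Prop}

/-- `n` is a record of `x n / n ^ a`. -/
def Rec (x : ℕ → ℝ) (a : ℝ) (n : ℕ) : Prop :=
  1 ≤ n ∧ ∀ m, 1 ≤ m → m ≤ n → x m / (m : ℝ) ^ a ≤ x n / (n : ℝ) ^ a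

/-- The running maximum. -/
noncomputable def run (x : ℕ → ℝ) (a : ℝ) : ℕ → ℝ
  | 0 => 0
  | n + 1 => max (run x a n) (x (n + 1) / ((n + 1 : ℕ) : ℝ) ^ a)

theorem run_mono (x : ℕ → ℝ) (a : ℝ) : Monotone (run x a) :=
  monotone_nat_of_le_succ fun _ => le_max_left _ _

theorem le_run (x : ℕ → ℝ) (a : ℝ) {m n : ℕ} (hm : 1 ≤ m) (hmn : m ≤ n) :
    x m / (m : ℝ) ^ a ≤ run x a n := by
  obtain ⟨j, rfl⟩ : ∃ j, m = j + 1 := ⟨m - 1, by omega⟩
  exact (le_max_right _ _).trans (run_mono x a hmn)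

theorem run_nonneg (x : ℕ → ℝ) (a : ℝ) (n : ℕ) : 0 ≤ run x a n := run_mono x a (Nat.zero_le n)

open Classical in
/-- The records at which the value is at least `T`. -/
noncomputable def recs (x : ℕ → ℝ) (a T : ℝ) (N : ℕ) : Finset ℕ :=
  (Finset.Icc 1 N).filter fun n => Rec x a n ∧ T ≤ x n / (n : ℝ) ^ a

theorem mem_recs {x : ℕ → ℝ} {a T : ℝ} {N n : ℕ} : n ∈ recs x a T N ↔
    (1 ≤ n ∧ n ≤ N) ∧ Rec x a n ∧ T ≤ x n / (n : ℝ) ^ a := by
  classical
  unfold recs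
  rw [mem_filter, Finset.mem_Icc]

theorem run_le {x : ℕ → ℝ} {a b C T : ℝ} (ha : 0 < a) (hC : 0 ≤ C) (hT : 0 ≤ T) (hx0 : x 0 = 0)
    (hx : ∀ n, 0 ≤ x n)
    (hinc : ∀ n : ℕ, x (n + 1) ≤ x n + C * ((n + 1 : ℕ) : ℝ) ^ b) (N : ℕ) :
    run x a N ≤ T + ∑ n ∈ recs x a T N, C * (n : ℝ) ^ (b - a) := by
  induction N with
  | zero =>
    have : recs x a T 0 = ∅ := by
      ext n
      rw [mem_recs]
      simp
      omega
    rw [this, sum_empty, add_zero]
    exact hT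
  | succ N ih =>
    have hpos : (0 : ℝ) < ((N + 1 : ℕ) : ℝ) := by positivity
    have hpa : (0 : ℝ) < ((N + 1 : ℕ) : ℝ) ^ a := Real.rpow_pos_of_pos hpos _
    have hsub : recs x a T N ⊆ recs x a T (N + 1) := by
      intro n hn
      rw [mem_recs] at hn ⊢
      exact ⟨⟨hn.1.1, by omega⟩, hn.2⟩
    have hmono : ∑ n ∈ recs x a T N, C * (n : ℝ) ^ (b - a) ≤
        ∑ n ∈ recs x a T (N + 1), C * (n : ℝ) ^ (b - a) :=
      sum_le_sum_of_subset_of_nonneg hsub fun n _ _ =>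
        mul_nonneg hC (Real.rpow_nonneg (Nat.cast_nonneg _) _)
    show max (run x a N) (x (N + 1) / ((N + 1 : ℕ) : ℝ) ^ a) ≤ _
    rcases le_total (x (N + 1) / ((N + 1 : ℕ) : ℝ) ^ a) (run x a N) with h | h
    · rw [max_eq_left h]
      linarith
    · rw [max_eq_right h]
      have hrec : Rec x a (N + 1) := by
        refine ⟨by omega, fun m hm1 hm2 => ?_⟩
        rcases Nat.lt_or_ge N m with h1 | h1
        · have : m = N + 1 := by omega
          rw [this]
        · exact (le_run x a hm1 h1).trans h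
      rcases lt_or_ge (x (N + 1) / ((N + 1 : ℕ) : ℝ) ^ a) T with hlt | hge
      · have : 0 ≤ ∑ n ∈ recs x a T (N + 1), C * (n : ℝ) ^ (b - a) :=
          sum_nonneg fun n _ => mul_nonneg hC (Real.rpow_nonneg (Nat.cast_nonneg _) _)
        linarith
      · have hmem : N + 1 ∈ recs x a T (N + 1) := mem_recs.2 ⟨⟨by omega, le_rfl⟩, hrec, hge⟩
        have hnot : N + 1 ∉ recs x a T N := by
          rw [mem_recs]
          omega
        have hsub' : insert (N + 1) (recs x a T N) ⊆ recs x a T (N + 1) :=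
          insert_subset hmem hsub
        have h2 : C * ((N + 1 : ℕ) : ℝ) ^ (b - a) + ∑ n ∈ recs x a T N, C * (n : ℝ) ^ (b - a) ≤
            ∑ n ∈ recs x a T (N + 1), C * (n : ℝ) ^ (b - a) := by
          have h6 := sum_insert (f := fun n : ℕ => C * (n : ℝ) ^ (b - a)) hnot
          refine (le_of_eq h6.symm).trans ?_
          exact sum_le_sum_of_subset_of_nonneg hsub' fun n _ _ =>
            mul_nonneg hC (Real.rpow_nonneg (Nat.cast_nonneg _) _)
        have h3 : x N / ((N + 1 : ℕ) : ℝ) ^ a ≤ run x a N := by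
          rcases Nat.eq_zero_or_pos N with h0 | h0
          · subst h0
            rw [hx0, zero_div]
            exact run_nonneg x a 0
          · refine le_trans ?_ (le_run x a h0 le_rfl)
            have hN0 : (0 : ℝ) < N := by exact_mod_cast h0
            apply div_le_div_of_nonneg_left (hx N) (Real.rpow_pos_of_pos hN0 _)
            apply Real.rpow_le_rpow hN0.le _ ha.le
            push_cast
            linarith
        have h4 : x (N + 1) / ((N + 1 : ℕ) : ℝ) ^ a ≤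
            x N / ((N + 1 : ℕ) : ℝ) ^ a + C * ((N + 1 : ℕ) : ℝ) ^ (b - a) := by
          have h5 : C * ((N + 1 : ℕ) : ℝ) ^ (b - a) =
              C * ((N + 1 : ℕ) : ℝ) ^ b / ((N + 1 : ℕ) : ℝ) ^ a := by
            rw [Real.rpow_sub hpos, mul_div_assoc]
          rw [h5, ← add_div]
          exact div_le_div_of_nonneg_right (hinc N) hpa.le
        linarith

/-- Many records. -/
theorem many_records {x : ℕ → ℝ} {a b c C E : ℝ} (ha : 1 < a) (hb : b ≤ 1) (hab : a < 1 + b)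
    (hc : 0 < c) (hC : 0 < C) (hE : 0 < E) (hx0 : x 0 = 0) (hx : ∀ n, 0 ≤ x n)
    (hinc : ∀ n : ℕ, x (n + 1) ≤ x n + C * ((n + 1 : ℕ) : ℝ) ^ b)
    (hup : ∀ n : ℕ, x n ≤ E * (n : ℝ) ^ (1 + b)) {N : ℕ} (hN : 1 ≤ N)
    (hxN : c * (N : ℝ) ^ (1 + b) ≤ x N) :
    let ε := (c / (2 * E)) ^ (1 / (1 + b - a))
    ∃ S : Finset ℕ, c / (2 * C) * ε ^ (a - b) * N ≤ S.card ∧ ∀ n ∈ S, 1 ≤ n ∧ n ≤ N ∧
      ε * N ≤ n ∧ Rec x a n ∧ c / 2 * (n : ℝ) ^ (1 + b) ≤ x n := by
  intro ε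
  have hN0 : (0 : ℝ) < N := by exact_mod_cast hN
  set s : ℝ := 1 + b - a with hs
  have hs0 : 0 < s := by linarith
  have hε0 : 0 < ε := Real.rpow_pos_of_pos (by positivity) _
  set T : ℝ := c / 2 * (N : ℝ) ^ s with hT
  have hT0 : 0 ≤ T := by positivity
  have hsplit : ∀ y : ℝ, 0 < y → y ^ (1 + b) = y ^ s * y ^ a := by
    intro y hy
    rw [← Real.rpow_add hy, hs]
    ring_nf
  have hprop : ∀ n ∈ recs x a T N, 1 ≤ n ∧ n ≤ N ∧ ε * N ≤ n ∧ Rec x a n ∧
      c / 2 * (n : ℝ) ^ (1 + b) ≤ x n := by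
    intro n hn
    rw [mem_recs] at hn
    obtain ⟨⟨hn1, hn2⟩, hrec, hnT⟩ := hn
    have hn0 : (0 : ℝ) < n := by exact_mod_cast hn1
    have hnN : (n : ℝ) ≤ N := by exact_mod_cast hn2
    have hna : (0 : ℝ) < (n : ℝ) ^ a := Real.rpow_pos_of_pos hn0 _
    refine ⟨hn1, hn2, ?_, hrec, ?_⟩
    · have h1 : x n / (n : ℝ) ^ a ≤ E * (n : ℝ) ^ s := by
        rw [div_le_iff₀ hna, mul_assoc, ← hsplit _ hn0]
        exact hup n
      have h3 : (ε * N) ^ s ≤ (n : ℝ) ^ s := by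
        have h4 : ε ^ s = c / (2 * E) := by
          show ((c / (2 * E)) ^ (1 / s)) ^ s = _
          rw [← Real.rpow_mul (by positivity)]
          have : 1 / s * s = 1 := by field_simp
          rw [this, Real.rpow_one]
        rw [Real.mul_rpow hε0.le hN0.le, h4]
        have h5 : c / 2 * (N : ℝ) ^ s ≤ E * (n : ℝ) ^ s := hnT.trans h1
        have h6 : c / (2 * E) * (N : ℝ) ^ s = (c / 2 * (N : ℝ) ^ s) / E := by
          field_simp
        rw [h6, div_le_iff₀ hE]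
        linarith
      exact (Real.rpow_le_rpow_iff (by positivity) hn0.le hs0).1 h3
    · rw [le_div_iff₀ hna] at hnT
      refine le_trans ?_ hnT
      rw [hsplit _ hn0, hT, ← mul_assoc]
      apply mul_le_mul_of_nonneg_right _ hna.le
      apply mul_le_mul_of_nonneg_left _ (by positivity)
      exact Real.rpow_le_rpow hn0.le hnN hs0.le
  refine ⟨recs x a T N, ?_, hprop⟩
  have h1 : c * (N : ℝ) ^ s ≤ run x a N := by
    refine le_trans ?_ (le_run x a hN le_rfl)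
    rw [le_div_iff₀ (Real.rpow_pos_of_pos hN0 _), mul_assoc, ← hsplit _ hN0]
    exact hxN
  have h2 := run_le (x := x) (b := b) (C := C) (T := T) (by linarith : 0 < a) hC.le hT0 hx0 hx
    hinc N
  have hεN : 0 < ε * N := by positivity
  have h3 : ∑ n ∈ recs x a T N, C * (n : ℝ) ^ (b - a) ≤
      (recs x a T N).card * (C * (ε * N) ^ (b - a)) := by
    rw [← nsmul_eq_mul, ← sum_const]
    refine sum_le_sum fun n hn => ?_
    apply mul_le_mul_of_nonneg_left _ hC.le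
    exact Real.rpow_le_rpow_of_nonpos hεN (hprop n hn).2.2.1 (by linarith)
  have h4 : c / 2 * (N : ℝ) ^ s ≤ (recs x a T N).card * (C * (ε * N) ^ (b - a)) := by
    have : c * (N : ℝ) ^ s = c / 2 * (N : ℝ) ^ s + T := by
      rw [hT]; ring
    linarith
  have h5 : (ε * N) ^ (b - a) * (ε * N) ^ (a - b) = 1 := by
    rw [← Real.rpow_add hεN]
    have : b - a + (a - b) = 0 := by ring
    rw [this, Real.rpow_zero]
  have h6 : 0 < (ε * N) ^ (a - b) := Real.rpow_pos_of_pos hεN _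
  have h7 := mul_le_mul_of_nonneg_right h4 h6.le
  have h8 : c / 2 * (N : ℝ) ^ s * (ε * N) ^ (a - b) = c / 2 * ε ^ (a - b) * N := by
    rw [Real.mul_rpow hε0.le hN0.le]
    have h9 : (N : ℝ) ^ s * (N : ℝ) ^ (a - b) = N := by
      rw [← Real.rpow_add hN0]
      have : s + (a - b) = 1 := by rw [hs]; ring
      rw [this, Real.rpow_one]
    calc c / 2 * (N : ℝ) ^ s * (ε ^ (a - b) * (N : ℝ) ^ (a - b)) =
        c / 2 * ε ^ (a - b) * ((N : ℝ) ^ s * (N : ℝ) ^ (a - b)) := by ring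
      _ = _ := by rw [h9]
  have h9 : (recs x a T N).card * (C * (ε * N) ^ (b - a)) * (ε * N) ^ (a - b) =
      C * (recs x a T N).card := by
    calc (recs x a T N).card * (C * (ε * N) ^ (b - a)) * (ε * N) ^ (a - b) =
        C * (recs x a T N).card * ((ε * N) ^ (b - a) * (ε * N) ^ (a - b)) := by ring
      _ = _ := by rw [h5, mul_one]
  rw [h8, h9] at h7
  have h10 : c / (2 * C) * ε ^ (a - b) * N = (c / 2 * ε ^ (a - b) * N) / C := by
    field_simp
  rw [h10, div_le_iff₀ hC]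
  linarith

/-- The record at which the running maximum is attained. -/
theorem top_record {x : ℕ → ℝ} {a b c E : ℝ} (hab : a < 1 + b)
    (hc : 0 < c) (hE : 0 < E) (hup : ∀ n : ℕ, x n ≤ E * (n : ℝ) ^ (1 + b)) {N : ℕ} (hN : 1 ≤ N)
    (hxN : c * (N : ℝ) ^ (1 + b) ≤ x N) :
    let ε := (c / (2 * E)) ^ (1 / (1 + b - a))
    ∃ n : ℕ, 1 ≤ n ∧ n ≤ N ∧ ε * N ≤ n ∧ Rec x a n ∧
      x N / (N : ℝ) ^ (1 + b) ≤ x n / (n : ℝ) ^ (1 + b) := by
  intro ε
  set s : ℝ := 1 + b - a with hs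
  have hs0 : 0 < s := by linarith
  have hε0 : 0 < ε := Real.rpow_pos_of_pos (by positivity) _
  obtain ⟨n, hn, hmax⟩ := exists_max_image (Finset.Icc 1 N)
    (fun m : ℕ => x m / (m : ℝ) ^ a) ⟨N, by rw [Finset.mem_Icc]; omega⟩
  rw [Finset.mem_Icc] at hn
  have hn0 : (0 : ℝ) < n := by exact_mod_cast hn.1
  have hN0 : (0 : ℝ) < N := by exact_mod_cast hN
  have hnN : (n : ℝ) ≤ N := by exact_mod_cast hn.2
  have hNmax := hmax N (by rw [Finset.mem_Icc]; omega)
  have hsplit : ∀ y : ℝ, 0 < y → y ^ (1 + b) = y ^ s * y ^ a := by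
    intro y hy
    rw [← Real.rpow_add hy, hs]
    ring_nf
  have hna : (0 : ℝ) < (n : ℝ) ^ a := Real.rpow_pos_of_pos hn0 _
  have hNa : (0 : ℝ) < (N : ℝ) ^ a := Real.rpow_pos_of_pos hN0 _
  have hns : (0 : ℝ) < (n : ℝ) ^ s := Real.rpow_pos_of_pos hn0 _
  have hNs : (0 : ℝ) < (N : ℝ) ^ s := Real.rpow_pos_of_pos hN0 _
  have hcN : c * (N : ℝ) ^ s ≤ x N / (N : ℝ) ^ a := by
    rw [le_div_iff₀ hNa, mul_assoc, ← hsplit _ hN0]
    exact hxN
  refine ⟨n, hn.1, hn.2, ?_, ⟨hn.1, fun m hm1 hm2 => hmax m (by rw [Finset.mem_Icc]; omega)⟩, ?_⟩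
  · have h2 : x n / (n : ℝ) ^ a ≤ E * (n : ℝ) ^ s := by
      rw [div_le_iff₀ hna, mul_assoc, ← hsplit _ hn0]
      exact hup n
    have h3 : (ε * N) ^ s ≤ (n : ℝ) ^ s := by
      have h4 : ε ^ s = c / (2 * E) := by
        show ((c / (2 * E)) ^ (1 / s)) ^ s = _
        rw [← Real.rpow_mul (by positivity)]
        have : 1 / s * s = 1 := by field_simp
        rw [this, Real.rpow_one]
      rw [Real.mul_rpow hε0.le hN0.le, h4]
      have h5 : c * (N : ℝ) ^ s ≤ E * (n : ℝ) ^ s := (hcN.trans hNmax).trans h2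
      have h6 : c / (2 * E) * (N : ℝ) ^ s = (c * (N : ℝ) ^ s) / (2 * E) := by
        field_simp
      rw [h6, div_le_iff₀ (by positivity)]
      nlinarith
    exact (Real.rpow_le_rpow_iff (by positivity) hn0.le hs0).1 h3
  · rw [hsplit _ hN0, hsplit _ hn0, mul_comm ((N : ℝ) ^ s), mul_comm ((n : ℝ) ^ s), ← div_div,
      ← div_div]
    have h1 : (n : ℝ) ^ s ≤ (N : ℝ) ^ s := Real.rpow_le_rpow hn0.le hnN hs0.le
    have h2 : 0 ≤ x N / (N : ℝ) ^ a := le_trans (by positivity) hcN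
    exact div_le_div₀ (h2.trans hNmax) hNmax hns h1

section Graphs

variable (hcomap : ∀ {m n : ℕ} (φ : Fin m ↪ Fin n) (G : SimpleGraph (Fin n)), P G → P (G.comap φ))
  {k : ℕ} (hk : 1 ≤ k)
  (hg : ∀ {n : ℕ} (G : SimpleGraph (Fin n)), P G →
    ∀ (v : Fin n) (p : G.Walk v v), p.IsCycle → Even p.length → 2 * k < p.length)

/-- A bipartite subgraph with half of the edges and large girth. -/
theorem half_girth {n k : ℕ} (G : SimpleGraph (Fin n))
    (hg : ∀ (v : Fin n) (p : G.Walk v v), p.IsCycle → Even p.length → 2 * k < p.length) :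
    ∃ B : SimpleGraph (Fin n), B ≤ G ∧ B.Colorable 2 ∧
      (G.edgeSet.ncard : ℝ) ≤ 2 * B.edgeSet.ncard ∧
      ∀ (v : Fin n) (p : B.Walk v v), p.IsCycle → 2 * k < p.length := by
  obtain ⟨B, hB, hBc, hBe⟩ := half_bip G
  refine ⟨B, hB, hBc, hBe, ?_⟩
  obtain ⟨col⟩ := hBc
  let col' : B.Coloring Bool := SimpleGraph.Coloring.mk (fun x => decide (col x = 0))
    (fun {a b} h hc => by
      have h5 := col.valid h
      apply h5
      rw [decide_eq_decide] at hc
      have key : ∀ i j : Fin 2, (i = 0 ↔ j = 0) → i = j := by decide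
      exact key _ _ hc)
  intro v p hp
  have h1 : Even p.length := (col'.even_length_iff_congr p).2 Iff.rfl
  have h2 := hg v (p.mapLe hB) (hp.mapLe hB)
  rw [SimpleGraph.Walk.length_mapLe] at h2
  exact h2 h1

theorem exP_empty {n : ℕ} (h : ¬ ∃ G : SimpleGraph (Fin n), P G) : exP P n = 0 := by
  have h1 : {e | ∃ G : SimpleGraph (Fin n), P G ∧ G.edgeSet.ncard = e} = ∅ := by
    rw [Set.eq_empty_iff_forall_notMem]
    rintro e ⟨G, hG, -⟩
    exact h ⟨G, hG⟩
  unfold exP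
  rw [h1]
  simp

include hk hg in
theorem exP_moore (n : ℕ) : (exP P n : ℝ) ≤ 24 * (n : ℝ) ^ (1 + 1 / (k : ℝ)) := by
  by_cases hne : ∃ G : SimpleGraph (Fin n), P G
  swap
  · rw [exP_empty hne]
    have : 0 ≤ (n : ℝ) ^ (1 + 1 / (k : ℝ)) := Real.rpow_nonneg (Nat.cast_nonneg _) _
    simp only [Nat.cast_zero]
    linarith
  obtain ⟨G, hG, hGe⟩ := exP_mem hne
  obtain ⟨B, hB, -, hBe, hBg⟩ := half_girth G (hg G hG)
  classical
  have h1 := moore B hk hBg
  rw [edges_eq, Fintype.card_fin] at h1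
  rw [← hGe]
  linarith

include hcomap hk hg in
/-- The increments of the extremal numbers. -/
theorem exP_succ (n : ℕ) : (exP P (n + 1) : ℝ) ≤
    exP P n + 48 * ((n + 1 : ℕ) : ℝ) ^ (1 / (k : ℝ)) := by
  by_cases hne : ∃ G : SimpleGraph (Fin (n + 1)), P G
  swap
  · rw [exP_empty hne]
    have h1 : 0 ≤ ((n + 1 : ℕ) : ℝ) ^ (1 / (k : ℝ)) := Real.rpow_nonneg (Nat.cast_nonneg _) _
    have h2 : (0 : ℝ) ≤ exP P n := Nat.cast_nonneg _
    simp only [Nat.cast_zero]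
    linarith
  obtain ⟨G, hG, hGe⟩ := exP_mem hne
  classical
  have hpos : (0 : ℝ) < ((n + 1 : ℕ) : ℝ) := by positivity
  have hmo := exP_moore hk hg (n + 1)
  -- a vertex of small degree
  obtain ⟨v, hv⟩ : ∃ v, (G.degree v : ℝ) ≤ 48 * ((n + 1 : ℕ) : ℝ) ^ (1 / (k : ℝ)) := by
    by_contra hcon
    push Not at hcon
    have h1 : ∑ v : Fin (n + 1), 48 * ((n + 1 : ℕ) : ℝ) ^ (1 / (k : ℝ)) <
        ∑ v, (G.degree v : ℝ) :=
      sum_lt_sum_of_nonempty ⟨0, mem_univ _⟩ fun v _ => hcon v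
    have h2 : ∑ v, (G.degree v : ℝ) = 2 * (exP P (n + 1) : ℝ) := by
      rw [← hGe, ← edges_eq, ar_eq_sum_card]
      refine sum_congr rfl fun x _ => ?_
      rw [deg_eq]
    rw [h2, sum_const, card_univ, Fintype.card_fin, nsmul_eq_mul] at h1
    rw [Real.rpow_add hpos, Real.rpow_one] at hmo
    nlinarith
  obtain ⟨m, φ, hm, hφ⟩ := exists_emb (univ \ {v} : Finset (Fin (n + 1)))
  have hmn : m = n := by
    rw [hm, card_sdiff_of_subset (subset_univ _), card_univ, Fintype.card_fin, card_singleton]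
    rfl
  subst hmn
  have h1 := le_exP (hcomap φ G hG)
  have h2 : 2 * ((G.comap φ).edgeSet.ncard : ℝ) = ar G (univ \ {v}) (univ \ {v}) := by
    rw [← edges_eq, ar_comap, hφ]
  have h3 := ar_split G (subset_univ ({v} : Finset (Fin (m + 1))))
  have h4 : ar G {v} {v} = 0 := by simp [ar]
  have h5 : ar G {v} (univ \ {v}) ≤ (G.degree v : ℝ) := by
    rw [ar_eq_sum_card, sum_singleton, ← deg_eq]
    exact_mod_cast card_le_card (filter_subset_filter _ (subset_univ _))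
  rw [edges_eq, hGe, h4, ← h2] at h3
  have h6 : ((G.comap φ).edgeSet.ncard : ℝ) ≤ exP P m := by exact_mod_cast h1
  linarith

include hcomap in
/-- Extremal graphs at records are optimal. -/
theorem opt_of_rec {a : ℝ} {n : ℕ} (hr : Rec (fun n => (exP P n : ℝ)) a n)
    (G : SimpleGraph (Fin n)) [DecidableRel G.Adj] (hG : P G) (hGe : G.edgeSet.ncard = exP P n) :
    Opt G a univ := by
  intro A hA
  have hn0 : (0 : ℝ) < n := by exact_mod_cast hr.1
  have hna : (0 : ℝ) < (n : ℝ) ^ a := Real.rpow_pos_of_pos hn0 _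
  obtain ⟨m, φ, hm, hφ⟩ := exists_emb A
  rcases Nat.eq_zero_or_pos m with h0 | hm0
  · have hA0 : A = ∅ := by
      rw [← card_eq_zero, ← hm, h0]
    rw [hA0, ar_empty]
    exact mul_nonneg (Real.rpow_nonneg (by positivity) _) (ar_nonneg _ _ _)
  · have hm0' : (0 : ℝ) < m := by exact_mod_cast hm0
    have hma : (0 : ℝ) < (m : ℝ) ^ a := Real.rpow_pos_of_pos hm0' _
    have hmn : m ≤ n := by
      rw [hm]
      exact (card_le_univ A).trans (by rw [Fintype.card_fin])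
    have h1 : ar G A A = 2 * ((G.comap φ).edgeSet.ncard : ℝ) := by
      rw [← edges_eq, ar_comap, hφ]
    have h2 : ((G.comap φ).edgeSet.ncard : ℝ) ≤ exP P m := by
      exact_mod_cast le_exP (hcomap φ G hG)
    have h3 := hr.2 m hm0 hmn
    rw [h1, edges_eq, hGe, card_univ, Fintype.card_fin, ← hm,
      Real.div_rpow hm0'.le hn0.le]
    rw [div_le_div_iff₀ hma hna] at h3
    rw [div_mul_eq_mul_div, le_div_iff₀ hna]
    nlinarith

end Graphs

end Pool.Agent.J4.H75.EC
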