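import Pool.Agent.J4.H75.EC.Parity

/-!
# The structure of optimal graphs

The same text as in the hand-in `ExtremalStructure`, for the use in other files.
-/

set_option autoImplicit false

namespace Pool.Agent.J4.H75.EC.Str

open Finset Pool.Agent.J4.H75.GE Pool.Agent.J4.H75.GF Pool.Agent.J4.H75.EC Pool.TH815.GR

/-- `G` can be made bipartite by deleting at most `t` edges. -/
def NearlyBipartite {V : Type} (G : SimpleGraph V) (t : ℝ) : Prop :=
  ∃ B : SimpleGraph V, B ≤ G ∧ B.Colorable 2 ∧ (G.edgeSet.ncard : ℝ) ≤ B.edgeSet.ncard + t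

/-- The degree of `x`. -/
noncomputable def deg {n : ℕ} (H : SimpleGraph (Fin n)) (x : Fin n) : ℝ :=
  ((H.neighborSet x).ncard : ℝ)

open Classical in
/-- The transition matrix of the simple random walk on `H`. -/
noncomputable def step {n : ℕ} (H : SimpleGraph (Fin n)) : Matrix (Fin n) (Fin n) ℝ :=
  fun x y => if H.Adj x y then 1 / deg H x else 0

/-- The stationary distribution of the simple random walk on `H`. -/
noncomputable def stat {n : ℕ} (H : SimpleGraph (Fin n)) (y : Fin n) : ℝ :=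
  deg H y / ∑ z, deg H z

/-- The sign of the colour of `x`. -/
noncomputable def sign {n : ℕ} (σ : Fin n → Bool) (x : Fin n) : ℝ := if σ x then 1 else -1

/-- `σ` is a proper colouring of `H` with two colours, the simple random walk on `H` mixes uniformly
up to parity (the number `1 + (-1) ^ l * (sign σ x * sign σ y)` is `2` if walks of length `l` from `x`
to `y` have the right parity, and `0` otherwise), and any two different vertices are joined by paths
of all lengths from `l₀` to `L` of the right parity. -/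
structure Mixes (k : ℕ) (C θ : ℝ) (l₀ L : ℕ) {n : ℕ} (H : SimpleGraph (Fin n))
    (σ : Fin n → Bool) : Prop where
  proper : ∀ x y, H.Adj x y → σ x ≠ σ y
  mixing : ∀ l, 2 * k ≤ l → ∀ x y,
    |(step H ^ l) x y - (1 + (-1) ^ l * (sign σ x * sign σ y)) * stat H y| ≤ C * θ ^ l * stat H y
  paths : ∀ l, l₀ ≤ l → l ≤ L → ∀ x y, x ≠ y → (Even l ↔ σ x = σ y) →
    ∃ p : H.Walk x y, p.IsPath ∧ p.length = l

/-- `G` contains the subdivision of the complete graph on `r` vertices in which the edge `i j`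
(`i < j`) is replaced by a path of length `len i j`. -/
def ContainsSubdivision {V : Type} (G : SimpleGraph V) (r : ℕ) (len : Fin r → Fin r → ℕ) : Prop :=
  ∃ (φ : Fin r → V) (P : ∀ i j, G.Walk (φ i) (φ j)), Function.Injective φ ∧
    ∀ i j, i < j → (P i j).IsPath ∧ (P i j).length = len i j ∧
      (∀ t, t ≠ i → t ≠ j → φ t ∉ (P i j).support) ∧
      ∀ i' j', i' < j' → (i', j') ≠ (i, j) →
        ∀ z ∈ (P i j).support, z ∈ (P i' j').support → ∃ t, z = φ t

/-- The properties of the graph `G` on `n` vertices: all degrees have the order `n ^ (1 / k)`, `G`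
expands, and it has a spanning bipartite subgraph with at least half of the edges at every vertex
which mixes in bounded time. -/
structure Regular (k : ℕ) (h K C θ : ℝ) (l₀ L : ℕ) {n : ℕ} (G : SimpleGraph (Fin n)) : Prop where
  degree : ∀ x, h * (n : ℝ) ^ (1 / (k : ℝ)) ≤ deg G x ∧ deg G x ≤ K * (n : ℝ) ^ (1 / (k : ℝ))
  expansion : ∀ A : Finset (Fin n), 2 * A.card ≤ n → h * (n : ℝ) ^ (1 / (k : ℝ)) * A.card ≤
    ({p : Fin n × Fin n | p.1 ∈ A ∧ p.2 ∉ A ∧ G.Adj p.1 p.2}.ncard : ℝ)
  mixing : ∃ (H : SimpleGraph (Fin n)) (σ : Fin n → Bool), H ≤ G ∧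
    (∀ x, deg G x ≤ 2 * deg H x) ∧ Mixes k C θ l₀ L H σ

/-- `G` contains cycles of all the lengths from `l₀` to `L` through all vertices, and paths of these
lengths between any two different vertices which are not adjacent. -/
def HasLengths (l₀ L : ℕ) {n : ℕ} (G : SimpleGraph (Fin n)) : Prop :=
  ∀ l, l₀ ≤ l → l ≤ L → (∀ x, ∃ p : G.Walk x x, p.IsCycle ∧ p.length = l) ∧
    ∀ x y, x ≠ y → ¬ G.Adj x y → ∃ p : G.Walk x y, p.IsPath ∧ p.length = l

/-- `G` contains all the subdivisions of `K_r` in which the edges are replaced by paths with lengths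
from `l₀` to `L`. -/
def HasSubdivisions (l₀ L r : ℕ) {n : ℕ} (G : SimpleGraph (Fin n)) : Prop :=
  ∀ len : Fin r → Fin r → ℕ, (∀ i j, i < j → l₀ ≤ len i j ∧ len i j ≤ L) →
    ContainsSubdivision G r len

/-- `G` is `Regular`, it is bipartite or contains paths and cycles of all the lengths from `l₀` to `L`,
and it is nearly bipartite or contains all subdivisions of `K_r` with such lengths. -/
structure Structured (k : ℕ) (h K C θ : ℝ) (l₀ L r : ℕ) (B : ℝ) {n : ℕ}
    (G : SimpleGraph (Fin n)) : Prop where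
  regular : Regular k h K C θ l₀ L G
  lengths : G.Colorable 2 ∨ HasLengths l₀ L G
  subdivisions : NearlyBipartite G (B * (n : ℝ) ^ (1 / (k : ℝ))) ∨ HasSubdivisions l₀ L r G

theorem ncard_nbr {n : ℕ} (H : SimpleGraph (Fin n)) [DecidableRel H.Adj] (x : Fin n) :
    deg H x = H.degree x := by
  unfold deg
  rw [← H.card_neighborFinset_eq_degree, ← Set.ncard_coe_finset]
  congr 2
  ext y
  simp

theorem step_eq {n : ℕ} (H : SimpleGraph (Fin n)) [DecidableRel H.Adj] : step H = nT H := by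
  ext x y
  unfold step nT ad
  rw [ncard_nbr]
  by_cases h : H.Adj x y
  · rw [if_pos h, if_pos h]
  · rw [if_neg h, if_neg h, zero_div]

theorem stat_eq {n : ℕ} (H : SimpleGraph (Fin n)) [DecidableRel H.Adj] (y : Fin n) :
    stat H y = nφ H y * nφ H y / vol H := by
  unfold stat vol
  rw [ncard_nbr, nφ_sq]
  congr 1
  exact sum_congr rfl fun z _ => ncard_nbr H z

/-- Uniform mixing of a good bipartite graph. -/
theorem mixing_of_good {k : ℕ} (hk : 1 ≤ k) {h K : ℝ} (hh : 0 < h) (hK : 0 < K) (hhK : h ≤ K)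
    {n : ℕ} (hn : 0 < n) (H : SimpleGraph (Fin n)) [DecidableRel H.Adj] (σ : Fin n → Bool)
    (hgood : GoodB k h K H σ) (l : ℕ) (hl : 2 * k ≤ l) (x y : Fin n) :
    |(step H ^ l) x y - (1 + (-1) ^ l * (sign σ x * sign σ y)) * stat H y| ≤
      (4 * K / h ^ 2) ^ k * (K / h) / (1 - h ^ 2 / (2 * K ^ 2)) ^ (2 * k) *
        (1 - h ^ 2 / (2 * K ^ 2)) ^ l * stat H y := by
  have hm0 : (0 : ℝ) < n := by exact_mod_cast hn
  set θ : ℝ := 1 - h ^ 2 / (2 * K ^ 2) with hθd
  have hθ0 : 0 < θ := by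
    have : h ^ 2 / (2 * K ^ 2) ≤ 1 / 2 := by
      rw [div_le_div_iff₀ (by positivity) (by norm_num)]
      nlinarith
    rw [hθd]; linarith
  set B : ℝ := (4 * K / h ^ 2) ^ k with hB
  set D : ℝ := (n : ℝ) ^ (1 / (k : ℝ)) with hD
  have hD0 : 0 < D := Real.rpow_pos_of_pos hm0 _
  have hd' : ∀ x, 0 < H.degree x := by
    intro x
    have : (0 : ℝ) < H.degree x := lt_of_lt_of_le (by positivity) (hgood.deg_ge x)
    exact_mod_cast this
  have hne : Nonempty (Fin n) := ⟨⟨0, hn⟩⟩
  rw [step_eq, stat_eq, nT_pow hd']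
  have hsg : ∀ z, sign σ z = sg σ z := fun _ => rfl
  rw [hsg, hsg]
  set par : ℝ := 1 + (-1) ^ l * (sg σ x * sg σ y) with hpar
  have h1 := hgood.mix hk hh hK hn hl x y
  have hx := nφ_pos hd' x
  have hy := nφ_pos hd' y
  have hv := vol_pos hd'
  have e1 : (nP H ^ l) x y * (nφ H y / nφ H x) - par * (nφ H y * nφ H y / vol H) =
      (nφ H y / nφ H x) * ((nP H ^ l) x y - par * (nφ H x * nφ H y / vol H)) := by
    field_simp
  rw [e1, abs_mul, abs_of_pos (by positivity : 0 < nφ H y / nφ H x)]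
  have h2 : h / (K * n) ≤ nφ H x * nφ H y / vol H := by
    apply hgood.stat_ge hh hK hn
    have a1 : √(h * D) ≤ nφ H x := Real.sqrt_le_sqrt (hgood.deg_ge x)
    have a2 : √(h * D) ≤ nφ H y := Real.sqrt_le_sqrt (hgood.deg_ge y)
    calc h * D = √(h * D) * √(h * D) := (Real.mul_self_sqrt (by positivity)).symm
      _ ≤ _ := mul_le_mul a1 a2 (Real.sqrt_nonneg _) ((Real.sqrt_nonneg _).trans a1)
  calc nφ H y / nφ H x * |(nP H ^ l) x y - par * (nφ H x * nφ H y / vol H)|
      ≤ nφ H y / nφ H x * (θ ^ (l - 2 * k) * (B / n)) :=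
        mul_le_mul_of_nonneg_left h1 (by positivity)
    _ = nφ H y / nφ H x * (B * (K / h)) * θ ^ (l - 2 * k) * (h / (K * n)) := by
        field_simp
    _ ≤ nφ H y / nφ H x * (B * (K / h)) * θ ^ (l - 2 * k) * (nφ H x * nφ H y / vol H) :=
        mul_le_mul_of_nonneg_left h2 (by positivity)
    _ = B * (K / h) * θ ^ (l - 2 * k) * (nφ H y * nφ H y / vol H) := by
        field_simp
    _ = B * (K / h) / θ ^ (2 * k) * θ ^ l * (nφ H y * nφ H y / vol H) := by
        have : θ ^ l = θ ^ (l - 2 * k) * θ ^ (2 * k) := by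
          rw [← pow_add]
          congr 1
          omega
        rw [this]
        field_simp

theorem ar_ncard {n : ℕ} (G : SimpleGraph (Fin n)) [DecidableRel G.Adj] (A : Finset (Fin n)) :
    ar G A Aᶜ = ({p : Fin n × Fin n | p.1 ∈ A ∧ p.2 ∉ A ∧ G.Adj p.1 p.2}.ncard : ℝ) := by
  rw [ar_eq_interedges, ← Set.ncard_coe_finset]
  congr 2
  ext p
  rw [mem_coe, SimpleGraph.mem_interedges_iff]
  simp

/-- Subdivisions from paths of both parities. -/
theorem subdivisions_of_paths {n r l₀ L : ℕ} {G : SimpleGraph (Fin n)} (hrn : r ≤ n)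
    (hpath : ∀ u v, u ≠ v → ∀ S : Finset (Fin n), S.card ≤ r + r * r * (L + l₀ + 1) → u ∉ S →
      v ∉ S → ∀ j, l₀ ≤ j → j ≤ L + l₀ →
        ∃ p : G.Walk u v, p.IsPath ∧ p.length = j ∧ ∀ z ∈ S, z ∉ p.support)
    (len : Fin r → Fin r → ℕ) (hlen : ∀ i j, i < j → l₀ ≤ len i j ∧ len i j ≤ L) :
    ContainsSubdivision G r len := by
  set φ : Fin r → Fin n := Fin.castLE hrn with hφd
  have hφ : Function.Injective φ := Fin.castLE_injective hrn
  set len' : Fin r × Fin r → ℕ := fun e => if e.1 < e.2 then len e.1 e.2 else l₀ with hlen'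
  have hlen1 : ∀ e, len' e ≤ L + l₀ := by
    intro e
    simp only [hlen']
    split_ifs with h
    · have := (hlen e.1 e.2 h).2
      omega
    · omega
  have hlen2 : ∀ e, l₀ ≤ len' e := by
    intro e
    simp only [hlen']
    split_ifs with h
    · exact (hlen e.1 e.2 h).1
    · exact le_rfl
  obtain ⟨P, hP⟩ := greedy G r (L + l₀) φ hφ len' hlen1 (by
    intro e he S hS h1 h2
    exact hpath _ _ (fun h => he (hφ h)) S hS h1 h2 _ (hlen2 e) (hlen1 e))
  refine ⟨φ, fun i j => P (i, j), hφ, ?_⟩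
  intro i j hij
  obtain ⟨h1, h2, h3, h4⟩ := hP (i, j) hij
  refine ⟨h1, ?_, h3, ?_⟩
  · rw [h2]
    simp [hlen', hij]
  · intro i' j' hij' hne z hz hz'
    exact h4 (i', j') hij' hne z hz hz'

/-- Optimal graphs are structured. -/
theorem structured_of_opt {k : ℕ} (hk : 1 ≤ k) {c a : ℝ} (hc : 0 < c) (ha : 1 < a) :
    ∃ (h K C θ : ℝ) (l₀ : ℕ), 0 < h ∧ 0 < θ ∧ θ < 1 ∧ ∀ L r : ℕ, ∃ (B : ℝ) (N₁ : ℕ),
      ∀ (n : ℕ) (G : SimpleGraph (Fin n)) [DecidableRel G.Adj],
      (∀ (v : Fin n) (p : G.Walk v v), p.IsCycle → Even p.length → 2 * k < p.length) → N₁ ≤ n →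
      Opt G a univ → c * (n : ℝ) ^ (1 + 1 / (k : ℝ)) ≤ ar G univ univ →
      Structured k h K C θ l₀ L r B G := by
  obtain ⟨h, K, hh, hK, hhK, N₂, hgoodT⟩ := cut_good hk hc ha
  obtain ⟨l₁, K₁, hK₁, hpathT⟩ := optimal_paths hk hc ha
  set θ : ℝ := 1 - h ^ 2 / (2 * K ^ 2) with hθd
  have hθ1 : θ < 1 := by
    have : 0 < h ^ 2 / (2 * K ^ 2) := by positivity
    rw [hθd]; linarith
  have hθ0 : 0 < θ := by
    have : h ^ 2 / (2 * K ^ 2) ≤ 1 / 2 := by
      rw [div_le_div_iff₀ (by positivity) (by norm_num)]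
      nlinarith
    rw [hθd]; linarith
  refine ⟨h, 2 * K, (4 * K / h ^ 2) ^ k * (K / h) / θ ^ (2 * k), θ, 2 * l₁ + 4, hh, hθ0, hθ1,
    fun L r => ?_⟩
  set s : ℕ := r + r * r * (L + (2 * l₁ + 4) + 1) with hs
  obtain ⟨N₁, hN₁⟩ := hpathT (L + (2 * l₁ + 4)) (s + l₁ + 4)
  refine ⟨(s + 2 : ℕ) * K₁, N₁ + N₂ + r + 1, ?_⟩
  intro n G _ hg hN hopt hE
  obtain ⟨X, hX, hdegX, hpaths⟩ := hN₁ n G hg (by omega) hopt hE
  have hgood := hgoodT n G X hg (by omega) hopt hE hX
  have hn : 0 < n := by omega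
  have hn0 : (0 : ℝ) < n := by exact_mod_cast hn
  set D : ℝ := (n : ℝ) ^ (1 / (k : ℝ)) with hD
  have hD0 : 0 < D := Real.rpow_pos_of_pos hn0 _
  set H : SimpleGraph (Fin n) := cut G X with hH
  have hHG : H ≤ G := cut_le G X
  set σ : Fin n → Bool := fun x => decide (x ∈ X) with hσ
  have hhas : HasPaths H σ l₁ (L + (2 * l₁ + 4)) (s + l₁ + 4) := hpaths
  have hproper : ∀ a b, H.Adj a b → σ a ≠ σ b := hgood.proper
  -- degrees
  have hdegar : ∀ x, ∀ F : SimpleGraph (Fin n), ∀ _ : DecidableRel F.Adj,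
      ar F {x} {x}ᶜ = (F.degree x : ℝ) := by
    intro x F _
    rw [ar_eq_sum_card, sum_singleton, ← deg_eq]
    congr 2
    ext y
    simp only [mem_filter, mem_compl, mem_singleton, mem_univ, true_and, and_iff_right_iff_imp]
    intro h1 h2
    exact h1.ne h2.symm
  have hdouble : ∀ x, (G.degree x : ℝ) ≤ 2 * (H.degree x : ℝ) := by
    intro x
    have h1 := cut_half G X hX {x}
    rw [hdegar x G inferInstance] at h1
    rw [← hdegar x H inferInstance]
    exact h1
  have hmono : ∀ x, (H.degree x : ℝ) ≤ (G.degree x : ℝ) := by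
    intro x
    rw [← hdegar x G inferInstance, ← hdegar x H inferInstance]
    exact ar_le_ar_of_le hHG _ _
  refine ⟨⟨?_, ?_, ⟨H, σ, hHG, ?_, ⟨hproper, ?_, ?_⟩⟩⟩, ?_, ?_⟩
  · intro x
    rw [ncard_nbr]
    refine ⟨(hgood.deg_ge x).trans (hmono x), (hdouble x).trans ?_⟩
    have := hgood.deg_le x
    linarith
  · intro A hA
    rw [← ar_ncard]
    exact (hgood.exp A hA).trans (ar_le_ar_of_le hHG _ _)
  · intro x
    rw [ncard_nbr, ncard_nbr]
    exact hdouble x
  · intro l hl x y
    exact mixing_of_good hk hh hK hhK hn H σ hgood l hl x y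
  · intro l hl hlL x y hxy hpar
    obtain ⟨p, hp, hpl, -⟩ := hhas ∅ (by simp) x y hxy (by simp) (by simp) l (by omega) (by omega)
      hpar
    exact ⟨p, hp, hpl⟩
  · by_cases hm : ∃ x y, G.Adj x y ∧ σ x = σ y
    · right
      obtain ⟨x, y, hxy, hc'⟩ := hm
      intro l hl hlL
      refine ⟨?_, ?_⟩
      · intro u
        have hdeg0 : 0 < H.degree u := by
          have h1 : (0 : ℝ) < H.degree u := lt_of_lt_of_le (by positivity) (hgood.deg_ge u)
          exact_mod_cast h1
        obtain ⟨w, hw⟩ := (H.degree_pos_iff_exists_adj u).1 hdeg0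
        exact all_cycles hHG (by omega) hhas hproper hxy hc' hw (by omega) (by omega)
      · intro u v huv hnadj
        exact all_paths hHG (by omega) hhas hxy hc' huv
          (by rintro ⟨rfl, rfl⟩; exact hnadj hxy) (by rintro ⟨rfl, rfl⟩; exact hnadj hxy.symm)
          (by omega) (by omega)
    · left
      push Not at hm
      let col : G.Coloring Bool := SimpleGraph.Coloring.mk σ (fun {a b} h => hm a b h)
      have := col.colorable
      rwa [Fintype.card_bool] at this
  · by_cases hfr : fr G univ ≤ 2 * ((s + 2 : ℕ) : ℝ) * (K₁ * D)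
    · left
      obtain ⟨B, hB, hBc, hBe⟩ := exists_bip_fr G
      refine ⟨B, hB, hBc, ?_⟩
      linarith
    · right
      push Not at hfr
      refine subdivisions_of_paths (l₀ := 2 * l₁ + 4) (L := L) (by omega) ?_
      intro u v huv S hS hu hv j hj hjL
      by_cases hpar : Even j ↔ σ u = σ v
      · obtain ⟨p, hp, hpl, hpS⟩ := hhas S (by omega) u v huv hu hv j (by omega) hjL hpar
        refine ⟨p.mapLe hHG, hp.mapLe hHG, by rw [SimpleGraph.Walk.length_mapLe, hpl], ?_⟩
        intro z hz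
        rw [SimpleGraph.Walk.support_mapLe_eq_support]
        exact hpS z hz
      · -- a monochromatic edge
        have hcard : (insert u (insert v S)).card ≤ s + 2 := by
          have h1 := card_insert_le u (insert v S)
          have h2 := card_insert_le v S
          omega
        obtain ⟨x, y, hxy, hcxy, hx, hy⟩ : ∃ x y, G.Adj x y ∧ (x ∈ X ↔ y ∈ X) ∧
            x ∉ insert u (insert v S) ∧ y ∉ insert u (insert v S) := by
          by_contra hcon
          push Not at hcon
          have h1 := fr_small G hX hdegX (insert u (insert v S)) (by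
            intro x y hxy hc'
            by_contra h2
            push Not at h2
            exact h2.2 (hcon x y hxy hc' h2.1))
          have h2 : ((insert u (insert v S)).card : ℝ) ≤ ((s + 2 : ℕ) : ℝ) := by
            exact_mod_cast hcard
          have h3 : 2 * ((insert u (insert v S)).card : ℝ) * (K₁ * D) ≤
              2 * ((s + 2 : ℕ) : ℝ) * (K₁ * D) := by gcongr
          linarith
        simp only [mem_insert, not_or] at hx hy
        exact wrong_two (s := s) hHG le_rfl hhas hxy (by rw [hσ]; simpa using hcxy)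
          (Ne.symm hx.1) (Ne.symm hy.1) (Ne.symm hx.2.1) (Ne.symm hy.2.1) huv (by omega) hjL hpar
          S hS hu hv hx.2.2 hy.2.2

end Pool.Agent.J4.H75.EC.Str
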